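import Mathlib

/-!
# Bernoulli moments
-/

namespace Run7.h935

/-- `log ((t/2) / sinh (t/2)) = ∑_{k ≥ 1} - B_{2k} / (2k) · t^{2k} / (2k)!`. -/
noncomputable def logSer : PowerSeries ℚ :=
  PowerSeries.mk fun n => if n ≠ 0 ∧ Even n then -(bernoulli n) / n / n.factorial else 0

/-- The Bernoulli moment `Γ_k(α, ν)`: `∑_k Γ_k t^k / k! = (∑_j e^{t α_j}) exp (ν logSer)`. -/
noncomputable def bernoulliMoment {n : ℕ} (α : Fin n → ℚ) (ν : ℚ) (k : ℕ) : ℚ :=
  k.factorial * PowerSeries.coeff k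
    ((∑ j, PowerSeries.rescale (α j) (PowerSeries.exp ℚ)) *
      (PowerSeries.exp ℚ).subst (ν • logSer))

end Run7.h935
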