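import Pool.Agent.Run7.h935.CertData

/-!
# Soundness of the finite certificate
-/

namespace Run7.h935

open MvPowerSeries

namespace NF

/-- the monomial of a tuple -/
noncomputable def monT (q : T4) : PS 2 := mon q.1 q.2.1 q.2.2.1 q.2.2.2

lemma monT_add (p v : T4) : monT (addT p v) = monT p * monT v := by
  obtain ⟨a, b, c, d⟩ := p
  obtain ⟨a', b', c', d'⟩ := v
  exact (mon_mul a b c d a' b' c' d').symm

lemma monT_mem_Q (p : T4) (t : ℤ) (h : t ≤ hK p) : monT p ∈ Q (fun _ => t) := by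
  obtain ⟨a, b, c, d⟩ := p
  rw [hK_eq] at h
  exact mon_mem_Q a b c d t h

lemma smul_mem_DI {b : Fin 4 → ℤ} {ω : PS 2} (c : ℂ) (h : ω ∈ DI b) : c • ω ∈ DI b := by
  rw [MvPowerSeries.smul_eq_C_mul]
  exact Ideal.mul_mem_left _ _ h

/-- The logarithmic vector fields `X_i ω ∂_i`. -/
lemma log_mem (ω : PS 2) (b : Fin 4 → ℤ) (hω : ω ∈ Q b) (k : Fin 4 → PS 2) :
    (fun i => k i * (X i * ω) : VF 2) ∈ VQ b := by
  intro i
  apply Ideal.mul_mem_left
  exact Q_anti (fun k => le_of_eq (by ring)) (mul_mem_Q (X_mem_Q i) hω)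

lemma dfw_log (ω : PS 2) (k : Fin 4 → PS 2) :
    dfw fS (fun i => k i * (X i * ω) : VF 2)
      = (3 * X 0 ^ 2 * X 1 + X 1 ^ 3 + X 1 * X 2 * X 3) * (k 0 * (X 0 * ω))
        + (X 0 ^ 3 + 3 * X 0 * X 1 ^ 2 + X 0 * X 2 * X 3) * (k 1 * (X 1 * ω))
        + (4 * X 2 ^ 3 * X 3 + X 3 ^ 4 + X 0 * X 1 * X 3) * (k 2 * (X 2 * ω))
        + (X 2 ^ 4 + 4 * X 2 * X 3 ^ 3 + X 0 * X 1 * X 2) * (k 3 * (X 3 * ω)) := by
  have h0 : dfw fS (fun i => k i * (X i * ω) : VF 2)
      = ∑ i : Fin 4, dd i fS * (k i * (X i * ω)) := by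
    rw [dfw_apply]
  rw [h0, Fin.sum_univ_four, dd_zero_fS, dd_one_fS, dd_two_fS, dd_three_fS]

/-- The torus relations. -/
lemma torus_rel (v : T4) (hv : v ∈ vl) :
    ∃ w : ℂ, w ≠ 0 ∧ ∀ (ω : PS 2) (b : Fin 4 → ℤ), ω ∈ Q b →
      ω * monT (1, 1, 1, 1) + w • (ω * monT v) ∈ DI b := by
  simp only [vl, List.mem_cons, List.not_mem_nil, or_false] at hv
  rcases hv with rfl | rfl | rfl | rfl | rfl
  · refine ⟨-1, by norm_num, fun ω b _ => ?_⟩
    have : ω * monT (1, 1, 1, 1) + (-1 : ℂ) • (ω * monT (1, 1, 1, 1)) = 0 := by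
      rw [neg_one_smul]; ring
    rw [this]; exact Ideal.zero_mem _
  · refine ⟨4, by norm_num, fun ω b hω => ?_⟩
    have h1 : (2 : ℂ) • (ω * monT (1, 1, 1, 1) + (4 : ℂ) • (ω * monT (3, 1, 0, 0))) ∈ DI b := by
      refine ⟨_, log_mem ω b hω ![3, -1, 0, 0], ?_⟩
      rw [dfw_log]
      simp only [MvPowerSeries.smul_eq_C_mul, map_ofNat, monT, mon_eq]
      simp
      ring
    have h2 := smul_mem_DI (1 / 2 : ℂ) h1
    rw [smul_smul] at h2
    norm_num at h2
    exact h2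
  · refine ⟨4, by norm_num, fun ω b hω => ?_⟩
    have h1 : (2 : ℂ) • (ω * monT (1, 1, 1, 1) + (4 : ℂ) • (ω * monT (1, 3, 0, 0))) ∈ DI b := by
      refine ⟨_, log_mem ω b hω ![-1, 3, 0, 0], ?_⟩
      rw [dfw_log]
      simp only [MvPowerSeries.smul_eq_C_mul, map_ofNat, monT, mon_eq]
      simp
      ring
    have h2 := smul_mem_DI (1 / 2 : ℂ) h1
    rw [smul_smul] at h2
    norm_num at h2
    exact h2
  · refine ⟨5, by norm_num, fun ω b hω => ?_⟩
    have h1 : (3 : ℂ) • (ω * monT (1, 1, 1, 1) + (5 : ℂ) • (ω * monT (0, 0, 4, 1))) ∈ DI b := by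
      refine ⟨_, log_mem ω b hω ![0, 0, 4, -1], ?_⟩
      rw [dfw_log]
      simp only [MvPowerSeries.smul_eq_C_mul, map_ofNat, monT, mon_eq]
      simp
      ring
    have h2 := smul_mem_DI (1 / 3 : ℂ) h1
    rw [smul_smul] at h2
    norm_num at h2
    exact h2
  · refine ⟨5, by norm_num, fun ω b hω => ?_⟩
    have h1 : (3 : ℂ) • (ω * monT (1, 1, 1, 1) + (5 : ℂ) • (ω * monT (0, 0, 1, 4))) ∈ DI b := by
      refine ⟨_, log_mem ω b hω ![0, 0, -1, 4], ?_⟩
      rw [dfw_log]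
      simp only [MvPowerSeries.smul_eq_C_mul, map_ofNat, monT, mon_eq]
      simp
      ring
    have h2 := smul_mem_DI (1 / 3 : ℂ) h1
    rw [smul_smul] at h2
    norm_num at h2
    exact h2

/-- The relation between two vertices. -/
lemma torus_rel2 (v v' : T4) (hv : v ∈ vl) (hv' : v' ∈ vl) :
    ∃ w w' : ℂ, w ≠ 0 ∧ ∀ p : T4,
      w • monT (addT p v) - w' • monT (addT p v') ∈ DI (fun _ => (hK p : ℤ)) := by
  obtain ⟨w, hw, h⟩ := torus_rel v hv
  obtain ⟨w', -, h'⟩ := torus_rel v' hv'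
  refine ⟨w, w', hw, fun p => ?_⟩
  have hp := monT_mem_Q p (hK p : ℤ) le_rfl
  have h1 := Ideal.sub_mem _ (h _ _ hp) (h' _ _ hp)
  have h2 : monT p * monT (1, 1, 1, 1) + w • (monT p * monT v)
      - (monT p * monT (1, 1, 1, 1) + w' • (monT p * monT v'))
      = w • monT (addT p v) - w' • monT (addT p v') := by
    rw [monT_add, monT_add]; ring
  rwa [h2] at h1

lemma mem_of_smul_mem (S : Submodule ℂ (PS 2)) {c : ℂ} (hc : c ≠ 0) {x : PS 2} (h : c • x ∈ S) :
    x ∈ S := by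
  have := S.smul_mem c⁻¹ h
  rwa [smul_smul, inv_mul_cancel₀ hc, one_smul] at this

/-- Assumptions on the submodule `S` at level `h`. -/
structure LevelHyp (S : Submodule ℂ (PS 2)) (h : ℕ) : Prop where
  rel : ∀ ω ∈ DI (fun _ => (h : ℤ) - 60), ω ∈ S
  high : ∀ q : T4, h < hK q → monT q ∈ S
  basis : ∀ q ∈ Bl, hK q = h → monT q ∈ S

lemma up_mem {S : Submodule ℂ (PS 2)} {h : ℕ} (H : LevelHyp S h) (q : T4) (hq : hK q = h)
    (hu : isUp q = true) : monT q ∈ S := by
  unfold isUp at hu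
  rw [List.any_eq_true] at hu
  obtain ⟨v, hv, h1⟩ := hu
  rw [Bool.and_eq_true, Bool.and_eq_true, List.any_eq_true] at h1
  obtain ⟨h2, h3, v', hv', h4⟩ := h1
  rw [Nat.beq_eq] at h3
  have h4' : hK q < hK (addT (subT q v) v') := by
    simpa [Nat.blt] using h4
  obtain ⟨w, w', hw, hr⟩ := torus_rel2 v v' hv hv'
  have h5 := H.rel _ (DI_anti (fun _ => by
    have : hK (subT q v) + 60 = hK q := h3
    omega) (hr (subT q v)))
  rw [add_sub_T q v h2] at h5
  have h6 := H.high (addT (subT q v) v') (hq ▸ h4')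
  have h7 := S.add_mem h5 (S.smul_mem w' h6)
  rw [sub_add_cancel] at h7
  exact mem_of_smul_mem S hw h7

lemma tgt_mem {S : Submodule ℂ (PS 2)} {h : ℕ} (H : LevelHyp S h) (done : List T4)
    (hd : ∀ q ∈ done, monT q ∈ S) (t : T4) (ht : tgt h done t = true) : monT t ∈ S := by
  unfold tgt at ht
  rw [Bool.or_eq_true, Bool.and_eq_true, Bool.or_eq_true, List.any_eq_true] at ht
  rcases ht with h1 | ⟨h1, h2 | ⟨q, hq, h3⟩⟩
  · exact H.high t (by simpa [Nat.blt] using h1)
  · exact up_mem H t (by simpa using h1) h2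
  · rw [eqT_iff] at h3
    rw [h3]; exact hd q hq

lemma torOK_mem {S : Submodule ℂ (PS 2)} {h : ℕ} (H : LevelHyp S h) (done : List T4)
    (hd : ∀ q ∈ done, monT q ∈ S) (q v v' : T4) (hv : v ∈ vl) (hv' : v' ∈ vl)
    (ht : torOK h done q v v' = true) : monT q ∈ S := by
  unfold torOK at ht
  rw [Bool.and_eq_true, Bool.and_eq_true] at ht
  obtain ⟨h2, h3, h4⟩ := ht
  rw [Nat.beq_eq] at h3
  obtain ⟨w, w', hw, hr⟩ := torus_rel2 v v' hv hv'
  have h5 := H.rel _ (DI_anti (fun _ => by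
    have : hK (subT q v) + 60 = h := h3
    omega) (hr (subT q v)))
  rw [add_sub_T q v h2] at h5
  have h6 := tgt_mem H done hd _ h4
  have h7 := S.add_mem h5 (S.smul_mem w' h6)
  rw [sub_add_cancel] at h7
  exact mem_of_smul_mem S hw h7

/-- The vector field `ω ∂_i`. -/
lemma single_mem (ω : PS 2) (i : Fin 4) (b : Fin 4 → ℤ) (hω : ω ∈ Q (fun j => b j + cw j i)) :
    (Pi.single i ω : VF 2) ∈ VQ b := by
  intro k
  by_cases h : k = i
  · subst h
    rw [Pi.single_eq_same]; exact hω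
  · rw [Pi.single_eq_of_ne h]; exact Ideal.zero_mem _

lemma dfw_single (ω : PS 2) (i : Fin 4) : dfw fS (Pi.single i ω : VF 2) = dd i fS * ω := by
  rw [dfw_apply, Finset.sum_eq_single i]
  · rw [Pi.single_eq_same]
  · intro k _ hk
    rw [Pi.single_eq_of_ne hk, mul_zero]
  · intro h; exact absurd (Finset.mem_univ _) h

lemma bcond_spec (h d : ℕ) (p : T4) (hd : d < 4) (hb : bcond h d p = true) :
    monT p ∈ Q (fun j => ((h : ℤ) - 60) + cw j ⟨d, hd⟩) := by
  obtain ⟨a, b, c, e⟩ := p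
  simp only [bcond, Bool.and_eq_true, Nat.ble_eq, Nat.add_eq, Nat.mul_eq] at hb
  obtain ⟨h0, h1, h2, h3⟩ := hb
  apply monomial_mem_Q
  intro j
  interval_cases d
  · fin_cases j
    · show (h : ℤ) - 60 + 24 ≤ ell 0 (q4 a b c e)
      rw [ell_q4_zero]; simp at h0; omega
    · show (h : ℤ) - 60 + 12 ≤ ell 1 (q4 a b c e)
      rw [ell_q4_one]; simp at h1; omega
    · show (h : ℤ) - 60 + 15 ≤ ell 2 (q4 a b c e)
      rw [ell_q4_two]; simp at h2; omega
    · show (h : ℤ) - 60 + 15 ≤ ell 3 (q4 a b c e)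
      rw [ell_q4_three]; simp at h3; omega
  · fin_cases j
    · show (h : ℤ) - 60 + 12 ≤ ell 0 (q4 a b c e)
      rw [ell_q4_zero]; simp at h0; omega
    · show (h : ℤ) - 60 + 24 ≤ ell 1 (q4 a b c e)
      rw [ell_q4_one]; simp at h1; omega
    · show (h : ℤ) - 60 + 15 ≤ ell 2 (q4 a b c e)
      rw [ell_q4_two]; simp at h2; omega
    · show (h : ℤ) - 60 + 15 ≤ ell 3 (q4 a b c e)
      rw [ell_q4_three]; simp at h3; omega
  · fin_cases j
    · show (h : ℤ) - 60 + 12 ≤ ell 0 (q4 a b c e)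
      rw [ell_q4_zero]; simp at h0; omega
    · show (h : ℤ) - 60 + 12 ≤ ell 1 (q4 a b c e)
      rw [ell_q4_one]; simp at h1; omega
    · show (h : ℤ) - 60 + 20 ≤ ell 2 (q4 a b c e)
      rw [ell_q4_two]; simp at h2; omega
    · show (h : ℤ) - 60 + 10 ≤ ell 3 (q4 a b c e)
      rw [ell_q4_three]; simp at h3; omega
  · fin_cases j
    · show (h : ℤ) - 60 + 12 ≤ ell 0 (q4 a b c e)
      rw [ell_q4_zero]; simp at h0; omega
    · show (h : ℤ) - 60 + 12 ≤ ell 1 (q4 a b c e)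
      rw [ell_q4_one]; simp at h1; omega
    · show (h : ℤ) - 60 + 10 ≤ ell 2 (q4 a b c e)
      rw [ell_q4_two]; simp at h2; omega
    · show (h : ℤ) - 60 + 20 ≤ ell 3 (q4 a b c e)
      rw [ell_q4_three]; simp at h3; omega

/-- The relations from the partial derivatives. -/
lemma bnd_rel (d : ℕ) (hd : d < 4) : ∃ u0 u1 u2 : T4, ∃ c0 c1 c2 : ℂ,
    ul.getD d [] = [u0, u1, u2] ∧ c0 ≠ 0 ∧ c1 ≠ 0 ∧ c2 ≠ 0 ∧
    (u0 ≠ u1 ∧ u0 ≠ u2 ∧ u1 ≠ u2) ∧
    ∀ (h : ℕ) (p : T4), bcond h d p = true →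
      c0 • monT (addT p u0) + c1 • monT (addT p u1) + c2 • monT (addT p u2)
        ∈ DI (fun _ => (h : ℤ) - 60) := by
  interval_cases d
  · refine ⟨_, _, _, 3, 1, 1, rfl, by norm_num, by norm_num, by norm_num, by decide,
      fun h p hb => ?_⟩
    refine ⟨_, single_mem _ 0 _ (bcond_spec h 0 p (by norm_num) hb), ?_⟩
    rw [dfw_single, dd_zero_fS, monT_add, monT_add, monT_add]
    simp only [MvPowerSeries.smul_eq_C_mul, map_ofNat, map_one, monT, mon_eq]
    ring
  · refine ⟨_, _, _, 1, 3, 1, rfl, by norm_num, by norm_num, by norm_num, by decide,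
      fun h p hb => ?_⟩
    refine ⟨_, single_mem _ 1 _ (bcond_spec h 1 p (by norm_num) hb), ?_⟩
    rw [dfw_single, dd_one_fS, monT_add, monT_add, monT_add]
    simp only [MvPowerSeries.smul_eq_C_mul, map_ofNat, map_one, monT, mon_eq]
    ring
  · refine ⟨_, _, _, 4, 1, 1, rfl, by norm_num, by norm_num, by norm_num, by decide,
      fun h p hb => ?_⟩
    refine ⟨_, single_mem _ 2 _ (bcond_spec h 2 p (by norm_num) hb), ?_⟩
    rw [dfw_single, dd_two_fS, monT_add, monT_add, monT_add]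
    simp only [MvPowerSeries.smul_eq_C_mul, map_ofNat, map_one, monT, mon_eq]
    ring
  · refine ⟨_, _, _, 1, 4, 1, rfl, by norm_num, by norm_num, by norm_num, by decide,
      fun h p hb => ?_⟩
    refine ⟨_, single_mem _ 3 _ (bcond_spec h 3 p (by norm_num) hb), ?_⟩
    rw [dfw_single, dd_three_fS, monT_add, monT_add, monT_add]
    simp only [MvPowerSeries.smul_eq_C_mul, map_ofNat, map_one, monT, mon_eq]
    ring

lemma bndOK_mem {S : Submodule ℂ (PS 2)} {h : ℕ} (H : LevelHyp S h) (done : List T4)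
    (hd : ∀ q ∈ done, monT q ∈ S) (q : T4) (d i : ℕ) (hd4 : d < 4) (hi : i < 3)
    (ht : bndOK h done q d (ul.getD d []) ((ul.getD d []).getD i (0, 0, 0, 0)) = true) :
    monT q ∈ S := by
  obtain ⟨u0, u1, u2, c0, c1, c2, hul, hc0, hc1, hc2, ⟨n01, n02, n12⟩, hrel⟩ := bnd_rel d hd4
  rw [hul] at ht
  unfold bndOK at ht
  rw [Bool.and_eq_true, Bool.and_eq_true, List.all_eq_true] at ht
  obtain ⟨h2, h3, h4⟩ := ht
  have h5 := H.rel _ (hrel h _ h3)
  have h6 : ∀ u' ∈ [u0, u1, u2], [u0, u1, u2].getD i (0, 0, 0, 0) = u' ∨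
      monT (addT (subT q ([u0, u1, u2].getD i (0, 0, 0, 0))) u') ∈ S := by
    intro u' hu'
    have := h4 u' hu'
    rw [Bool.or_eq_true, eqT_iff] at this
    rcases this with h' | h'
    · exact Or.inl h'
    · exact Or.inr (tgt_mem H done hd _ h')
  have h7 := add_sub_T _ _ h2
  interval_cases i
  · have e : [u0, u1, u2].getD 0 (0, 0, 0, 0) = u0 := rfl
    rw [e] at h5 h6 h7
    rw [h7] at h5
    have m1 := (h6 u1 (by simp)).resolve_left n01
    have m2 := (h6 u2 (by simp)).resolve_left n02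
    have h8 := S.sub_mem (S.sub_mem h5 (S.smul_mem c2 m2)) (S.smul_mem c1 m1)
    apply mem_of_smul_mem S hc0
    convert h8 using 1
    abel
  · have e : [u0, u1, u2].getD 1 (0, 0, 0, 0) = u1 := rfl
    rw [e] at h5 h6 h7
    rw [h7] at h5
    have m1 := (h6 u0 (by simp)).resolve_left n01.symm
    have m2 := (h6 u2 (by simp)).resolve_left n12
    have h8 := S.sub_mem (S.sub_mem h5 (S.smul_mem c2 m2)) (S.smul_mem c0 m1)
    apply mem_of_smul_mem S hc1
    convert h8 using 1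
    abel
  · have e : [u0, u1, u2].getD 2 (0, 0, 0, 0) = u2 := rfl
    rw [e] at h5 h6 h7
    rw [h7] at h5
    have m1 := (h6 u0 (by simp)).resolve_left n02.symm
    have m2 := (h6 u1 (by simp)).resolve_left n12.symm
    have h8 := S.sub_mem (S.sub_mem h5 (S.smul_mem c1 m2)) (S.smul_mem c0 m1)
    apply mem_of_smul_mem S hc2
    convert h8 using 1
    abel

lemma getD_mem_vl (i : ℕ) (hi : i < 5) : vl.getD i (0, 0, 0, 0) ∈ vl := by
  interval_cases i <;> decide

lemma entOK_mem {S : Submodule ℂ (PS 2)} {h : ℕ} (H : LevelHyp S h) (done : List T4)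
    (hd : ∀ q ∈ done, monT q ∈ S) (q : T4) (hq : hK q = h) (c : ℕ)
    (ht : entOK Bl h done q c = true) : monT q ∈ S := by
  unfold entOK at ht
  cases h0 : Nat.beq c 0 with
  | true =>
    rw [h0, cond_true, List.any_eq_true] at ht
    obtain ⟨q', hq', he⟩ := ht
    rw [eqT_iff] at he
    subst he
    exact H.basis q hq' hq
  | false =>
    rw [h0, cond_false] at ht
    cases h1 : Nat.ble c 25 with
    | true =>
      rw [h1, cond_true] at ht
      have hc : c ≤ 25 := Nat.le_of_ble_eq_true h1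
      have hc0 : c ≠ 0 := by
        intro h'; rw [h'] at h0; cases h0
      refine torOK_mem H done hd q _ _ (getD_mem_vl _ ?_) (getD_mem_vl _ ?_) ht
      · show (c - 1) / 5 < 5
        omega
      · show (c - 1) % 5 < 5
        omega
    | false =>
      rw [h1, cond_false, Bool.and_eq_true] at ht
      have hc : c ≤ 37 := Nat.le_of_ble_eq_true ht.1
      exact bndOK_mem H done hd q ((c - 26) / 3) ((c - 26) % 3) (by omega) (by omega) ht.2

lemma lvlOK_mem {S : Submodule ℂ (PS 2)} {h : ℕ} (H : LevelHyp S h) (es : List ℕ) :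
    ∀ done : List T4, (∀ q ∈ done, monT q ∈ S) → lvlOK Bl h es done = true →
      ∀ e ∈ es, monT (decT e) ∈ S := by
  induction es with
  | nil => intro done _ _ e he; simp at he
  | cons e es ih =>
    intro done hd ht e' he'
    unfold lvlOK at ht
    rw [Bool.and_eq_true, Bool.and_eq_true, Nat.beq_eq] at ht
    obtain ⟨h1, h2, h3⟩ := ht
    have h4 := entOK_mem H done hd _ h1 _ h2
    rw [List.mem_cons] at he'
    rcases he' with rfl | he'
    · exact h4
    · refine ih (decT e :: done) ?_ h3 e' he'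
      intro q hq
      rw [List.mem_cons] at hq
      rcases hq with rfl | hq
      · exact h4
      · exact hd q hq

lemma allOK_getD (tb : List (List ℕ)) : ∀ (h k : ℕ), allOK Bl tb h = true →
    lvlOK Bl (h + k) (tb.getD k []) [] = true := by
  induction tb with
  | nil => intro h k _; simp [lvlOK]
  | cons l ls ih =>
    intro h k ht
    unfold allOK at ht
    rw [Bool.and_eq_true] at ht
    cases k with
    | zero => exact ht.1
    | succ k =>
      have := ih _ k ht.2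
      rw [List.getD_cons_succ]
      have e : h + (k + 1) = Nat.add h 1 + k := by
        show h + (k + 1) = h + 1 + k
        ring
      rw [e]; exact this

/-- **Soundness of the certificate**: under the hypotheses at level `h < 204`, all monomials of
order `h` lie in `S`. -/
theorem level_mem {S : Submodule ℂ (PS 2)} {h : ℕ} (hh : h < 204) (H : LevelHyp S h) (q : T4)
    (hq : hK q = h) : monT q ∈ S := by
  obtain ⟨a, b, c, d⟩ := q
  have hb : a < 21 ∧ b < 21 ∧ c < 21 ∧ d < 21 := by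
    have := hK_eq a b c d
    unfold hN at this
    omega
  have h1 := allN_spec _ _ (allN_spec _ _ compl_ok a hb.1) b hb.2.1
  simp only [Bool.or_eq_true, Nat.ble_eq] at h1
  have m1 : hK (a, b, 0, 0) ≤ hK (a, b, c, d) := by
    rw [hK_eq, hK_eq]; unfold hN; omega
  have m2 : hK (a, b, c, 0) ≤ hK (a, b, c, d) := by
    rw [hK_eq, hK_eq]; unfold hN; omega
  rcases h1 with h1 | h1
  · omega
  have h2 := allN_spec _ _ h1 c hb.2.2.1
  simp only [Bool.or_eq_true, Nat.ble_eq] at h2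
  rcases h2 with h2 | h2
  · omega
  have h3 := allN_spec _ _ h2 d hb.2.2.2
  simp only [Bool.or_eq_true, Nat.ble_eq] at h3
  rcases h3 with h3 | h3 | h3
  · omega
  · exact up_mem H _ hq h3
  · rw [List.any_eq_true] at h3
    obtain ⟨e, he, h4⟩ := h3
    rw [eqT_iff] at h4
    rw [h4]
    rw [hq] at he
    have h5 := allOK_getD tbl 0 h tbl_ok
    rw [zero_add] at h5
    exact lvlOK_mem H _ [] (by simp) h5 e he

end NF

end Run7.h935
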