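import Pool.Agent.Run7.h935.Spec

/-!
# The formal Brieskorn lattice of a hypersurface singularity

For a function `f` in `m + 2` variables (so at least two variables) we work in the formal power
series ring `PS m = ℂ⟦x_0, …, x_{m+1}⟧`.

* A top degree form `ω dx_0 ∧ … ∧ dx_{m+1}` is represented by its coefficient `ω : PS m`.
* A form `η` of degree one less is represented by the tuple `g : VF m` with
  `η = ∑ g_i ι_{∂_i} (dx_0 ∧ … ∧ dx_{m+1})`.  Then `dη` has coefficient `∑ ∂_i g_i = dvg g` and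
  `df ∧ η` has coefficient `∑ (∂_i f) g_i = dfw f g`.
* A form of degree two less is represented by an antisymmetric matrix `ξ`, and its exterior
  derivative is represented by the tuple `(∑_j ∂_j ξ_{ij})_i` (up to sign).
-/

namespace Run7.h935

open MvPowerSeries

/-- Formal power series over `ℂ` in `m + 2` variables. -/
abbrev PS (m : ℕ) : Type := MvPowerSeries (Fin (m + 2)) ℂ

/-- Tuples of power series, representing forms of degree `m + 1`. -/
abbrev VF (m : ℕ) : Type := Fin (m + 2) → PS m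

/-- The formal Brieskorn lattice `H''_0 = Ω^{m+2} / df ∧ dΩ^m`. -/
abbrev Brieskorn {m : ℕ} (f : MvPowerSeries (Fin (m + 2)) ℂ) : Type :=
  MvPowerSeries (Fin (m + 2)) ℂ ⧸ brieskornRel f

/-- The partial derivative `∂_i` as a linear map. -/
noncomputable def dd {m : ℕ} (i : Fin (m + 2)) : PS m →ₗ[ℂ] PS m :=
  ((MvPowerSeries.pderiv ℂ i : Derivation ℂ (PS m) (PS m)) : PS m →ₗ[ℂ] PS m)

lemma dd_apply {m : ℕ} (i : Fin (m + 2)) (g : PS m) : dd i g = MvPowerSeries.pderiv ℂ i g := rfl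

/-- The divergence `g ↦ ∑ ∂_i g_i`, representing the exterior derivative of a form of degree
`m + 1`. -/
noncomputable def dvg {m : ℕ} : VF m →ₗ[ℂ] PS m := ∑ i, dd i ∘ₗ LinearMap.proj i

/-- The map `g ↦ ∑ (∂_i f) g_i`, representing `η ↦ df ∧ η`. -/
noncomputable def dfw {m : ℕ} (f : PS m) : VF m →ₗ[ℂ] PS m :=
  ∑ i, LinearMap.mulLeft ℂ (dd i f) ∘ₗ LinearMap.proj i

lemma dvg_apply {m : ℕ} (g : VF m) : dvg g = ∑ i, dd i (g i) := by
  simp [dvg]

lemma dfw_apply {m : ℕ} (f : PS m) (g : VF m) : dfw f g = ∑ i, dd i f * g i := by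
  simp [dfw]

/-- `g` is the tuple of the exterior derivative of the form with matrix `ξ`. -/
def IsDerivOf {m : ℕ} (ξ : Fin (m + 2) → Fin (m + 2) → PS m) (g : VF m) : Prop :=
  (∀ i j, ξ i j = - ξ j i) ∧ ∀ i, g i = ∑ j, dd j (ξ i j)

lemma IsDerivOf.add {m : ℕ} {ξ ξ' : Fin (m + 2) → Fin (m + 2) → PS m} {g g' : VF m}
    (h : IsDerivOf ξ g) (h' : IsDerivOf ξ' g') :
    IsDerivOf (fun i j => ξ i j + ξ' i j) (g + g') := by
  obtain ⟨h1, h2⟩ := h
  obtain ⟨h1', h2'⟩ := h'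
  refine ⟨fun i j => ?_, fun i => ?_⟩
  · show ξ i j + ξ' i j = -(ξ j i + ξ' j i)
    rw [h1 i j, h1' i j]; ring
  · simp only [Pi.add_apply, h2 i, h2' i, map_add, Finset.sum_add_distrib]

lemma IsDerivOf.smul {m : ℕ} {ξ : Fin (m + 2) → Fin (m + 2) → PS m} {g : VF m} (c : ℂ)
    (h : IsDerivOf ξ g) : IsDerivOf (fun i j => c • ξ i j) (c • g) := by
  obtain ⟨h1, h2⟩ := h
  refine ⟨fun i j => ?_, fun i => ?_⟩
  · show c • ξ i j = -(c • ξ j i)
    rw [h1 i j]; simp
  · simp only [Pi.smul_apply, h2 i, map_smul, Finset.smul_sum]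

lemma IsDerivOf.zero {m : ℕ} : IsDerivOf (fun _ _ => 0) (0 : VF m) := ⟨by simp, by simp⟩

/-- The exact forms of degree `m + 1`: tuples `(∑_j ∂_j ξ_{ij})_i` with `ξ` antisymmetric. -/
def exactVF (m : ℕ) : Submodule ℂ (VF m) where
  carrier := {g | ∃ ξ, IsDerivOf ξ g}
  add_mem' := fun ⟨_, h⟩ ⟨_, h'⟩ => ⟨_, h.add h'⟩
  zero_mem' := ⟨_, IsDerivOf.zero⟩
  smul_mem' := fun c _ ⟨_, h⟩ => ⟨_, h.smul c⟩

lemma brieskornRel_eq {m : ℕ} (f : PS m) : brieskornRel f = (exactVF m).map (dfw f) := by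
  apply le_antisymm
  · unfold brieskornRel
    rw [Submodule.span_le]
    rintro ω ⟨ξ, h1, rfl⟩
    refine ⟨fun i => ∑ j, dd j (ξ i j), ⟨ξ, h1, fun i => rfl⟩, ?_⟩
    rw [dfw_apply]
    rfl
  · rintro _ ⟨g, ⟨ξ, h1, h2⟩, rfl⟩
    apply Submodule.subset_span
    refine ⟨ξ, h1, ?_⟩
    rw [dfw_apply]
    refine Finset.sum_congr rfl fun i _ => ?_
    rw [h2 i]
    rfl

/-! ### Coefficient formulas -/

lemma coeff_dd {m : ℕ} (i : Fin (m + 2)) (g : PS m) (n : Fin (m + 2) →₀ ℕ) :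
    coeff n (dd i g) = coeff (n + Finsupp.single i 1) g * (n i + 1) := by
  rw [dd_apply, MvPowerSeries.coeff_pderiv]

lemma dd_mul {m : ℕ} (i : Fin (m + 2)) (a b : PS m) :
    dd i (a * b) = a * dd i b + b * dd i a := by
  rw [dd_apply, dd_apply, dd_apply, Derivation.leibniz, smul_eq_mul, smul_eq_mul]

lemma dd_X {m : ℕ} (i j : Fin (m + 2)) :
    dd i (X j : PS m) = if i = j then 1 else 0 := by
  rw [dd_apply]
  split_ifs with h
  · subst h; exact MvPowerSeries.pderiv_X_self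
  · exact MvPowerSeries.pderiv_X_of_ne (fun h' => h h'.symm)

lemma dd_comm {m : ℕ} (i j : Fin (m + 2)) (g : PS m) : dd i (dd j g) = dd j (dd i g) := by
  ext n
  simp only [coeff_dd]
  rw [add_right_comm]
  by_cases h : i = j
  · subst h; rfl
  · have h1 : (Finsupp.single i 1 : Fin (m + 2) →₀ ℕ) j = 0 := Finsupp.single_eq_of_ne (Ne.symm h)
    have h2 : (Finsupp.single j 1 : Fin (m + 2) →₀ ℕ) i = 0 := Finsupp.single_eq_of_ne h
    simp only [Finsupp.add_apply, h1, h2, add_zero]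
    ring

lemma coeff_X_mul {m : ℕ} (j : Fin (m + 2)) (h : PS m) (n : Fin (m + 2) →₀ ℕ) :
    coeff n (X j * h) = if n j = 0 then 0 else coeff (n - Finsupp.single j 1) h := by
  classical
  rw [X_def, MvPowerSeries.coeff_monomial_mul]
  by_cases h0 : n j = 0
  · rw [if_neg, if_pos h0]
    intro hle
    have := hle j
    simp [h0] at this
  · rw [if_pos, if_neg h0, one_mul]
    rw [Finsupp.single_le_iff]
    omega

lemma coeff_X_mul_dd {m : ℕ} (j : Fin (m + 2)) (h : PS m) (n : Fin (m + 2) →₀ ℕ) :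
    coeff n (X j * dd j h) = (n j : ℂ) * coeff n h := by
  rw [coeff_X_mul]
  split_ifs with h0
  · simp [h0]
  · rw [coeff_dd]
    have h1 : n - Finsupp.single j 1 + Finsupp.single j 1 = n := by
      apply tsub_add_cancel_of_le
      rw [Finsupp.single_le_iff]; omega
    rw [h1, mul_comm]
    congr 1
    have : (n - Finsupp.single j 1 : Fin (m + 2) →₀ ℕ) j + 1 = n j := by
      simp only [Finsupp.coe_tsub, Pi.sub_apply, Finsupp.single_eq_same]; omega
    exact_mod_cast this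

/-! ### The formal Poincare lemma -/

/-- rescaling of the homogeneous components by `1 / (m + 1 + degree)` -/
noncomputable def resc {m : ℕ} (g : PS m) : PS m :=
  fun n => ((m : ℂ) + 1 + ∑ i, (n i : ℂ))⁻¹ * coeff n g

lemma coeff_resc {m : ℕ} (g : PS m) (n : Fin (m + 2) →₀ ℕ) :
    coeff n (resc g) = ((m : ℂ) + 1 + ∑ i, (n i : ℂ))⁻¹ * coeff n g := rfl

lemma sum_dd_resc {m : ℕ} (g : VF m) (hg : dvg g = 0) : ∑ j, dd j (resc (g j)) = 0 := by
  ext n
  rw [map_sum]
  have h1 : ∀ j, coeff n (dd j (resc (g j)))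
      = ((m : ℂ) + 1 + ((∑ i, (n i : ℂ)) + 1))⁻¹ * coeff n (dd j (g j)) := by
    intro j
    rw [coeff_dd, coeff_dd, coeff_resc, mul_assoc]
    congr 3
    simp only [Finsupp.add_apply, Nat.cast_add, Finset.sum_add_distrib]
    congr 1
    rw [Finset.sum_eq_single j]
    · simp
    · intro b _ hb
      rw [Finsupp.single_eq_of_ne hb]; simp
    · simp
  simp only [h1]
  rw [← Finset.mul_sum, ← map_sum, ← dvg_apply, hg]
  simp

/-- **Formal Poincare lemma**: a closed form of degree `m + 1` is exact. -/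
theorem mem_exactVF_of_dvg_eq_zero {m : ℕ} (g : VF m) (hg : dvg g = 0) : g ∈ exactVF m := by
  refine ⟨fun i j => X j * resc (g i) - X i * resc (g j), fun i j => by ring, fun i => ?_⟩
  have h1 : ∀ j, dd j (X j * resc (g i) - X i * resc (g j))
      = X j * dd j (resc (g i)) + resc (g i) - (X i * dd j (resc (g j))
        + (if j = i then resc (g j) else 0)) := by
    intro j
    rw [map_sub, dd_mul, dd_mul, dd_X, dd_X]
    simp
  simp only [h1]
  rw [Finset.sum_sub_distrib, Finset.sum_add_distrib, Finset.sum_add_distrib,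
    ← Finset.mul_sum, sum_dd_resc g hg, mul_zero, zero_add]
  simp only [Finset.sum_ite_eq', Finset.mem_univ, if_true, Finset.sum_const, Finset.card_univ,
    Fintype.card_fin]
  ext n
  rw [map_sub, map_add, map_sum, map_nsmul, coeff_resc]
  simp only [coeff_X_mul_dd]
  rw [← Finset.sum_mul, coeff_resc]
  have hne : ((m : ℂ) + 1 + ∑ i, (n i : ℂ)) ≠ 0 := by
    have : ((m + 1 + ∑ i, n i : ℕ) : ℂ) ≠ 0 := Nat.cast_ne_zero.mpr (by omega)
    intro h; apply this; push_cast; exact h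
  rw [nsmul_eq_mul]
  push_cast
  field_simp
  ring

theorem dvg_eq_zero_of_mem_exactVF {m : ℕ} (g : VF m) (hg : g ∈ exactVF m) : dvg g = 0 := by
  obtain ⟨ξ, h1, h2⟩ := hg
  rw [dvg_apply]
  have h3 : ∀ i, dd i (g i) = ∑ j, dd i (dd j (ξ i j)) := by
    intro i; rw [h2 i, map_sum]
  simp only [h3]
  have h4 : ∑ i, ∑ j, dd i (dd j (ξ i j)) = - ∑ i, ∑ j, dd i (dd j (ξ i j)) := by
    conv_lhs => rw [Finset.sum_comm]
    rw [← Finset.sum_neg_distrib]
    refine Finset.sum_congr rfl fun i _ => ?_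
    rw [← Finset.sum_neg_distrib]
    refine Finset.sum_congr rfl fun j _ => ?_
    rw [h1 j i, map_neg, map_neg, dd_comm]
  have h5 : (2 : ℂ) • ∑ i, ∑ j, dd i (dd j (ξ i j)) = 0 := by
    rw [two_smul]; nth_rewrite 2 [h4]; simp
  simpa using h5

theorem mem_exactVF_iff {m : ℕ} (g : VF m) : g ∈ exactVF m ↔ dvg g = 0 :=
  ⟨dvg_eq_zero_of_mem_exactVF g, mem_exactVF_of_dvg_eq_zero g⟩

lemma mem_brieskornRel_iff {m : ℕ} (f ω : PS m) :
    ω ∈ brieskornRel f ↔ ∃ g : VF m, dvg g = 0 ∧ dfw f g = ω := by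
  simp only [brieskornRel_eq, Submodule.mem_map, mem_exactVF_iff]

/-! ### The operators `t` and `s = ∂_t⁻¹` on the Brieskorn lattice -/

lemma dvg_smul_mul {m : ℕ} (f : PS m) (g : VF m) :
    dvg (fun i => f * g i) = f * dvg g + dfw f g := by
  rw [dvg_apply, dvg_apply, dfw_apply, Finset.mul_sum, ← Finset.sum_add_distrib]
  refine Finset.sum_congr rfl fun i _ => ?_
  rw [dd_mul]; ring

lemma dfw_smul_mul {m : ℕ} (f a : PS m) (g : VF m) :
    dfw f (fun i => a * g i) = a * dfw f g := by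
  rw [dfw_apply, dfw_apply, Finset.mul_sum]
  refine Finset.sum_congr rfl fun i _ => ?_
  ring

lemma dfw_antisymm {m : ℕ} (f : PS m) (A : Fin (m + 2) → Fin (m + 2) → PS m)
    (hA : ∀ i j, A i j = - A j i) : dfw f (fun i => ∑ j, dd j f * A i j) = 0 := by
  rw [dfw_apply]
  have h3 : ∀ i, dd i f * ∑ j, dd j f * A i j = ∑ j, dd i f * (dd j f * A i j) := by
    intro i; rw [Finset.mul_sum]
  simp only [h3]
  have h4 : ∑ i, ∑ j, dd i f * (dd j f * A i j) = - ∑ i, ∑ j, dd i f * (dd j f * A i j) := by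
    conv_lhs => rw [Finset.sum_comm]
    rw [← Finset.sum_neg_distrib]
    refine Finset.sum_congr rfl fun i _ => ?_
    rw [← Finset.sum_neg_distrib]
    refine Finset.sum_congr rfl fun j _ => ?_
    rw [hA j i]; ring
  have h5 : (2 : ℂ) • ∑ i, ∑ j, dd i f * (dd j f * A i j) = 0 := by
    rw [two_smul]; nth_rewrite 2 [h4]; simp
  simpa using h5

lemma mul_mem_brieskornRel {m : ℕ} (f ω : PS m) (h : ω ∈ brieskornRel f) :
    f * ω ∈ brieskornRel f := by
  rw [brieskornRel_eq] at h ⊢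
  obtain ⟨g, ⟨ξ, h1, h2⟩, rfl⟩ := h
  refine ⟨fun i => ∑ j, dd j (f * ξ i j), ⟨fun i j => f * ξ i j, fun i j => ?_, fun i => rfl⟩, ?_⟩
  · show f * ξ i j = -(f * ξ j i)
    rw [h1 i j]; ring
  · have h3 : (fun i => ∑ j, dd j (f * ξ i j))
        = (fun i => f * g i) + (fun i => ∑ j, dd j f * ξ i j) := by
      funext i
      simp only [Pi.add_apply, h2 i, Finset.mul_sum, ← Finset.sum_add_distrib]
      refine Finset.sum_congr rfl fun j _ => ?_
      rw [dd_mul]; ring
    rw [h3, map_add, dfw_smul_mul, dfw_antisymm f ξ h1, add_zero]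

/-- The operator `t` on the Brieskorn lattice: multiplication by `f`. -/
noncomputable def tOp {m : ℕ} (f : PS m) : Brieskorn f →ₗ[ℂ] Brieskorn f :=
  (brieskornRel f).mapQ (brieskornRel f) (LinearMap.mulLeft ℂ f)
    (fun ω h => mul_mem_brieskornRel f ω h)

lemma tOp_mk {m : ℕ} (f ω : PS m) :
    tOp f ((brieskornRel f).mkQ ω) = (brieskornRel f).mkQ (f * ω) := rfl

/-- Formal integration in the variable `x_i`, as a function. -/
noncomputable def integFun {m : ℕ} (i : Fin (m + 2)) (g : PS m) : PS m :=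
  fun n => if n i = 0 then 0 else (n i : ℂ)⁻¹ * coeff (n - Finsupp.single i 1) g

lemma coeff_integFun {m : ℕ} (i : Fin (m + 2)) (g : PS m) (n : Fin (m + 2) →₀ ℕ) :
    coeff n (integFun i g)
      = if n i = 0 then 0 else (n i : ℂ)⁻¹ * coeff (n - Finsupp.single i 1) g := rfl

lemma integFun_add {m : ℕ} (i : Fin (m + 2)) (a b : PS m) :
    integFun i (a + b) = integFun i a + integFun i b := by
  ext n
  rw [map_add, coeff_integFun, coeff_integFun, coeff_integFun]
  split_ifs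
  · simp
  · rw [map_add, mul_add]

lemma integFun_smul {m : ℕ} (i : Fin (m + 2)) (c : ℂ) (a : PS m) :
    integFun i (c • a) = c • integFun i a := by
  ext n
  rw [coeff_smul, coeff_integFun, coeff_integFun]
  split_ifs
  · simp
  · rw [coeff_smul]; ring

/-- Formal integration in the variable `x_i`. -/
noncomputable def integ {m : ℕ} (i : Fin (m + 2)) : PS m →ₗ[ℂ] PS m where
  toFun := integFun i
  map_add' := integFun_add i
  map_smul' := integFun_smul i

lemma coeff_integ {m : ℕ} (i : Fin (m + 2)) (g : PS m) (n : Fin (m + 2) →₀ ℕ) :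
    coeff n (integ i g)
      = if n i = 0 then 0 else (n i : ℂ)⁻¹ * coeff (n - Finsupp.single i 1) g := rfl

lemma dd_integ {m : ℕ} (i : Fin (m + 2)) (g : PS m) : dd i (integ i g) = g := by
  ext n
  rw [coeff_dd, coeff_integ, if_neg (by simp)]
  rw [add_tsub_cancel_right]
  simp only [Finsupp.add_apply, Finsupp.single_eq_same]
  push_cast
  have : ((n i : ℂ) + 1) ≠ 0 := by exact_mod_cast Nat.succ_ne_zero (n i)
  field_simp

/-- A form `η` with `dη = ω`. -/
noncomputable def prim {m : ℕ} : PS m →ₗ[ℂ] VF m := LinearMap.single ℂ _ 0 ∘ₗ integ 0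

lemma dvg_prim {m : ℕ} (ω : PS m) : dvg (prim ω) = ω := by
  rw [dvg_apply, Finset.sum_eq_single 0]
  · simp [prim, dd_integ]
  · intro j _ hj
    simp [prim, hj]
  · simp

lemma dfw_prim_mem {m : ℕ} (f ω : PS m) (h : ω ∈ brieskornRel f) :
    dfw f (prim ω) ∈ brieskornRel f := by
  obtain ⟨g, hg, hω⟩ := (mem_brieskornRel_iff f ω).1 h
  have h1 : dvg (prim ω - fun i => f * g i) = 0 := by
    rw [map_sub, dvg_prim, dvg_smul_mul, hg, hω]; simp
  have h2 : dfw f (prim ω - fun i => f * g i) ∈ brieskornRel f :=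
    (mem_brieskornRel_iff f _).2 ⟨_, h1, rfl⟩
  rw [map_sub, dfw_smul_mul, hω] at h2
  have h3 := (brieskornRel f).add_mem h2 (mul_mem_brieskornRel f ω h)
  simpa using h3

/-- The operator `s = ∂_t⁻¹` on the Brieskorn lattice, `∂_t⁻¹ [dη] = [df ∧ η]`
(see `sOp_mk_dvg`). -/
noncomputable def sOp {m : ℕ} (f : PS m) : Brieskorn f →ₗ[ℂ] Brieskorn f :=
  (brieskornRel f).mapQ (brieskornRel f) (dfw f ∘ₗ prim)
    (fun ω h => dfw_prim_mem f ω h)

/-- `∂_t⁻¹ [dη] = [df ∧ η]`. -/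
theorem sOp_mk_dvg {m : ℕ} (f : PS m) (g : VF m) :
    sOp f ((brieskornRel f).mkQ (dvg g)) = (brieskornRel f).mkQ (dfw f g) := by
  show (brieskornRel f).mkQ (dfw f (prim (dvg g))) = (brieskornRel f).mkQ (dfw f g)
  rw [← sub_eq_zero, ← map_sub, ← map_sub]
  rw [Submodule.mkQ_apply, Submodule.Quotient.mk_eq_zero, mem_brieskornRel_iff]
  exact ⟨_, by rw [map_sub, dvg_prim, sub_self], rfl⟩

lemma isTOp_tOp {m : ℕ} (f : PS m) : IsTOp f (tOp f) := fun _ => rfl

lemma isSOp_sOp {m : ℕ} (f : PS m) : IsSOp f (sOp f) := by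
  intro g
  have h := sOp_mk_dvg f g
  rw [dvg_apply, dfw_apply] at h
  exact h

lemma IsTOp.eq {m : ℕ} {f : PS m} {t : Brieskorn f →ₗ[ℂ] Brieskorn f} (h : IsTOp f t) :
    t = tOp f := by
  apply Submodule.linearMap_qext
  ext1 ω
  exact h ω

lemma IsSOp.eq {m : ℕ} {f : PS m} {s : Brieskorn f →ₗ[ℂ] Brieskorn f} (h : IsSOp f s) :
    s = sOp f := by
  apply Submodule.linearMap_qext
  ext1 ω
  have h1 := h (prim ω)
  have h2 := isSOp_sOp f (prim ω)
  have h3 : ∑ i, MvPowerSeries.pderiv ℂ i (prim ω i) = ω := by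
    have := dvg_prim ω
    rw [dvg_apply] at this
    exact this
  rw [h3] at h1 h2
  exact h1.trans h2.symm

end Run7.h935
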