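import Pool.Agent.Run7.h935.NF

/-!
# The singularity `x³y + xy³ + z⁴w + zw⁴ + xyzw` is isolated
-/

namespace Run7.h935

open scoped Topology

namespace NF

/-- The polynomial `x³y + xy³ + z⁴w + zw⁴ + xyzw`. -/
noncomputable def fP : MvPolynomial (Fin (2 + 2)) ℂ :=
  MvPolynomial.X 0 ^ 3 * MvPolynomial.X 1 + MvPolynomial.X 0 * MvPolynomial.X 1 ^ 3
    + MvPolynomial.X 2 ^ 4 * MvPolynomial.X 3 + MvPolynomial.X 2 * MvPolynomial.X 3 ^ 4
    + MvPolynomial.X 0 * MvPolynomial.X 1 * MvPolynomial.X 2 * MvPolynomial.X 3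

lemma coe_fP : ((fP : MvPolynomial (Fin (2 + 2)) ℂ) : PS 2) = fS := by
  unfold fP fS
  simp only [MvPolynomial.coe_add, MvPolynomial.coe_mul, MvPolynomial.coe_pow,
    MvPolynomial.coe_X]

lemma eval_pd0 (z : Fin (2 + 2) → ℂ) : MvPolynomial.eval z (MvPolynomial.pderiv 0 fP)
    = 3 * z 0 ^ 2 * z 1 + z 1 ^ 3 + z 1 * z 2 * z 3 := by
  simp [fP, MvPolynomial.pderiv_X]
  ring

lemma eval_pd1 (z : Fin (2 + 2) → ℂ) : MvPolynomial.eval z (MvPolynomial.pderiv 1 fP)
    = z 0 ^ 3 + 3 * z 0 * z 1 ^ 2 + z 0 * z 2 * z 3 := by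
  simp [fP, MvPolynomial.pderiv_X]
  ring

lemma eval_pd2 (z : Fin (2 + 2) → ℂ) : MvPolynomial.eval z (MvPolynomial.pderiv 2 fP)
    = 4 * z 2 ^ 3 * z 3 + z 3 ^ 4 + z 0 * z 1 * z 3 := by
  simp [fP, MvPolynomial.pderiv_X]
  ring

lemma eval_pd3 (z : Fin (2 + 2) → ℂ) : MvPolynomial.eval z (MvPolynomial.pderiv 3 fP)
    = z 2 ^ 4 + 4 * z 2 * z 3 ^ 3 + z 0 * z 1 * z 2 := by
  simp [fP, MvPolynomial.pderiv_X]
  ring

lemma crit_zero (x y z w : ℂ) (hn : ‖z * w‖ < 1 / 400)
    (h0 : 3 * x ^ 2 * y + y ^ 3 + y * z * w = 0)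
    (h1 : x ^ 3 + 3 * x * y ^ 2 + x * z * w = 0)
    (h2 : 4 * z ^ 3 * w + w ^ 4 + x * y * w = 0)
    (h3 : z ^ 4 + 4 * z * w ^ 3 + x * y * z = 0) : x = 0 ∧ y = 0 ∧ z = 0 ∧ w = 0 := by
  have a1 : 4 * (x ^ 3 * y) = - (x * y * (z * w)) := by
    linear_combination (3 / 2 : ℂ) * x * h0 - (1 / 2 : ℂ) * y * h1
  have a2 : 4 * (x * y ^ 3) = - (x * y * (z * w)) := by
    linear_combination (3 / 2 : ℂ) * y * h1 - (1 / 2 : ℂ) * x * h0
  have b1 : 5 * (z ^ 4 * w) = - (x * y * (z * w)) := by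
    linear_combination (4 / 3 : ℂ) * z * h2 - (1 / 3 : ℂ) * w * h3
  have b2 : 5 * (z * w ^ 4) = - (x * y * (z * w)) := by
    linear_combination (4 / 3 : ℂ) * w * h3 - (1 / 3 : ℂ) * z * h2
  have hp : (x * y) * (z * w) = 0 := by
    by_contra hne
    have hu : x * y ≠ 0 := left_ne_zero_of_mul hne
    have hv : z * w ≠ 0 := right_ne_zero_of_mul hne
    have c1 : 16 * (x * y) ^ 2 = (z * w) ^ 2 := by
      have : (x * y) ^ 2 * (16 * (x * y) ^ 2 - (z * w) ^ 2) = 0 := by
        linear_combination (4 * (x * y ^ 3)) * a1 - (x * y * (z * w)) * a2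
      have := (mul_eq_zero.1 this).resolve_left (pow_ne_zero 2 hu)
      linear_combination this
    have c2 : 25 * (z * w) ^ 3 = (x * y) ^ 2 := by
      have : (z * w) ^ 2 * (25 * (z * w) ^ 3 - (x * y) ^ 2) = 0 := by
        linear_combination (5 * (z * w ^ 4)) * b1 - (x * y * (z * w)) * b2
      have := (mul_eq_zero.1 this).resolve_left (pow_ne_zero 2 hv)
      linear_combination this
    have c3 : z * w = 1 / 400 := by
      have : (z * w) ^ 2 * (400 * (z * w) - 1) = 0 := by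
        linear_combination 16 * c2 + c1
      have := (mul_eq_zero.1 this).resolve_left (pow_ne_zero 2 hv)
      linear_combination (1 / 400 : ℂ) * this
    rw [c3] at hn
    norm_num at hn
  have hzw : z * w = 0 := by
    rw [hp, neg_zero] at b1
    rcases mul_eq_zero.1 b1 with h | h
    · norm_num at h
    · rcases mul_eq_zero.1 h with h | h
      · rw [pow_eq_zero_iff (by norm_num)] at h
        rw [h, zero_mul]
      · rw [h, mul_zero]
  have hxy : x = 0 ∧ y = 0 := by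
    rw [hp, neg_zero] at a1
    rcases mul_eq_zero.1 a1 with h | h
    · norm_num at h
    · rcases mul_eq_zero.1 h with h | h
      · rw [pow_eq_zero_iff (by norm_num)] at h
        refine ⟨h, ?_⟩
        have : y ^ 3 = 0 := by
          rw [h] at h0
          linear_combination h0 - y * hzw
        rwa [pow_eq_zero_iff (by norm_num)] at this
      · refine ⟨?_, h⟩
        have : x ^ 3 = 0 := by
          rw [h] at h1
          linear_combination h1 - x * hzw
        rwa [pow_eq_zero_iff (by norm_num)] at this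
  obtain ⟨hx, hy⟩ := hxy
  rw [hx] at h2 h3
  refine ⟨hx, hy, ?_, ?_⟩
  · have : z ^ 4 = 0 := by linear_combination h3 - 4 * w ^ 2 * hzw
    rwa [pow_eq_zero_iff (by norm_num)] at this
  · have : w ^ 4 = 0 := by linear_combination h2 - 4 * z ^ 2 * hzw
    rwa [pow_eq_zero_iff (by norm_num)] at this

/-- The origin is an isolated critical point of `f`. -/
theorem isolated_fP : IsIsolatedSingularity fP := by
  refine ⟨?_, ?_, ?_⟩
  · simp [fP]
  · funext i
    fin_cases i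
    · show MvPolynomial.eval 0 (MvPolynomial.pderiv 0 fP) = 0
      rw [eval_pd0]; simp
    · show MvPolynomial.eval 0 (MvPolynomial.pderiv 1 fP) = 0
      rw [eval_pd1]; simp
    · show MvPolynomial.eval 0 (MvPolynomial.pderiv 2 fP) = 0
      rw [eval_pd2]; simp
    · show MvPolynomial.eval 0 (MvPolynomial.pderiv 3 fP) = 0
      rw [eval_pd3]; simp
  · have hc : Continuous fun z : Fin (2 + 2) → ℂ => ‖z 2 * z 3‖ := by fun_prop
    have h1 : ∀ᶠ z in 𝓝 (0 : Fin (2 + 2) → ℂ), ‖z 2 * z 3‖ < 1 / 400 := by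
      have := hc.tendsto (0 : Fin (2 + 2) → ℂ)
      have h2 : ‖(0 : Fin (2 + 2) → ℂ) 2 * (0 : Fin (2 + 2) → ℂ) 3‖ < 1 / 400 := by simp
      exact this.eventually_lt_const h2
    filter_upwards [h1] with z hz hcrit
    have h0 : MvPolynomial.eval z (MvPolynomial.pderiv 0 fP) = 0 := congrFun hcrit 0
    have h1 : MvPolynomial.eval z (MvPolynomial.pderiv 1 fP) = 0 := congrFun hcrit 1
    have h2 : MvPolynomial.eval z (MvPolynomial.pderiv 2 fP) = 0 := congrFun hcrit 2
    have h3 : MvPolynomial.eval z (MvPolynomial.pderiv 3 fP) = 0 := congrFun hcrit 3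
    rw [eval_pd0] at h0
    rw [eval_pd1] at h1
    rw [eval_pd2] at h2
    rw [eval_pd3] at h3
    obtain ⟨hx, hy, hzz, hw⟩ := crit_zero (z 0) (z 1) (z 2) (z 3) hz h0 h1 h2 h3
    funext i
    fin_cases i
    · exact hx
    · exact hy
    · exact hzz
    · exact hw

end NF

end Run7.h935
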