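import Pool.Agent.Run7.h935.Bern

/-!
# The second Bernoulli moment
-/

namespace Run7.h935

lemma coeff_zero_logSer : PowerSeries.coeff 0 logSer = 0 := by simp [logSer]
lemma coeff_one_logSer : PowerSeries.coeff 1 logSer = 0 := by simp [logSer]
lemma coeff_two_logSer : PowerSeries.coeff 2 logSer = -1 / 24 := by
  simp [logSer, bernoulli_two]; norm_num

lemma hasSubst_logSer (ν : ℚ) : PowerSeries.HasSubst (ν • logSer) := by
  apply PowerSeries.HasSubst.of_constantCoeff_zero'
  rw [← PowerSeries.coeff_zero_eq_constantCoeff_apply, map_smul, coeff_zero_logSer, smul_zero]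

lemma X_sq_dvd (ν : ℚ) : (PowerSeries.X : PowerSeries ℚ) ^ 2 ∣ ν • logSer := by
  rw [PowerSeries.X_pow_dvd_iff]
  intro k hk
  interval_cases k
  · simp [coeff_zero_logSer]
  · simp [coeff_one_logSer]

lemma coeff_pow_logSer (ν : ℚ) (e d : ℕ) (h : e < 2 * d) :
    PowerSeries.coeff e ((ν • logSer) ^ d) = 0 := by
  have h1 : (PowerSeries.X : PowerSeries ℚ) ^ (2 * d) ∣ (ν • logSer) ^ d := by
    rw [pow_mul]; exact pow_dvd_pow_of_dvd (X_sq_dvd ν) d
  exact (PowerSeries.X_pow_dvd_iff.1 h1) e h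

lemma coeff_expSer (ν : ℚ) (e : ℕ) (he : e ≤ 3) :
    PowerSeries.coeff e ((PowerSeries.exp ℚ).subst (ν • logSer))
      = PowerSeries.coeff e (1 : PowerSeries ℚ) + ν * PowerSeries.coeff e logSer := by
  rw [PowerSeries.coeff_subst' (hasSubst_logSer ν)]
  rw [finsum_eq_sum_of_support_subset (s := {0, 1})]
  · rw [Finset.sum_pair (by norm_num)]
    simp [PowerSeries.coeff_exp]
  · intro d hd
    simp only [Finset.coe_insert, Finset.coe_singleton, Set.mem_insert_iff, Set.mem_singleton_iff]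
    by_contra hcon
    apply hd
    show PowerSeries.coeff d (PowerSeries.exp ℚ) • PowerSeries.coeff e ((ν • logSer) ^ d) = 0
    rw [coeff_pow_logSer ν e d (by omega), smul_zero]

/-- `Γ_2 = V_2 - n ν / 12`. -/
theorem bernoulliMoment_two {n : ℕ} (α : Fin n → ℚ) (ν : ℚ) :
    bernoulliMoment α ν 2 = ∑ j, α j ^ 2 - n * ν / 12 := by
  unfold bernoulliMoment
  rw [PowerSeries.coeff_mul]
  have h2 : (Finset.HasAntidiagonal.antidiagonal 2 : Finset (ℕ × ℕ)) = {(0, 2), (1, 1), (2, 0)} := by
    decide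
  rw [h2, Finset.sum_insert (by decide), Finset.sum_insert (by decide), Finset.sum_singleton]
  simp only [coeff_expSer ν 2 (by norm_num), coeff_expSer ν 1 (by norm_num),
    coeff_expSer ν 0 (by norm_num), coeff_zero_logSer, coeff_one_logSer, coeff_two_logSer,
    map_sum, PowerSeries.coeff_rescale, PowerSeries.coeff_exp, PowerSeries.coeff_one]
  simp only [pow_zero, pow_one, Nat.factorial]
  norm_num
  rw [← Finset.sum_mul]
  ring

end Run7.h935
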