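import Pool.Agent.Run7.h935.Defs

/-!
# Uniqueness of the V-filtration on the Brieskorn lattice
-/

namespace Run7.h935

open MvPowerSeries

variable {m : ℕ} {f : PS m}

/-- `[∂_t, t] = 1` in the form `t s - s t = s²`. -/
theorem tOp_sOp (x : Brieskorn f) : tOp f (sOp f x) = sOp f (tOp f x) + sOp f (sOp f x) := by
  obtain ⟨ω, rfl⟩ := (brieskornRel f).mkQ_surjective x
  have h1 : ω = dvg (prim ω) := (dvg_prim ω).symm
  generalize prim ω = g at h1
  subst h1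
  rw [sOp_mk_dvg, tOp_mk, tOp_mk]
  have h2 : f * dvg g = dvg (fun i => f * g i) - dfw f g := by
    rw [dvg_smul_mul]; ring
  rw [h2, map_sub, map_sub, sOp_mk_dvg, dfw_smul_mul]
  abel

lemma spow_succ (k : ℕ) (x : Brieskorn f) : (sOp f ^ (k + 1)) x = sOp f ((sOp f ^ k) x) := by
  rw [pow_succ', Module.End.mul_apply]

lemma spow_succ' (k : ℕ) (x : Brieskorn f) : (sOp f ^ (k + 1)) x = (sOp f ^ k) (sOp f x) := by
  rw [pow_succ, Module.End.mul_apply]

lemma tOp_sOp_pow (k : ℕ) (x : Brieskorn f) :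
    tOp f ((sOp f ^ k) x) = (sOp f ^ k) (tOp f x) + (k : ℂ) • (sOp f ^ (k + 1)) x := by
  induction k generalizing x with
  | zero => simp
  | succ k ih =>
    rw [spow_succ, tOp_sOp, ih, spow_succ k (tOp f x), spow_succ (k + 1) x, map_add, map_smul,
      spow_succ k x]
    push_cast
    rw [add_smul, one_smul, add_assoc]

lemma shift_comm (β : ℚ) (k : ℕ) (x : Brieskorn f) :
    (tOp f - ((β + k : ℚ) : ℂ) • sOp f) ((sOp f ^ k) x)
      = (sOp f ^ k) ((tOp f - (β : ℂ) • sOp f) x) := by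
  simp only [LinearMap.sub_apply, LinearMap.smul_apply, map_sub, map_smul]
  rw [tOp_sOp_pow, ← spow_succ, ← spow_succ']
  push_cast
  rw [add_smul]
  abel

namespace IsVFiltration

variable {V V' : ℚ → Submodule ℂ (Brieskorn f)}

lemma s_mem (h : IsVFiltration (tOp f) (sOp f) V) {α : ℚ} {x : Brieskorn f} (hx : x ∈ V α) :
    sOp f x ∈ V (α + 1) := (h.s_mem_iff α x).2 hx

lemma s_pow_mem_iff (h : IsVFiltration (tOp f) (sOp f) V) (k : ℕ) {α : ℚ} {x : Brieskorn f} :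
    (sOp f ^ k) x ∈ V (α + k) ↔ x ∈ V α := by
  induction k generalizing α x with
  | zero => simp
  | succ k ih =>
    rw [pow_succ', Module.End.mul_apply]
    have : α + ((k + 1 : ℕ) : ℚ) = (α + k) + 1 := by push_cast; ring
    rw [this, h.s_mem_iff, ih]

lemma op_mem (h : IsVFiltration (tOp f) (sOp f) V) {α : ℚ} (c : ℂ) {x : Brieskorn f} (hx : x ∈ V α) :
    (tOp f - c • sOp f) x ∈ V (α + 1) := by
  simp only [LinearMap.sub_apply, LinearMap.smul_apply]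
  exact (V (α + 1)).sub_mem (h.t_mem α x hx) ((V (α + 1)).smul_mem c (h.s_mem hx))

/-- if `β` is a multiple of `1/N` then `V^{>β} ⊆ V^{β + 1/N}` -/
lemma VGt_le {N : ℕ} (hN : 0 < N)
    (hd : ∀ α : ℚ, V α = V ((⌈(N : ℚ) * α⌉ : ℚ) / N)) (h : IsVFiltration (tOp f) (sOp f) V) (j : ℤ) :
    VGt V ((j : ℚ) / N) ≤ V (((j + 1 : ℤ) : ℚ) / N) := by
  have hN' : (0 : ℚ) < N := by exact_mod_cast hN
  unfold VGt
  refine iSup_le fun β => iSup_le fun hβ => ?_
  rw [hd β]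
  apply h.antitone
  rw [div_le_div_iff_of_pos_right hN']
  have h1 : (j : ℚ) < N * β := by
    rw [div_lt_iff₀ hN'] at hβ; linarith [mul_comm β (N : ℚ)]
  have h2 : j < ⌈(N : ℚ) * β⌉ := Int.lt_ceil.2 h1
  exact_mod_cast h2

/-- the main step: `t - δ s` is injective on `Gr^β` for `δ ≠ β` -/
lemma op_notMem {N : ℕ} (hN : 0 < N)
    (hd : ∀ α : ℚ, V α = V ((⌈(N : ℚ) * α⌉ : ℚ) / N)) (h : IsVFiltration (tOp f) (sOp f) V) (j : ℤ)
    {y : Brieskorn f} (hy' : y ∉ V (((j + 1 : ℤ) : ℚ) / N))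
    {δ : ℚ} (hδ : δ ≠ (j : ℚ) / N) (hy : y ∈ V ((j : ℚ) / N)) :
    (tOp f - (δ : ℂ) • sOp f) y ∉ V (((j + 1 : ℤ) : ℚ) / N + 1) := by
  intro hcon
  apply hy'
  set β : ℚ := (j : ℚ) / N with hβ
  set β' : ℚ := ((j + 1 : ℤ) : ℚ) / N with hβ'
  -- the key claim
  have key : ∀ k : ℕ, shiftProd (tOp f) (sOp f) β k y - (((δ - β : ℚ) : ℂ) ^ k) • (sOp f ^ k) y ∈ V (β' + k) := by
    intro k
    induction k with
    | zero => simp [shiftProd]
    | succ k ih =>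
      set e := shiftProd (tOp f) (sOp f) β k y - (((δ - β : ℚ) : ℂ) ^ k) • (sOp f ^ k) y with he
      have h1 : shiftProd (tOp f) (sOp f) β k y = (((δ - β : ℚ) : ℂ) ^ k) • (sOp f ^ k) y + e := by
        rw [he]; abel
      have h2 : shiftProd (tOp f) (sOp f) β (k + 1) y
          = (tOp f - ((β + k : ℚ) : ℂ) • sOp f) (shiftProd (tOp f) (sOp f) β k y) := rfl
      have h3 : (tOp f - (β : ℂ) • sOp f) y
          = (tOp f - (δ : ℂ) • sOp f) y + ((δ - β : ℚ) : ℂ) • sOp f y := by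
        simp only [LinearMap.sub_apply, LinearMap.smul_apply]
        push_cast
        rw [sub_smul]; abel
      rw [h2, h1, map_add, map_smul, shift_comm, h3, map_add, map_smul]
      have h4 : (sOp f ^ k) (sOp f y) = (sOp f ^ (k + 1)) y := by
        rw [pow_succ, Module.End.mul_apply]
      rw [h4]
      have h5 : ((δ - β : ℚ) : ℂ) ^ k • ((sOp f ^ k) ((tOp f - (δ : ℂ) • sOp f) y) +
          ((δ - β : ℚ) : ℂ) • (sOp f ^ (k + 1)) y) +
          (tOp f - ((β + k : ℚ) : ℂ) • sOp f) e - ((δ - β : ℚ) : ℂ) ^ (k + 1) •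
            (sOp f ^ (k + 1)) y
          = ((δ - β : ℚ) : ℂ) ^ k • ((sOp f ^ k) ((tOp f - (δ : ℂ) • sOp f) y))
            + (tOp f - ((β + k : ℚ) : ℂ) • sOp f) e := by
        generalize (sOp f ^ k) ((tOp f - (δ : ℂ) • sOp f) y) = A
        generalize (sOp f ^ (k + 1)) y = B
        generalize (tOp f - ((β + k : ℚ) : ℂ) • sOp f) e = C
        rw [smul_add, smul_smul, ← pow_succ]; abel
      rw [h5]
      have h6 : β' + ((k + 1 : ℕ) : ℚ) = (β' + 1) + k := by push_cast; ring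
      have h7 : β' + ((k + 1 : ℕ) : ℚ) = (β' + k) + 1 := by push_cast; ring
      refine Submodule.add_mem _ ?_ ?_
      · refine Submodule.smul_mem _ _ ?_
        rw [h6, h.s_pow_mem_iff]
        exact hcon
      · rw [h7]
        exact h.op_mem _ ih
  obtain ⟨k, hk⟩ := h.nilpotent β
  have h1 := hk y hy
  -- V^{>β + k} ≤ V (β' + k)
  have h2 : VGt V (β + k) ≤ V (β' + k) := by
    have e1 : β + (k : ℚ) = ((j + k * N : ℤ) : ℚ) / N := by
      rw [hβ]; push_cast; field_simp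
    have e2 : β' + (k : ℚ) = (((j + k * N) + 1 : ℤ) : ℚ) / N := by
      rw [hβ']; push_cast; field_simp; ring
    rw [e1, e2]
    exact VGt_le hN hd h _
  have h3 := Submodule.sub_mem _ (h2 h1) (key k)
  rw [sub_sub_cancel] at h3
  have hne : (((δ - β : ℚ) : ℂ) ^ k) ≠ 0 := by
    apply pow_ne_zero
    exact_mod_cast sub_ne_zero.2 hδ
  rw [Submodule.smul_mem_iff _ hne, h.s_pow_mem_iff] at h3
  exact h3

lemma shiftProd_notMem {N : ℕ} (hN : 0 < N)
    (hd : ∀ α : ℚ, V α = V ((⌈(N : ℚ) * α⌉ : ℚ) / N)) (h : IsVFiltration (tOp f) (sOp f) V) (j : ℤ)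
    {y : Brieskorn f} (hy : y ∈ V ((j : ℚ) / N)) (hy' : y ∉ V (((j + 1 : ℤ) : ℚ) / N))
    {δ : ℚ} (hδ : (j : ℚ) / N < δ) (k : ℕ) :
    shiftProd (tOp f) (sOp f) δ k y ∈ V (((j + k * N : ℤ) : ℚ) / N) ∧
      shiftProd (tOp f) (sOp f) δ k y ∉ V (((j + k * N + 1 : ℤ) : ℚ) / N) := by
  induction k with
  | zero => simpa [shiftProd] using ⟨hy, by simpa using hy'⟩
  | succ k ih =>
    have hN' : (0 : ℚ) < N := by exact_mod_cast hN
    have h2 : shiftProd (tOp f) (sOp f) δ (k + 1) y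
          = (tOp f - ((δ + k : ℚ) : ℂ) • sOp f) (shiftProd (tOp f) (sOp f) δ k y) := rfl
    have e1 : (((j + (k + 1 : ℕ) * N : ℤ) : ℚ) / N) = ((j + k * N : ℤ) : ℚ) / N + 1 := by
      push_cast; field_simp; ring
    have e2 : (((j + (k + 1 : ℕ) * N + 1 : ℤ) : ℚ) / N)
        = (((j + k * N) + 1 : ℤ) : ℚ) / N + 1 := by
      push_cast; field_simp; ring
    rw [h2, e1, e2]
    refine ⟨h.op_mem _ ih.1, ?_⟩
    apply op_notMem hN hd h _ ih.2 _ ih.1
    have e3 : (((j + k * N : ℤ) : ℚ) / N) = (j : ℚ) / N + k := by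
      push_cast; field_simp
    rw [e3]
    intro hcon
    linarith

lemma mem_range_pow (h : IsVFiltration (tOp f) (sOp f) V) {β : ℚ} (hβ : V β ≤ LinearMap.range (sOp f))
    (K : ℕ) {y : Brieskorn f} (hy : y ∈ V (β + K)) : ∃ z ∈ V β, y = (sOp f ^ K) z := by
  induction K generalizing y with
  | zero => exact ⟨y, by simpa using hy, by simp⟩
  | succ K ih =>
    have e : β + ((K + 1 : ℕ) : ℚ) = (β + K) + 1 := by push_cast; ring
    rw [e] at hy
    have h1 : y ∈ LinearMap.range (sOp f) := by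
      apply hβ
      exact h.antitone _ _ (by linarith [(Nat.cast_nonneg K : (0 : ℚ) ≤ K)]) hy
    obtain ⟨y', rfl⟩ := h1
    rw [h.s_mem_iff] at hy
    obtain ⟨z, hz, rfl⟩ := ih hy
    exact ⟨z, hz, by rw [pow_succ', Module.End.mul_apply]⟩

lemma le_of (h : IsVFiltration (tOp f) (sOp f) V) (h' : IsVFiltration (tOp f) (sOp f) V') (α : ℚ) : V α ≤ V' α := by
  obtain ⟨N, hN, hd⟩ := h.discrete
  obtain ⟨N', hN', hd'⟩ := h'.discrete
  have hNq : (0 : ℚ) < N := by exact_mod_cast hN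
  have hNq' : (0 : ℚ) < N' := by exact_mod_cast hN'
  intro x hx
  by_contra hx'
  -- the largest level `j/N'` with `x ∈ V'`
  obtain ⟨α₀, hα₀⟩ := h'.exhaustive
  have hbdd : ∃ b : ℤ, ∀ z : ℤ, x ∈ V' ((z : ℚ) / N') → z ≤ b := by
    refine ⟨⌈(N' : ℚ) * α⌉, fun z hz => ?_⟩
    by_contra hlt
    push Not at hlt
    apply hx'
    refine h'.antitone _ _ ?_ hz
    rw [le_div_iff₀ hNq']
    have h1 : (N' : ℚ) * α ≤ (⌈(N' : ℚ) * α⌉ : ℚ) := Int.le_ceil _
    have h2 : ((⌈(N' : ℚ) * α⌉ : ℤ) : ℚ) < (z : ℚ) := by exact_mod_cast hlt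
    linarith [mul_comm α (N' : ℚ)]
  have hex : ∃ z : ℤ, x ∈ V' ((z : ℚ) / N') := by
    refine ⟨⌊(N' : ℚ) * α₀⌋, ?_⟩
    have h1 : ((⌊(N' : ℚ) * α₀⌋ : ℤ) : ℚ) / N' ≤ α₀ := by
      rw [div_le_iff₀ hNq']
      have := Int.floor_le ((N' : ℚ) * α₀)
      linarith [mul_comm α₀ (N' : ℚ)]
    have h2 := h'.antitone _ _ h1
    rw [hα₀] at h2
    exact h2 trivial
  obtain ⟨j, hj, hjmax⟩ := Int.exists_greatest_of_bdd hbdd hex
  have hj' : x ∉ V' (((j + 1 : ℤ) : ℚ) / N') := fun hc => by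
    have := hjmax _ hc; omega
  have hjα : (j : ℚ) / N' < α := by
    by_contra hc
    push Not at hc
    exact hx' (h'.antitone _ _ hc hj)
  -- iterate
  have iter : ∀ r : ℕ, ∃ (K : ℕ) (y : Brieskorn f),
      y ∈ V (((⌈(N : ℚ) * α⌉ + r : ℤ) : ℚ) / N + K) ∧
      y ∈ V' (((j + K * N' : ℤ) : ℚ) / N') ∧ y ∉ V' (((j + K * N' + 1 : ℤ) : ℚ) / N') := by
    intro r
    induction r with
    | zero =>
      refine ⟨0, x, ?_, by simpa using hj, by simpa using hj'⟩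
      rw [hd α] at hx
      simpa using hx
    | succ r ih =>
      obtain ⟨K, y, hy1, hy2, hy3⟩ := ih
      obtain ⟨k, hk⟩ := h.nilpotent (((⌈(N : ℚ) * α⌉ + r : ℤ) : ℚ) / N + K)
      have h1 := hk y hy1
      have e1 : ((⌈(N : ℚ) * α⌉ + r : ℤ) : ℚ) / N + (K : ℚ) + (k : ℚ)
          = ((⌈(N : ℚ) * α⌉ + r + (K + k) * N : ℤ) : ℚ) / N := by
        push_cast; field_simp; ring
      rw [e1] at h1
      have h2 := VGt_le hN hd h _ h1
      have e2 : ((⌈(N : ℚ) * α⌉ + r + (K + k) * N + 1 : ℤ) : ℚ) / N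
          = ((⌈(N : ℚ) * α⌉ + (r + 1 : ℕ) : ℤ) : ℚ) / N + ((K + k : ℕ) : ℚ) := by
        push_cast; field_simp; ring
      rw [e2] at h2
      have hδ : ((j + K * N' : ℤ) : ℚ) / N' < ((⌈(N : ℚ) * α⌉ + r : ℤ) : ℚ) / N + (K : ℚ) := by
        have e3 : ((j + K * N' : ℤ) : ℚ) / N' = (j : ℚ) / N' + K := by
          push_cast; field_simp
        rw [e3]
        have e4 : α ≤ ((⌈(N : ℚ) * α⌉ + r : ℤ) : ℚ) / N := by
          rw [le_div_iff₀ hNq]
          have := Int.le_ceil ((N : ℚ) * α)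
          push_cast
          have hr : (0 : ℚ) ≤ (r : ℚ) := Nat.cast_nonneg r
          linarith [mul_comm α (N : ℚ)]
        linarith
      have h3 := shiftProd_notMem hN' hd' h' _ hy2 hy3 hδ k
      refine ⟨K + k, _, h2, ?_, ?_⟩
      · have e5 : (j + ((K + k : ℕ) : ℤ) * N' : ℤ) = (j + K * N' + k * N' : ℤ) := by
          push_cast; ring
        rw [e5]; exact h3.1
      · have e5 : (j + ((K + k : ℕ) : ℤ) * N' + 1 : ℤ) = (j + K * N' + k * N' + 1 : ℤ) := by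
          push_cast; ring
        rw [e5]; exact h3.2
  -- comparison of the two filtrations for large indices
  obtain ⟨β₁, hβ₁⟩ := h.separated
  obtain ⟨i, hi⟩ : ∃ i : ℕ, ((j : ℚ) + 1) / N' ≤ α₀ + i := by
    obtain ⟨i, hi⟩ := exists_nat_ge (((j : ℚ) + 1) / N' - α₀)
    exact ⟨i, by linarith⟩
  have hcmp : ∀ y ∈ V (β₁ + i), y ∈ V' (((j : ℚ) + 1) / N') := by
    intro y hy
    obtain ⟨z, -, rfl⟩ := h.mem_range_pow hβ₁ i hy
    apply h'.antitone _ _ hi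
    rw [h'.s_pow_mem_iff, hα₀]
    trivial
  obtain ⟨r, hr⟩ : ∃ r : ℕ, β₁ + i ≤ ((⌈(N : ℚ) * α⌉ + r : ℤ) : ℚ) / N := by
    obtain ⟨r, hr⟩ := exists_nat_ge ((β₁ + i) * N - ⌈(N : ℚ) * α⌉)
    refine ⟨r, ?_⟩
    rw [le_div_iff₀ hNq]
    push_cast
    linarith
  obtain ⟨K, y, hy1, -, hy3⟩ := iter r
  apply hy3
  have h1 : y ∈ V (β₁ + i + K) := h.antitone _ _ (by linarith) hy1
  have hβ₂ : V (β₁ + i) ≤ LinearMap.range (sOp f) :=
    le_trans (h.antitone _ _ (by linarith [(Nat.cast_nonneg i : (0 : ℚ) ≤ i)])) hβ₁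
  obtain ⟨z, hz, rfl⟩ := h.mem_range_pow hβ₂ K h1
  have e : ((j + K * N' + 1 : ℤ) : ℚ) / N' = ((j : ℚ) + 1) / N' + K := by
    push_cast; field_simp; ring
  rw [e, h'.s_pow_mem_iff]
  exact hcmp z hz

/-- **The V-filtration on the Brieskorn lattice is unique.** -/
theorem unique (h : IsVFiltration (tOp f) (sOp f) V) (h' : IsVFiltration (tOp f) (sOp f) V') :
    V = V' :=
  funext fun α => le_antisymm (le_of h h' α) (le_of h' h α)

end IsVFiltration

/-- The spectrum is unique. -/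
theorem IsSpectrum.unique {Sp Sp' : Multiset ℚ} (h : IsSpectrum f Sp) (h' : IsSpectrum f Sp') :
    Sp = Sp' := by
  obtain ⟨t, s, V, ht, hs, hV, hc⟩ := h
  obtain ⟨t', s', V', ht', hs', hV', hc'⟩ := h'
  obtain rfl := ht.eq
  obtain rfl := hs.eq
  obtain rfl := ht'.eq
  obtain rfl := hs'.eq
  obtain rfl := hV.unique hV'
  ext α
  rw [hc, hc']

end Run7.h935
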