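import Pool.Agent.Run7.h935.Gr
import Pool.Agent.Run7.h935.Iso
import Pool.Agent.Run7.h935.Uniq
import Pool.Agent.Run7.h935.StDefs

/-!
# The normalized spectrum of `x³y + xy³ + z⁴w + zw⁴ + xyzw` and its moments
-/

namespace Run7.h935

namespace NF

/-- `60` times the spectral numbers -/
def tL : List ℕ := Bl.map fun q => hK q + 60

lemma tL_length : tL.length = 132 := by decide +kernel

lemma tL_sum : tL.sum = 15840 := by decide +kernel

lemma tL_sq : (tL.map fun t => t * t).sum = 1980020 := by decide +kernel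

lemma tL_min : tL.all (fun t => Nat.ble 60 t) = true := by decide +kernel

lemma tL_max : tL.all (fun t => Nat.ble t 180) = true := by decide +kernel

lemma tL_mem : 60 ∈ tL ∧ 180 ∈ tL := by decide +kernel

/-- the spectrum of `f` -/
def Sp0 : Multiset ℚ := ((tL.map fun t : ℕ => (t : ℚ) / 60 : List ℚ) : Multiset ℚ)

lemma Sp0_eq : Sp0 = BF.val.map fun q => ((hK q + 60 : ℕ) : ℚ) / 60 := by
  have h : BF.val = (Bl : Multiset T4) := by
    unfold BF
    rw [List.toFinset_val, List.Nodup.dedup Bl_nodup]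
  rw [h, Multiset.map_coe]
  unfold Sp0 tL
  rw [List.map_map]
  rfl

theorem isSpectrum_Sp0 : IsSpectrum fS Sp0 := by
  rw [Sp0_eq]; exact isSpectrum_fS

lemma sum_div (L : List ℕ) : (L.map fun t : ℕ => (t : ℚ) / 60).sum = (L.sum : ℚ) / 60 := by
  induction L with
  | nil => simp
  | cons a L ih =>
    rw [List.map_cons, List.sum_cons, List.sum_cons, ih]
    push_cast; ring

lemma sum_sq (L : List ℕ) : (L.map fun t : ℕ => ((t : ℚ) / 60) ^ 2).sum
    = (((L.map fun t : ℕ => t * t).sum : ℕ) : ℚ) / 3600 := by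
  induction L with
  | nil => simp
  | cons a L ih =>
    rw [List.map_cons, List.sum_cons, List.map_cons, List.sum_cons, ih]
    push_cast; ring

lemma Sp0_card : Multiset.card Sp0 = 132 := by
  unfold Sp0
  rw [Multiset.coe_card, List.length_map, tL_length]

lemma Sp0_sum : Sp0.sum = 264 := by
  unfold Sp0
  rw [Multiset.sum_coe, sum_div, tL_sum]
  norm_num

lemma Sp0_sq : (Sp0.map fun x => x ^ 2).sum = 1980020 / 3600 := by
  unfold Sp0
  rw [Multiset.map_coe, Multiset.sum_coe, List.map_map]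
  have h : (tL.map ((fun x : ℚ => x ^ 2) ∘ fun t : ℕ => (t : ℚ) / 60))
      = tL.map fun t : ℕ => ((t : ℚ) / 60) ^ 2 := rfl
  rw [h, sum_sq, tL_sq]
  norm_num

lemma Sp0_min (x : ℚ) (hx : x ∈ Sp0) : 1 ≤ x ∧ x ≤ 3 := by
  unfold Sp0 at hx
  rw [Multiset.mem_coe, List.mem_map] at hx
  obtain ⟨t, ht, rfl⟩ := hx
  have h1 := tL_min
  have h2 := tL_max
  rw [List.all_eq_true] at h1 h2
  have h3 : 60 ≤ t := Nat.le_of_ble_eq_true (h1 t ht)
  have h4 : t ≤ 180 := Nat.le_of_ble_eq_true (h2 t ht)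
  have h5 : (60 : ℚ) ≤ t := by exact_mod_cast h3
  have h6 : (t : ℚ) ≤ 180 := by exact_mod_cast h4
  constructor <;> linarith

lemma one_mem_Sp0 : (1 : ℚ) ∈ Sp0 := by
  unfold Sp0
  rw [Multiset.mem_coe, List.mem_map]
  exact ⟨60, tL_mem.1, by norm_num⟩

lemma three_mem_Sp0 : (3 : ℚ) ∈ Sp0 := by
  unfold Sp0
  rw [Multiset.mem_coe, List.mem_map]
  exact ⟨180, tL_mem.2, by norm_num⟩

/-- **Invariants of the normalized spectrum of `f`.** -/
theorem normalized_values {n : ℕ} (α : Fin (n + 1) → ℚ) (h : IsNormalizedSpectrum fS α) :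
    n + 1 = 132 ∧ α (Fin.last n) - α 0 = 2 ∧ ∑ j, α j ^ 2 = 3961 / 180 := by
  obtain ⟨hmono, hsymm, c, hc⟩ := h
  have hM := hc.unique isSpectrum_Sp0
  have hn : n + 1 = 132 := by
    have h1 := congrArg Multiset.card hM
    rw [Sp0_card, Multiset.card_map] at h1
    simpa using h1
  have hsum0 : ∑ j, α j = 0 := by
    have h1 : ∑ j, α (Fin.rev j) = ∑ j, α j :=
      Fintype.sum_equiv Fin.revPerm _ _ (fun j => rfl)
    have h2 : ∑ j, (α j + α (Fin.rev j)) = 0 := Finset.sum_eq_zero fun j _ => hsymm j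
    rw [Finset.sum_add_distrib, h1] at h2
    linarith
  have hsum1 : ∑ j, (α j + c) = 264 := by
    rw [← Sp0_sum, ← hM]; rfl
  have hc2 : c = 2 := by
    rw [Finset.sum_add_distrib, hsum0, Finset.sum_const, Finset.card_univ, Fintype.card_fin,
      hn, nsmul_eq_mul] at hsum1
    push_cast at hsum1
    linarith
  have hsq : ∑ j, (α j + c) ^ 2 = 1980020 / 3600 := by
    rw [← Sp0_sq, ← hM, Multiset.map_map]; rfl
  refine ⟨hn, ?_, ?_⟩
  · have hmem : ∀ j, α j + c ∈ Sp0 := by
      intro j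
      rw [← hM]
      exact Multiset.mem_map_of_mem _ (Finset.mem_univ j)
    have h1 := one_mem_Sp0
    have h3 := three_mem_Sp0
    rw [← hM, Multiset.mem_map] at h1 h3
    obtain ⟨j1, -, hj1⟩ := h1
    obtain ⟨j3, -, hj3⟩ := h3
    have e1 := hmono _ _ (Fin.zero_le j1)
    have e3 := hmono _ _ (Fin.le_last j3)
    have e0 := (Sp0_min _ (hmem 0)).1
    have e4 := (Sp0_min _ (hmem (Fin.last n))).2
    linarith
  · have h1 : ∑ j, (α j + c) ^ 2 = ∑ j, α j ^ 2 + 2 * c * ∑ j, α j + (n + 1) * c ^ 2 := by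
      have h2 : ∀ j, (α j + c) ^ 2 = α j ^ 2 + 2 * c * α j + c ^ 2 := fun j => by ring
      rw [Finset.sum_congr rfl fun j _ => h2 j, Finset.sum_add_distrib, Finset.sum_add_distrib,
        ← Finset.mul_sum, Finset.sum_const, Finset.card_univ, Fintype.card_fin, nsmul_eq_mul]
      push_cast; ring
    have hn' : (n : ℚ) + 1 = 132 := by exact_mod_cast hn
    rw [hsq, hsum0, hn', hc2] at h1
    linarith

/-- `60` times the normalized spectral numbers, plus `60` -/
def sF (j : Fin (131 + 1)) : ℕ := tL.getD j.val 0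

lemma ofFn_sF : List.ofFn sF = tL := by decide +kernel

lemma tL_pairwise : tL.Pairwise (· ≤ ·) := by decide +kernel

/-- the normalized spectrum -/
def alF (j : Fin (131 + 1)) : ℚ := (sF j : ℚ) / 60 - 2

lemma sF_rev : ∀ j : Fin (131 + 1), sF j + sF (Fin.rev j) = 240 := by decide +kernel

theorem isNormalizedSpectrum_alF : IsNormalizedSpectrum fS alF := by
  refine ⟨?_, ?_, 2, ?_⟩
  · have h := tL_pairwise
    rw [← ofFn_sF, List.pairwise_ofFn] at h
    intro i j hij
    rcases hij.eq_or_lt with rfl | hlt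
    · exact le_rfl
    · have h1 : (sF i : ℚ) ≤ sF j := by exact_mod_cast h hlt
      unfold alF
      linarith
  · intro j
    have h1 : (sF j : ℚ) + sF (Fin.rev j) = 240 := by exact_mod_cast sF_rev j
    unfold alF
    linarith
  · have h1 : (Finset.univ.val.map fun j => alF j + 2) = Sp0 := by
      have h2 : (fun j => alF j + 2) = (fun t : ℕ => (t : ℚ) / 60) ∘ sF := by
        funext j
        show alF j + 2 = (sF j : ℚ) / 60
        unfold alF; ring
      rw [h2, Fin.univ_val_map, ← List.map_ofFn, ofFn_sF]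
      rfl
    rw [h1]
    exact isSpectrum_Sp0

/-- `Γ_2 > 0` for the normalized spectrum of `f`. -/
theorem bernoulli_pos {n : ℕ} (α : Fin (n + 1) → ℚ) (h : IsNormalizedSpectrum fS α) :
    bernoulliMoment α (α (Fin.last n) - α 0) 2 = 1 / 180 := by
  obtain ⟨h1, h2, h3⟩ := normalized_values α h
  rw [bernoulliMoment_two, h2, h3, h1]
  norm_num

end NF

end Run7.h935
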