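import Pool.Agent.Run7.h935.Indep2

/-!
# The spectrum of `x³y + xy³ + z⁴w + zw⁴ + xyzw`
-/

namespace Run7.h935

open MvPowerSeries

/-- dimension of a graded piece -/
theorem finrank_gr {M : Type*} [AddCommGroup M] [Module ℂ M] (R1 R2 : Submodule ℂ M)
    {ι : Type*} [Fintype ι] (v : ι → M) (h1 : ∀ i, v i ∈ R1)
    (h2 : R1 ≤ R2 ⊔ Submodule.span ℂ (Set.range v))
    (h3 : ∀ c : ι → ℂ, ∑ i, c i • v i ∈ R2 → c = 0) :
    Module.finrank ℂ (↥R1 ⧸ Submodule.comap R1.subtype R2) = Fintype.card ι := by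
  set F : (ι → ℂ) →ₗ[ℂ] (↥R1 ⧸ Submodule.comap R1.subtype R2) :=
    (Submodule.comap R1.subtype R2).mkQ ∘ₗ
      Fintype.linearCombination ℂ (fun i => (⟨v i, h1 i⟩ : ↥R1)) with hF
  have hval : ∀ c : ι → ℂ, ((Fintype.linearCombination ℂ (fun i => (⟨v i, h1 i⟩ : ↥R1)) c : ↥R1) : M)
      = ∑ i, c i • v i := by
    intro c
    rw [Fintype.linearCombination_apply, Submodule.coe_sum]
    rfl
  have hinj : Function.Injective F := by
    rw [← LinearMap.ker_eq_bot, eq_bot_iff]
    intro c hc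
    rw [LinearMap.mem_ker, hF, LinearMap.comp_apply, Submodule.mkQ_apply,
      Submodule.Quotient.mk_eq_zero, Submodule.mem_comap, Submodule.subtype_apply, hval] at hc
    rw [Submodule.mem_bot]
    exact h3 c hc
  have hsurj : Function.Surjective F := by
    intro y
    obtain ⟨x, rfl⟩ := (Submodule.comap R1.subtype R2).mkQ_surjective y
    have hx := h2 x.2
    rw [Submodule.mem_sup] at hx
    obtain ⟨r, hr, z, hz, hrz⟩ := hx
    rw [Submodule.mem_span_range_iff_exists_fun] at hz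
    obtain ⟨c, rfl⟩ := hz
    refine ⟨c, ?_⟩
    rw [hF, LinearMap.comp_apply, ← sub_eq_zero, ← map_sub, Submodule.mkQ_apply,
      Submodule.Quotient.mk_eq_zero, Submodule.mem_comap, Submodule.subtype_apply,
      Submodule.coe_sub, hval, ← hrz]
    have : ∑ i, c i • v i - (r + ∑ i, c i • v i) = -r := by abel
    rw [this]
    exact R2.neg_mem hr
  rw [← (LinearEquiv.ofBijective F ⟨hinj, hsurj⟩).finrank_eq, Module.finrank_fintype_fun_eq_card]

namespace NF

lemma brieskornRel_le_JJ : brieskornRel fS ≤ JJ := by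
  intro ω h
  rw [mem_brieskornRel_iff] at h
  obtain ⟨g, _, rfl⟩ := h
  exact ⟨g, rfl⟩

lemma mkQ_mem_range (ω : PS 2) :
    (brieskornRel fS).mkQ ω ∈ LinearMap.range (sOp fS) ↔ ω ∈ JJ := by
  constructor
  · rintro ⟨y, hy⟩
    obtain ⟨η, rfl⟩ := (brieskornRel fS).mkQ_surjective y
    have h1 := sOp_mk_dvg fS (pj 0 η)
    rw [dvg_pj] at h1
    rw [h1, ← sub_eq_zero, ← map_sub, Submodule.mkQ_apply, Submodule.Quotient.mk_eq_zero] at hy
    have h2 := brieskornRel_le_JJ hy
    have h3 := JJ.sub_mem (⟨pj 0 η, rfl⟩ : dfw fS (pj 0 η) ∈ JJ) h2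
    rwa [sub_sub_cancel] at h3
  · rintro ⟨g, rfl⟩
    exact ⟨(brieskornRel fS).mkQ (dvg g), sOp_mk_dvg fS g⟩

lemma VGt_repr (α : ℚ) (x : Brieskorn fS) (hx : x ∈ VGt Vf α) :
    ∃ η ∈ Q (fun _ => ⌊60 * α⌋ + 1 - 60), (brieskornRel fS).mkQ η = x := by
  have h1 : VGt Vf α ≤ ((Q (fun _ => ⌊60 * α⌋ + 1 - 60)).restrictScalars ℂ).map
      (brieskornRel fS).mkQ := by
    unfold VGt
    rw [iSup₂_le_iff]
    intro β hβ y hy
    rw [mem_Vf] at hy
    obtain ⟨ω, hω, rfl⟩ := hy
    refine ⟨ω, Q_anti (fun _ => ?_) hω, rfl⟩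
    have h2 : ⌊60 * α⌋ < ⌈60 * β⌉ := by
      rw [Int.lt_ceil]
      have := Int.floor_le (60 * α)
      linarith
    omega
  obtain ⟨η, hη, h⟩ := h1 hx
  exact ⟨η, hη, h⟩

lemma monT_mem_Vf (q : T4) (β : ℚ) (h : 60 * β ≤ hK q + 60) :
    (brieskornRel fS).mkQ (monT q) ∈ Vf β := by
  rw [mem_Vf]
  refine ⟨monT q, monT_mem_Q q _ ?_, rfl⟩
  have : ⌈60 * β⌉ ≤ (hK q : ℤ) + 60 := by
    rw [Int.ceil_le]; push_cast; exact h
  omega

/-- basis exponents with spectral number `α` -/
def IS (α : ℚ) : Finset T4 := BF.filter fun q => ((hK q + 60 : ℕ) : ℚ) / 60 = α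

lemma mem_IS (α : ℚ) (q : T4) : q ∈ IS α ↔ q ∈ BF ∧ (hK q : ℚ) + 60 = 60 * α := by
  unfold IS
  rw [Finset.mem_filter]
  push_cast
  constructor
  · rintro ⟨h, h'⟩
    exact ⟨h, by rw [← h']; ring⟩
  · rintro ⟨h, h'⟩
    exact ⟨h, by rw [h']; ring⟩

theorem specMult_Vf (α : ℚ) : specMult (sOp fS) Vf α = (IS α).card := by
  unfold specMult relDim
  rw [← Fintype.card_coe]
  apply finrank_gr _ _ (fun q : ↥(IS α) => (brieskornRel fS).mkQ (monT q.1))
  · rintro ⟨q, hq⟩
    rw [mem_IS] at hq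
    exact Submodule.mem_sup_left (monT_mem_Vf q α (by rw [hq.2]))
  · rw [sup_le_iff]
    constructor
    · intro x hx
      rw [mem_Vf] at hx
      obtain ⟨ω, hω, rfl⟩ := hx
      have h1 := Q_le_RB _ ω hω
      unfold RB at h1
      rw [Submodule.mem_sup] at h1
      obtain ⟨ω1, hω1, ω2, hω2, rfl⟩ := h1
      rw [map_add]
      refine Submodule.add_mem _ ?_ ?_
      · exact Submodule.mem_sup_left (Submodule.mem_sup_right
          ((mkQ_mem_range ω1).2 (DI_le_JJ _ _ hω1)))
      · obtain ⟨c, hc, h3⟩ := SB_repr _ _ hω2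
        rw [h3, map_sum]
        refine Submodule.sum_mem _ fun q hq => ?_
        rw [map_smul]
        by_cases hcq : c q = 0
        · rw [hcq, zero_smul]; exact Submodule.zero_mem _
        refine Submodule.smul_mem _ _ ?_
        have h4 := hc q hcq
        have h5 : (60 * α : ℚ) ≤ (hK q : ℚ) + 60 := by
          have h6 := Int.le_ceil (60 * α)
          have h7 : ((⌈60 * α⌉ : ℤ) : ℚ) ≤ ((hK q + 60 : ℤ) : ℚ) := by
            rw [Int.cast_le]; omega
          push_cast at h7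
          linarith
        rcases h5.eq_or_lt with h6 | h6
        · apply Submodule.mem_sup_right
          apply Submodule.subset_span
          exact ⟨⟨q, (mem_IS α q).2 ⟨hq, h6.symm⟩⟩, rfl⟩
        · refine Submodule.mem_sup_left (Submodule.mem_sup_left ?_)
          refine Vf_le_VGt α (((hK q : ℚ) + 60) / 60) ?_ (monT_mem_Vf q _ ?_)
          · linarith
          · linarith
    · exact le_sup_of_le_left le_sup_right
  · intro c hc
    classical
    set c' : T4 → ℂ := fun q => if h : q ∈ IS α then c ⟨q, h⟩ else 0 with hc'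
    have hc'1 : ∀ q : ↥(IS α), c' q.1 = c q := by
      intro q
      simp only [hc']
      rw [dif_pos q.2]
    have hsum : ∑ i : ↥(IS α), c i • (brieskornRel fS).mkQ (monT i.1)
        = (brieskornRel fS).mkQ (∑ q ∈ BF, c' q • monT q) := by
      rw [map_sum]
      have h1 : ∑ i : ↥(IS α), c i • (brieskornRel fS).mkQ (monT i.1)
          = ∑ i : ↥(IS α), (fun q => c' q • (brieskornRel fS).mkQ (monT q)) i.1 := by
        refine Finset.sum_congr rfl fun i _ => ?_
        show _ = c' i.1 • _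
        rw [hc'1]
      rw [h1, Finset.sum_coe_sort (IS α) (fun q => c' q • (brieskornRel fS).mkQ (monT q))]
      have h2 : ∑ q ∈ IS α, c' q • (brieskornRel fS).mkQ (monT q)
          = ∑ q ∈ BF, c' q • (brieskornRel fS).mkQ (monT q) := by
        apply Finset.sum_subset (Finset.filter_subset _ _)
        intro q _ hq
        have : c' q = 0 := dif_neg hq
        rw [this, zero_smul]
      rw [h2]
      refine Finset.sum_congr rfl fun q _ => ?_
      rw [map_smul]
    rw [hsum, Submodule.mem_sup] at hc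
    obtain ⟨y, hy, z, hz, hyz⟩ := hc
    obtain ⟨η, hη, rfl⟩ := VGt_repr α y hy
    have h1 : (∑ q ∈ BF, c' q • monT q) - η ∈ JJ := by
      rw [← mkQ_mem_range, map_sub, ← hyz, add_sub_cancel_left]
      exact hz
    have h2 := Q_le_RB _ η hη
    unfold RB at h2
    rw [Submodule.mem_sup] at h2
    obtain ⟨ω1, hω1, ω2, hω2, rfl⟩ := h2
    obtain ⟨d, hd, h3⟩ := SB_repr _ _ hω2
    have h4 : ∑ q ∈ BF, (c' q - d q) • monT q ∈ JJ := by
      have h5 := JJ.add_mem h1 (DI_le_JJ _ _ hω1)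
      have h6 : ∑ q ∈ BF, (c' q - d q) • monT q
          = (∑ q ∈ BF, c' q • monT q) - (ω1 + ω2) + ω1 := by
        rw [h3]
        have h7 : ∑ q ∈ BF, (c' q - d q) • monT q
            = ∑ q ∈ BF, c' q • monT q - ∑ q ∈ BF, d q • monT q := by
          rw [← Finset.sum_sub_distrib]
          exact Finset.sum_congr rfl fun q _ => sub_smul _ _ _
        rw [h7]; abel
      rw [h6]; exact h5
    have h5 := indep _ h4
    funext ⟨q, hq⟩
    have h6 := (mem_IS α q).1 hq
    have h7 := h5 q h6.1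
    have h8 : d q = 0 := by
      by_contra hne
      have h9 := hd q hne
      have h10 : ((⌊60 * α⌋ + 1 : ℤ) : ℚ) ≤ ((hK q + 60 : ℤ) : ℚ) := by
        rw [Int.cast_le]; omega
      push_cast at h10
      have h11 := Int.lt_floor_add_one (60 * α)
      linarith
    rw [h8, sub_zero] at h7
    have h9 := hc'1 ⟨q, hq⟩
    show c ⟨q, hq⟩ = 0
    rw [← h9]; exact h7

lemma count_map_val {ι : Type*} (S : Finset ι) (g : ι → ℚ) (α : ℚ) :
    (S.val.map g).count α = (S.filter fun q => g q = α).card := by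
  rw [Multiset.count_map, Finset.card_def, Finset.filter_val]
  congr 1
  apply Multiset.filter_congr
  intro q _
  exact eq_comm

/-- **The spectrum of `f`.** -/
theorem isSpectrum_fS :
    IsSpectrum fS (BF.val.map fun q => ((hK q + 60 : ℕ) : ℚ) / 60) := by
  refine ⟨tOp fS, sOp fS, Vf, isTOp_tOp fS, isSOp_sOp fS, isVFiltration_Vf, fun α => ?_⟩
  rw [specMult_Vf, count_map_val]
  rfl

end NF

end Run7.h935
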