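import Pool.Agent.Run7.h935.IndepData

/-!
# Linear independence of the monomial basis modulo the Jacobian ideal
-/

namespace Run7.h935

open MvPowerSeries

namespace NF

/-- sum of the values attached to `q` in a list -/
def lk (L : List (T4 × ℕ)) (q : T4) : ℕ :=
  L.foldr (fun e s => cond (eqT e.1 q) (Nat.add e.2 s) s) 0

/-- the partial derivatives of `f` -/
def ulc : List (List (T4 × ℕ)) :=
  [[((2, 1, 0, 0), 3), ((0, 3, 0, 0), 1), ((0, 1, 1, 1), 1)],
   [((3, 0, 0, 0), 1), ((1, 2, 0, 0), 3), ((1, 0, 1, 1), 1)],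
   [((0, 0, 3, 1), 4), ((0, 0, 0, 4), 1), ((1, 1, 0, 1), 1)],
   [((0, 0, 4, 0), 1), ((0, 0, 1, 3), 4), ((1, 1, 1, 0), 1)]]

/-- the value of the positive or negative part of the functional on `x^n ∂_d f` -/
def relV (L : List (T4 × ℕ)) (n : T4) (us : List (T4 × ℕ)) : ℕ :=
  us.foldr (fun u s => Nat.add (Nat.mul u.2 (lk L (addT n u.1))) s) 0

/-- the functional kills the Jacobian ideal (check on the exponents of a list) -/
def killOK (L : List (T4 × ℕ)) : Bool :=
  ulc.all fun us => us.all fun u => L.all fun e =>
    !(leT u.1 e.1) || Nat.beq (relV phiLP (subT e.1 u.1) us) (relV phiLN (subT e.1 u.1) us)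

theorem kill_okP : killOK phiLP = true := by decide +kernel

theorem kill_okN : killOK phiLN = true := by decide +kernel

/-- the support is contained in a box -/
def boxOK (L : List (T4 × ℕ)) : Bool :=
  L.all fun e => leT e.1 (12, 12, 12, 12)

theorem box_okP : boxOK phiLP = true := by decide +kernel

theorem box_okN : boxOK phiLN = true := by decide +kernel

/-- the support consists of monomials of order `≤ 120` -/
def ordOK (L : List (T4 × ℕ)) : Bool :=
  L.all fun e => Nat.ble (hK e.1) 120

theorem ord_okP : ordOK phiLP = true := by decide +kernel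

theorem ord_okN : ordOK phiLN = true := by decide +kernel

/-- guarded version of `lk` -/
def gl (L : List (T4 × ℕ)) (q : T4) : ℕ := cond (Nat.blt 120 (hK q)) 0 (lk L q)

/-- positive part of the value of a dual functional on a monomial -/
def psiP (d : List (T4 × (ℕ × ℕ))) (b : T4) : ℕ :=
  d.foldr (fun e s => Nat.add (Nat.add (Nat.mul e.2.1 (gl phiLP (addT e.1 b)))
    (Nat.mul e.2.2 (gl phiLN (addT e.1 b)))) s) 0

/-- negative part of the value of a dual functional on a monomial -/
def psiN (d : List (T4 × (ℕ × ℕ))) (b : T4) : ℕ :=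
  d.foldr (fun e s => Nat.add (Nat.add (Nat.mul e.2.1 (gl phiLN (addT e.1 b)))
    (Nat.mul e.2.2 (gl phiLP (addT e.1 b)))) s) 0

/-- triangularity of the matrix of the dual functionals -/
def triOK : List (T4 × List (T4 × (ℕ × ℕ))) → Bool
  | [] => true
  | e :: rest => !(Nat.beq (psiP e.2 e.1) (psiN e.2 e.1)) &&
      (rest.all (fun e' => Nat.beq (psiP e.2 e'.1) (psiN e.2 e'.1)) && triOK rest)

theorem tri_ok : triOK Bd = true := by decide +kernel

theorem Bd_map : Bd.map Prod.fst = Bl := by decide +kernel

theorem Bl_nodup : Bl.Nodup := by decide +kernel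

end NF

end Run7.h935
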