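import Pool.Agent.Run7.h935.Indep

/-!
# Linear independence of the monomial basis modulo the Jacobian ideal: proof
-/

namespace Run7.h935

open MvPowerSeries

namespace NF

/-- exponent of a tuple -/
noncomputable def qT (q : T4) : E4 := q4 q.1 q.2.1 q.2.2.1 q.2.2.2

lemma qT_inj (p q : T4) (h : qT p = qT q) : p = q := by
  obtain ⟨a, b, c, d⟩ := p
  obtain ⟨a', b', c', d'⟩ := q
  have h0 := DFunLike.congr_fun h 0
  have h1 := DFunLike.congr_fun h 1
  have h2 := DFunLike.congr_fun h 2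
  have h3 := DFunLike.congr_fun h 3
  simp only [qT, q4_zero, q4_one, q4_two, q4_three] at h0 h1 h2 h3
  rw [h0, h1, h2, h3]

lemma coeff_monT (p q : T4) : coeff (qT p) (monT q) = if p = q then 1 else 0 := by
  classical
  have h : monT q = monomial (qT q) 1 := rfl
  rw [h, coeff_monomial]
  by_cases hpq : p = q
  · rw [if_pos hpq, if_pos (by rw [hpq])]
  · rw [if_neg hpq, if_neg (fun h' => hpq (qT_inj _ _ h'))]

/-- functional with a finite table of values -/
noncomputable def PhiL (L : List (T4 × ℕ)) : PS 2 →ₗ[ℂ] ℂ :=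
  (L.map fun e => ((e.2 : ℕ) : ℂ) • (coeff (qT e.1) : PS 2 →ₗ[ℂ] ℂ)).sum

lemma PhiL_cons (e : T4 × ℕ) (L : List (T4 × ℕ)) (ω : PS 2) :
    PhiL (e :: L) ω = (e.2 : ℂ) * coeff (qT e.1) ω + PhiL L ω := by
  unfold PhiL
  rw [List.map_cons, List.sum_cons]
  rfl

lemma lk_cons (e : T4 × ℕ) (L : List (T4 × ℕ)) (q : T4) :
    lk (e :: L) q = if e.1 = q then e.2 + lk L q else lk L q := by
  have h : lk (e :: L) q = cond (eqT e.1 q) (Nat.add e.2 (lk L q)) (lk L q) := rfl
  rw [h]
  by_cases he : e.1 = q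
  · rw [(eqT_iff _ _).2 he, if_pos he]; rfl
  · have : eqT e.1 q = false := by
      rw [Bool.eq_false_iff]
      intro h'
      exact he ((eqT_iff _ _).1 h')
    rw [this, if_neg he]; rfl

lemma PhiL_monT (L : List (T4 × ℕ)) (q : T4) : PhiL L (monT q) = (lk L q : ℂ) := by
  induction L with
  | nil => simp [PhiL, lk]
  | cons e L ih =>
    rw [PhiL_cons, ih, lk_cons, coeff_monT]
    split_ifs with h
    · push_cast; ring
    · ring

lemma PhiL_powIdeal (L : List (T4 × ℕ)) (hL : boxOK L = true) (ω : PS 2)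
    (hω : ω ∈ powIdeal Finset.univ (12 + 1)) : PhiL L ω = 0 := by
  induction L with
  | nil => simp [PhiL]
  | cons e L ih =>
    unfold boxOK at hL
    rw [List.all_cons, Bool.and_eq_true] at hL
    rw [PhiL_cons, ih hL.2]
    have h1 : coeff (qT e.1) ω = 0 := by
      apply hω
      intro i _
      have h2 := hL.1
      obtain ⟨⟨a, b, c, d⟩, v⟩ := e
      simp only [leT, Bool.and_eq_true, Nat.ble_eq] at h2
      obtain ⟨h3, h4, h5, h6⟩ := h2
      fin_cases i
      · exact Nat.lt_succ_of_le h3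
      · exact Nat.lt_succ_of_le h4
      · exact Nat.lt_succ_of_le h5
      · exact Nat.lt_succ_of_le h6
    rw [h1]; ring

lemma lk_eq_zero (L : List (T4 × ℕ)) (q : T4) (h : ∀ e ∈ L, e.1 ≠ q) : lk L q = 0 := by
  induction L with
  | nil => rfl
  | cons e L ih =>
    rw [lk_cons, if_neg (h e (List.mem_cons_self ..))]
    exact ih fun e' he' => h e' (List.mem_cons_of_mem _ he')

/-- The residue functional (times `400`). -/
noncomputable def Phi : PS 2 →ₗ[ℂ] ℂ := PhiL phiLP - PhiL phiLN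

lemma Phi_monT (q : T4) : Phi (monT q) = (lk phiLP q : ℂ) - (lk phiLN q : ℂ) := by
  unfold Phi
  rw [LinearMap.sub_apply, PhiL_monT, PhiL_monT]

lemma relV_cons (L : List (T4 × ℕ)) (n : T4) (u : T4 × ℕ) (us : List (T4 × ℕ)) :
    relV L n (u :: us) = u.2 * lk L (addT n u.1) + relV L n us := rfl

lemma relV_eq_zero (L : List (T4 × ℕ)) (n : T4) (us : List (T4 × ℕ))
    (h : ∀ u ∈ us, ∀ e ∈ L, e.1 ≠ addT n u.1) : relV L n us = 0 := by
  induction us with
  | nil => rfl
  | cons u us ih =>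
    rw [relV_cons, lk_eq_zero _ _ (h u (List.mem_cons_self ..)),
      ih fun u' hu' => h u' (List.mem_cons_of_mem _ hu')]
    ring

lemma sub_addT (n u : T4) : leT u (addT n u) = true ∧ subT (addT n u) u = n := by
  obtain ⟨a, b, c, d⟩ := n
  obtain ⟨a', b', c', d'⟩ := u
  simp only [leT, addT, subT, Bool.and_eq_true, Nat.ble_eq, Nat.add_eq, Nat.sub_eq,
    Prod.mk.injEq]
  omega

lemma rel_of_mem (L : List (T4 × ℕ)) (hL : killOK L = true) (us : List (T4 × ℕ)) (hus : us ∈ ulc)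
    (n : T4) (u : T4 × ℕ) (hu : u ∈ us) (e : T4 × ℕ) (he : e ∈ L) (h : e.1 = addT n u.1) :
    relV phiLP n us = relV phiLN n us := by
  unfold killOK at hL
  rw [List.all_eq_true] at hL
  have h1 := hL us hus
  rw [List.all_eq_true] at h1
  have h2 := h1 u hu
  rw [List.all_eq_true] at h2
  have h3 := h2 e he
  rw [h, (sub_addT n u.1).1, (sub_addT n u.1).2] at h3
  simpa using h3

lemma rel_all (us : List (T4 × ℕ)) (hus : us ∈ ulc) (n : T4) :
    relV phiLP n us = relV phiLN n us := by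
  by_cases h : ∀ u ∈ us, ∀ e ∈ phiLP, e.1 ≠ addT n u.1
  · by_cases h' : ∀ u ∈ us, ∀ e ∈ phiLN, e.1 ≠ addT n u.1
    · rw [relV_eq_zero _ _ _ h, relV_eq_zero _ _ _ h']
    · push Not at h'
      obtain ⟨u, hu, e, he, h2⟩ := h'
      exact rel_of_mem phiLN kill_okN us hus n u hu e he h2
  · push Not at h
    obtain ⟨u, hu, e, he, h2⟩ := h
    exact rel_of_mem phiLP kill_okP us hus n u hu e he h2

lemma Phi_rel (us : List (T4 × ℕ)) (n : T4) :
    Phi (monT n * (us.map fun u => ((u.2 : ℕ) : ℂ) • monT u.1).sum)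
      = (relV phiLP n us : ℂ) - (relV phiLN n us : ℂ) := by
  induction us with
  | nil => simp [relV]
  | cons u us ih =>
    rw [List.map_cons, List.sum_cons, mul_add, map_add, ih, mul_smul_comm, map_smul, ← monT_add,
      Phi_monT, relV_cons, relV_cons, smul_eq_mul]
    push_cast
    ring

lemma dd_fS_mem (i : Fin (2 + 2)) : ∃ us ∈ ulc,
    dd i fS = (us.map fun u => ((u.2 : ℕ) : ℂ) • monT u.1).sum := by
  fin_cases i
  · refine ⟨[((2, 1, 0, 0), 3), ((0, 3, 0, 0), 1), ((0, 1, 1, 1), 1)], by decide, ?_⟩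
    show dd 0 fS = _
    rw [dd_zero_fS]
    simp only [List.map_cons, List.map_nil, List.sum_cons, List.sum_nil,
      MvPowerSeries.smul_eq_C_mul, monT, mon_eq, Nat.cast_ofNat, map_ofNat, Nat.cast_one, map_one]
    ring
  · refine ⟨[((3, 0, 0, 0), 1), ((1, 2, 0, 0), 3), ((1, 0, 1, 1), 1)], by decide, ?_⟩
    show dd 1 fS = _
    rw [dd_one_fS]
    simp only [List.map_cons, List.map_nil, List.sum_cons, List.sum_nil,
      MvPowerSeries.smul_eq_C_mul, monT, mon_eq, Nat.cast_ofNat, map_ofNat, Nat.cast_one, map_one]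
    ring
  · refine ⟨[((0, 0, 3, 1), 4), ((0, 0, 0, 4), 1), ((1, 1, 0, 1), 1)], by decide, ?_⟩
    show dd 2 fS = _
    rw [dd_two_fS]
    simp only [List.map_cons, List.map_nil, List.sum_cons, List.sum_nil,
      MvPowerSeries.smul_eq_C_mul, monT, mon_eq, Nat.cast_ofNat, map_ofNat, Nat.cast_one, map_one]
    ring
  · refine ⟨[((0, 0, 4, 0), 1), ((0, 0, 1, 3), 4), ((1, 1, 1, 0), 1)], by decide, ?_⟩
    show dd 3 fS = _
    rw [dd_three_fS]
    simp only [List.map_cons, List.map_nil, List.sum_cons, List.sum_nil,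
      MvPowerSeries.smul_eq_C_mul, monT, mon_eq, Nat.cast_ofNat, map_ofNat, Nat.cast_one, map_one]
    ring

lemma Phi_dd (i : Fin (2 + 2)) (g : PS 2) : Phi (dd i fS * g) = 0 := by
  have h1 : g = boxPart 12 g + (g - boxPart 12 g) := by ring
  rw [h1, mul_add, map_add]
  have h2 : Phi (dd i fS * boxPart 12 g) = 0 := by
    unfold boxPart
    rw [Finset.mul_sum, map_sum]
    refine Finset.sum_eq_zero fun n _ => ?_
    obtain ⟨us, hus, h3⟩ := dd_fS_mem i
    rw [mul_smul_comm, map_smul, monomial_eq_monT, mul_comm, h3, Phi_rel, rel_all us hus]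
    simp
  have h3 : Phi (dd i fS * (g - boxPart 12 g)) = 0 := by
    have h4 : dd i fS * (g - boxPart 12 g) ∈ powIdeal Finset.univ (12 + 1) :=
      Ideal.mul_mem_left _ _ (sub_boxPart 12 g)
    unfold Phi
    rw [LinearMap.sub_apply, PhiL_powIdeal _ box_okP _ h4, PhiL_powIdeal _ box_okN _ h4, sub_zero]
  rw [h2, h3, add_zero]

lemma Phi_dfw (g : VF 2) : Phi (dfw fS g) = 0 := by
  rw [dfw_apply, map_sum]
  exact Finset.sum_eq_zero fun i _ => Phi_dd i (g i)

/-- The dual functionals. -/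
noncomputable def PsiL (d : List (T4 × (ℕ × ℕ))) : PS 2 →ₗ[ℂ] ℂ :=
  (d.map fun e => (((e.2.1 : ℕ) : ℂ) - ((e.2.2 : ℕ) : ℂ)) •
    (Phi ∘ₗ LinearMap.mulLeft ℂ (monT e.1))).sum

lemma PsiL_cons (e : T4 × (ℕ × ℕ)) (d : List (T4 × (ℕ × ℕ))) (ω : PS 2) :
    PsiL (e :: d) ω = ((e.2.1 : ℂ) - (e.2.2 : ℂ)) * Phi (monT e.1 * ω) + PsiL d ω := by
  unfold PsiL
  rw [List.map_cons, List.sum_cons]
  rfl

lemma PsiL_dfw (d : List (T4 × (ℕ × ℕ))) (g : VF 2) : PsiL d (dfw fS g) = 0 := by
  induction d with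
  | nil => simp [PsiL]
  | cons e d ih =>
    rw [PsiL_cons, ih, ← dfw_smul_mul, Phi_dfw]; ring

lemma gl_eq (L : List (T4 × ℕ)) (hL : ordOK L = true) (q : T4) : gl L q = lk L q := by
  unfold gl
  cases h : Nat.blt 120 (hK q) with
  | false => rfl
  | true =>
    rw [cond_true]
    symm
    apply lk_eq_zero
    intro e he heq
    unfold ordOK at hL
    rw [List.all_eq_true] at hL
    have h1 := hL e he
    rw [Nat.ble_eq, heq] at h1
    have h2 := h
    simp [Nat.blt] at h2
    omega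

lemma PsiL_monT (d : List (T4 × (ℕ × ℕ))) (b : T4) :
    PsiL d (monT b) = (psiP d b : ℂ) - (psiN d b : ℂ) := by
  induction d with
  | nil => simp [PsiL, psiP, psiN]
  | cons e d ih =>
    rw [PsiL_cons, ih, ← monT_add, Phi_monT]
    have h1 : psiP (e :: d) b = e.2.1 * gl phiLP (addT e.1 b) + e.2.2 * gl phiLN (addT e.1 b)
      + psiP d b := rfl
    have h2 : psiN (e :: d) b = e.2.1 * gl phiLN (addT e.1 b) + e.2.2 * gl phiLP (addT e.1 b)
      + psiN d b := rfl
    rw [h1, h2, gl_eq _ ord_okP, gl_eq _ ord_okN]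
    push_cast
    ring

/-- the Jacobian ideal, as a vector space -/
noncomputable def JJ : Submodule ℂ (PS 2) := LinearMap.range (dfw fS)

lemma PsiL_JJ (d : List (T4 × (ℕ × ℕ))) (ω : PS 2) (h : ω ∈ JJ) : PsiL d ω = 0 := by
  obtain ⟨g, rfl⟩ := h
  exact PsiL_dfw d g

lemma tri_ind (L : List (T4 × List (T4 × (ℕ × ℕ)))) (c : T4 → ℂ) : triOK L = true →
    (L.map fun e => c e.1 • monT e.1).sum ∈ JJ → ∀ e ∈ L, c e.1 = 0 := by
  induction L with
  | nil => intro _ _ e he; simp at he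
  | cons e L ih =>
    intro hL hJ
    unfold triOK at hL
    rw [Bool.and_eq_true, Bool.and_eq_true, List.all_eq_true] at hL
    obtain ⟨h1, h2, h3⟩ := hL
    rw [List.map_cons, List.sum_cons] at hJ
    have h4 := PsiL_JJ e.2 _ hJ
    rw [map_add, map_smul, map_list_sum, List.map_map] at h4
    have h5 : (L.map (⇑(PsiL e.2) ∘ fun e => c e.1 • monT e.1)).sum = 0 := by
      apply List.sum_eq_zero
      intro x hx
      rw [List.mem_map] at hx
      obtain ⟨e', he', rfl⟩ := hx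
      have h6 := h2 e' he'
      rw [Nat.beq_eq] at h6
      have h7 : psiP e.2 e'.1 = psiN e.2 e'.1 := h6
      show PsiL e.2 (c e'.1 • monT e'.1) = 0
      rw [map_smul, PsiL_monT, h7]
      simp
    rw [h5, add_zero, PsiL_monT, smul_eq_mul] at h4
    have h8 : (psiP e.2 e.1 : ℂ) - (psiN e.2 e.1 : ℂ) ≠ 0 := by
      intro h9
      rw [sub_eq_zero, Nat.cast_inj] at h9
      rw [h9] at h1
      simp at h1
    have h10 : c e.1 = 0 := (mul_eq_zero.1 h4).resolve_right h8
    rw [h10, zero_smul, zero_add] at hJ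
    intro e' he'
    rw [List.mem_cons] at he'
    rcases he' with rfl | he'
    · exact h10
    · exact ih h3 hJ e' he'

/-- the basis exponents as a finite set -/
def BF : Finset T4 := Bl.toFinset

lemma mem_BF (q : T4) : q ∈ BF ↔ q ∈ Bl := List.mem_toFinset

/-- **Linear independence of the monomial basis modulo the Jacobian ideal.** -/
theorem indep (c : T4 → ℂ) (h : ∑ q ∈ BF, c q • monT q ∈ JJ) : ∀ q ∈ BF, c q = 0 := by
  have h1 : ∑ q ∈ BF, c q • monT q = (Bl.map fun q => c q • monT q).sum :=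
    List.sum_toFinset _ Bl_nodup
  rw [h1, ← Bd_map, List.map_map] at h
  have h2 := tri_ind Bd c tri_ok h
  intro q hq
  rw [mem_BF, ← Bd_map, List.mem_map] at hq
  obtain ⟨e, he, rfl⟩ := hq
  exact h2 e he

lemma SB_repr (a : ℤ) (ω : PS 2) (h : ω ∈ SB a) :
    ∃ c : T4 → ℂ, (∀ q, c q ≠ 0 → a ≤ hK q) ∧ ω = ∑ q ∈ BF, c q • monT q := by
  unfold SB at h
  induction h using Submodule.span_induction with
  | mem x hx =>
    obtain ⟨q, hq, hq', rfl⟩ := hx
    refine ⟨fun p => if p = q then 1 else 0, fun p hp => ?_, ?_⟩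
    · have : p = q := by
        by_contra hne
        exact hp (if_neg hne)
      rw [this]; exact hq'
    · rw [Finset.sum_eq_single q]
      · show monT q = (if q = q then (1 : ℂ) else 0) • monT q
        rw [if_pos rfl, one_smul]
      · intro p _ hp
        show (if p = q then (1 : ℂ) else 0) • monT p = 0
        rw [if_neg hp, zero_smul]
      · intro h'
        exact absurd ((mem_BF q).2 hq) h'
  | zero =>
    exact ⟨fun _ => 0, fun q hq => absurd rfl hq,
      (Finset.sum_eq_zero fun q _ => zero_smul _ _).symm⟩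
  | add x y _ _ ihx ihy =>
    obtain ⟨c, hc, hx⟩ := ihx
    obtain ⟨c', hc', hy⟩ := ihy
    refine ⟨fun q => c q + c' q, fun q hq => ?_, ?_⟩
    · by_cases h1 : c q = 0
      · apply hc' q
        intro h2
        apply hq
        show c q + c' q = 0
        rw [h1, h2, add_zero]
      · exact hc q h1
    · rw [hx, hy, ← Finset.sum_add_distrib]
      exact Finset.sum_congr rfl fun q _ => (add_smul _ _ _).symm
  | smul k x _ ih =>
    obtain ⟨c, hc, hx⟩ := ih
    refine ⟨fun q => k * c q, fun q hq => hc q (right_ne_zero_of_mul hq), ?_⟩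
    rw [hx, Finset.smul_sum]
    exact Finset.sum_congr rfl fun q _ => (mul_smul _ _ _).symm

lemma DI_le_JJ (b : Fin 4 → ℤ) (ω : PS 2) (h : ω ∈ DI b) : ω ∈ JJ := by
  obtain ⟨g, _, rfl⟩ := h
  exact ⟨g, rfl⟩

/-- **Strictness of the Newton filtration on the Jacobian ideal.** -/
theorem strict (a : ℤ) (ω : PS 2) (h : ω ∈ Q (fun _ => a + 60)) (hJ : ω ∈ JJ) :
    ω ∈ DI (fun _ => a) := by
  have h1 := Q_le_RB _ ω h
  unfold RB at h1
  rw [Submodule.mem_sup] at h1
  obtain ⟨ω1, hω1, ω2, hω2, rfl⟩ := h1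
  have h2 : ω1 ∈ DI (fun _ => a) := DI_anti (fun _ => by omega) hω1
  obtain ⟨c, hc, h3⟩ := SB_repr _ _ hω2
  have h4 : ω2 ∈ JJ := by
    have := Submodule.sub_mem _ hJ (DI_le_JJ _ _ h2)
    rwa [add_sub_cancel_left] at this
  rw [h3] at h4
  have h5 := indep c h4
  have h6 : ω2 = 0 := by
    rw [h3]
    exact Finset.sum_eq_zero fun q hq => by rw [h5 q hq, zero_smul]
  rw [h6, add_zero]; exact h2

/-- **The V-filtration of `f`.** -/
theorem isVFiltration_Vf : IsVFiltration (tOp fS) (sOp fS) Vf :=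
  isVFiltration_of (fun a ω h hJ => strict a ω h hJ) (fun a ha => Q_le_DI a ha)

end NF

end Run7.h935
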