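import Pool.Agent.Run7.h935.Span

/-!
# Data for the linear independence of the monomial basis
-/

namespace Run7.h935

namespace NF

/-- The positive values of `400` times the residue functional on monomials. -/
def phiLP : List (T4 × ℕ) :=
  [((0, 0, 0, 12), 5), ((0, 0, 2, 8), 16), ((0, 0, 5, 5), 16), ((0, 0, 8, 2), 16), ((0, 0, 12,
   0), 5), ((0, 2, 0, 6), 6300), ((0, 2, 6, 0), 6300), ((0, 4, 2, 2), 375), ((0, 4, 3, 3), 4),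
   ((0, 8, 1, 1), 4), ((1, 3, 1, 4), 20), ((1, 3, 4, 1), 20), ((2, 0, 0, 6), 6300), ((2, 0, 6,
   0), 6300), ((2, 2, 0, 6), 5), ((2, 2, 2, 2), 400), ((2, 2, 6, 0), 5), ((2, 6, 0, 0), 25),
   ((3, 1, 1, 4), 20), ((3, 1, 4, 1), 20), ((4, 0, 2, 2), 375), ((4, 0, 3, 3), 4), ((4, 4, 0,
   0), 25), ((6, 2, 0, 0), 25), ((8, 0, 1, 1), 4)]

/-- The absolute values of the negative values of `400` times the residue functional on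
monomials. -/
def phiLN : List (T4 × ℕ) :=
  [((0, 2, 1, 7), 4), ((0, 2, 3, 3), 1575), ((0, 2, 4, 4), 4), ((0, 2, 7, 1), 4), ((0, 4, 0,
   6), 11), ((0, 4, 6, 0), 11), ((0, 6, 1, 1), 75), ((0, 6, 2, 2), 4), ((0, 10, 0, 0), 4),
   ((1, 1, 0, 9), 5), ((1, 1, 2, 5), 80), ((1, 1, 5, 2), 80), ((1, 1, 9, 0), 5), ((1, 5, 0,
   3), 5), ((1, 5, 3, 0), 5), ((2, 0, 1, 7), 4), ((2, 0, 3, 3), 1575), ((2, 0, 4, 4), 4), ((2,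
   0, 7, 1), 4), ((2, 4, 1, 1), 100), ((3, 3, 0, 3), 5), ((3, 3, 3, 0), 5), ((4, 0, 0, 6),
   11), ((4, 0, 6, 0), 11), ((4, 2, 1, 1), 100), ((5, 1, 0, 3), 5), ((5, 1, 3, 0), 5), ((6, 0,
   1, 1), 75), ((6, 0, 2, 2), 4), ((10, 0, 0, 0), 4)]

/-- The basis exponents together with dual elements (in triangular form); the coefficients are
differences of two natural numbers. -/
def Bd : List (T4 × List (T4 × (ℕ × ℕ))) :=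
  [((0, 0, 0, 0), [((2, 2, 2, 2), (1, 0))]),
   ((0, 0, 0, 1), [((3, 3, 0, 2), (1, 0))]),
   ((0, 0, 1, 0), [((3, 3, 2, 0), (1, 0))]),
   ((0, 1, 0, 0), [((0, 1, 4, 4), (1, 0))]),
   ((1, 0, 0, 0), [((1, 0, 4, 4), (1, 0))]),
   ((0, 0, 0, 2), [((3, 3, 0, 1), (1, 0))]),
   ((0, 0, 2, 0), [((3, 3, 1, 0), (1, 0))]),
   ((0, 1, 1, 0), [((0, 1, 3, 4), (1, 0))]),
   ((0, 1, 0, 1), [((0, 1, 4, 3), (1, 0))]),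
   ((1, 0, 1, 0), [((1, 0, 3, 4), (1, 0))]),
   ((1, 0, 0, 1), [((1, 0, 4, 3), (1, 0))]),
   ((0, 0, 1, 1), [((0, 0, 4, 4), (1, 0)), ((0, 2, 3, 3), (1, 0)), ((2, 0, 3, 3), (1, 0))]),
   ((0, 2, 0, 0), [((0, 2, 3, 3), (1, 0))]),
   ((2, 0, 0, 0), [((0, 0, 4, 4), (1, 0))]),
   ((0, 0, 0, 3), [((3, 3, 0, 0), (1, 0)), ((2, 2, 0, 3), (4, 0)), ((2, 2, 3, 0), (1, 0))]),
   ((1, 1, 0, 0), [((2, 2, 0, 3), (1, 0))]),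
   ((0, 0, 3, 0), [((3, 3, 0, 0), (1, 0))]),
   ((1, 0, 0, 2), [((2, 3, 0, 1), (1, 0))]),
   ((1, 0, 2, 0), [((2, 3, 1, 0), (1, 0))]),
   ((0, 1, 0, 2), [((3, 2, 0, 1), (1, 0))]),
   ((0, 1, 2, 0), [((3, 2, 1, 0), (1, 0))]),
   ((0, 1, 1, 1), [((0, 1, 3, 3), (1, 0))]),
   ((1, 0, 1, 1), [((1, 0, 3, 3), (1, 0))]),
   ((0, 0, 2, 1), [((0, 0, 3, 4), (1, 0)), ((0, 2, 2, 3), (1, 0)), ((2, 0, 2, 3), (1, 0))]),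
   ((0, 2, 1, 0), [((0, 2, 2, 3), (1, 0))]),
   ((2, 0, 1, 0), [((0, 0, 3, 4), (1, 0))]),
   ((0, 0, 1, 2), [((0, 0, 4, 3), (1, 0)), ((0, 2, 3, 2), (1, 0)), ((2, 0, 3, 2), (1, 0))]),
   ((0, 2, 0, 1), [((0, 2, 3, 2), (1, 0))]),
   ((2, 0, 0, 1), [((0, 0, 4, 3), (1, 0))]),
   ((1, 1, 0, 1), [((2, 2, 0, 2), (1, 0))]),
   ((1, 1, 1, 0), [((2, 2, 2, 0), (1, 0))]),
   ((1, 0, 0, 3), [((2, 3, 0, 0), (1, 0)), ((1, 2, 0, 3), (4, 0)), ((1, 2, 3, 0), (1, 0))]),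
   ((2, 1, 0, 0), [((1, 2, 0, 3), (1, 0))]),
   ((1, 0, 3, 0), [((2, 3, 0, 0), (1, 0))]),
   ((0, 1, 0, 3), [((3, 2, 0, 0), (1, 0)), ((2, 1, 0, 3), (4, 0)), ((2, 1, 3, 0), (1, 0))]),
   ((1, 2, 0, 0), [((2, 1, 0, 3), (1, 0))]),
   ((0, 1, 3, 0), [((3, 2, 0, 0), (1, 0))]),
   ((0, 1, 2, 1), [((0, 1, 2, 3), (1, 0))]),
   ((0, 1, 1, 2), [((0, 1, 3, 2), (1, 0))]),
   ((1, 0, 2, 1), [((1, 0, 2, 3), (1, 0))]),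
   ((1, 0, 1, 2), [((1, 0, 3, 2), (1, 0))]),
   ((0, 0, 3, 1), [((0, 0, 2, 4), (1, 0)), ((0, 2, 1, 3), (1, 0)), ((2, 0, 1, 3), (1, 0))]),
   ((0, 2, 2, 0), [((0, 2, 1, 3), (1, 0))]),
   ((2, 0, 2, 0), [((0, 0, 2, 4), (1, 0))]),
   ((0, 0, 2, 2), [((0, 0, 3, 3), (1, 0)), ((0, 2, 2, 2), (1, 0)), ((2, 0, 2, 2), (1, 0))]),
   ((0, 2, 1, 1), [((0, 2, 2, 2), (1, 0))]),
   ((2, 0, 1, 1), [((0, 0, 3, 3), (1, 0))]),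
   ((0, 0, 1, 3), [((0, 0, 4, 2), (1, 0)), ((0, 2, 3, 1), (1, 0)), ((2, 0, 3, 1), (1, 0))]),
   ((0, 2, 0, 2), [((0, 2, 3, 1), (1, 0))]),
   ((2, 0, 0, 2), [((0, 0, 4, 2), (1, 0))]),
   ((1, 1, 0, 2), [((2, 2, 0, 1), (1, 0))]),
   ((1, 1, 2, 0), [((2, 2, 1, 0), (1, 0))]),
   ((2, 1, 0, 1), [((1, 2, 0, 2), (1, 0))]),
   ((2, 1, 1, 0), [((1, 2, 2, 0), (1, 0))]),
   ((1, 2, 0, 1), [((2, 1, 0, 2), (1, 0))]),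
   ((1, 2, 1, 0), [((2, 1, 2, 0), (1, 0))]),
   ((0, 1, 3, 1), [((0, 1, 1, 3), (1, 0))]),
   ((0, 1, 2, 2), [((0, 1, 2, 2), (1, 0))]),
   ((0, 1, 1, 3), [((0, 1, 3, 1), (1, 0))]),
   ((1, 0, 3, 1), [((1, 0, 1, 3), (1, 0))]),
   ((1, 0, 2, 2), [((1, 0, 2, 2), (1, 0))]),
   ((1, 0, 1, 3), [((1, 0, 3, 1), (1, 0))]),
   ((1, 1, 0, 3), [((2, 2, 0, 0), (1, 0)), ((1, 1, 0, 3), (4, 0)), ((1, 1, 3, 0), (1, 0))]),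
   ((2, 2, 0, 0), [((1, 1, 0, 3), (1, 0))]),
   ((1, 1, 3, 0), [((2, 2, 0, 0), (1, 0))]),
   ((0, 0, 3, 2), [((0, 0, 2, 3), (1, 0)), ((0, 2, 1, 2), (1, 0)), ((2, 0, 1, 2), (1, 0))]),
   ((0, 2, 2, 1), [((0, 2, 1, 2), (1, 0))]),
   ((2, 0, 2, 1), [((0, 0, 2, 3), (1, 0))]),
   ((0, 0, 2, 3), [((0, 0, 3, 2), (1, 0)), ((0, 2, 2, 1), (1, 0)), ((2, 0, 2, 1), (1, 0))]),
   ((0, 2, 1, 2), [((0, 2, 2, 1), (1, 0))]),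
   ((2, 0, 1, 2), [((0, 0, 3, 2), (1, 0))]),
   ((0, 2, 0, 3), [((1, 1, 1, 1), (1, 0)), ((0, 2, 0, 3), (0, 12)), ((0, 2, 3, 0), (0, 3)),
     ((2, 0, 0, 3), (0, 4)), ((2, 0, 3, 0), (0, 1))]),
   ((2, 0, 0, 3), [((1, 1, 1, 1), (0, 1)), ((0, 2, 0, 3), (16, 0)), ((0, 2, 3, 0), (4, 0))]),
   ((0, 2, 3, 0), [((1, 1, 1, 1), (0, 1)), ((0, 2, 0, 3), (15, 0)), ((2, 0, 0, 3), (5, 0))]),
   ((1, 1, 1, 1), [((0, 2, 0, 3), (1, 0))]),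
   ((2, 0, 3, 0), [((1, 1, 1, 1), (1, 0))]),
   ((2, 1, 0, 2), [((1, 2, 0, 1), (1, 0))]),
   ((2, 1, 2, 0), [((1, 2, 1, 0), (1, 0))]),
   ((1, 2, 0, 2), [((2, 1, 0, 1), (1, 0))]),
   ((1, 2, 2, 0), [((2, 1, 1, 0), (1, 0))]),
   ((2, 2, 0, 1), [((1, 1, 0, 2), (1, 0))]),
   ((2, 2, 1, 0), [((1, 1, 2, 0), (1, 0))]),
   ((0, 1, 3, 2), [((0, 1, 1, 2), (1, 0))]),
   ((0, 1, 2, 3), [((0, 1, 2, 1), (1, 0))]),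
   ((1, 0, 3, 2), [((1, 0, 1, 2), (1, 0))]),
   ((1, 0, 2, 3), [((1, 0, 2, 1), (1, 0))]),
   ((0, 0, 4, 2), [((0, 0, 1, 3), (1, 0)), ((0, 2, 0, 2), (1, 0)), ((2, 0, 0, 2), (1, 0))]),
   ((0, 2, 3, 1), [((0, 2, 0, 2), (1, 0))]),
   ((2, 0, 3, 1), [((0, 0, 1, 3), (1, 0))]),
   ((0, 0, 3, 3), [((0, 0, 2, 2), (1, 0)), ((0, 2, 1, 1), (1, 0)), ((2, 0, 1, 1), (1, 0))]),
   ((0, 2, 2, 2), [((0, 2, 1, 1), (1, 0))]),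
   ((2, 0, 2, 2), [((0, 0, 2, 2), (1, 0))]),
   ((0, 0, 2, 4), [((0, 0, 3, 1), (1, 0)), ((0, 2, 2, 0), (1, 0)), ((2, 0, 2, 0), (1, 0))]),
   ((0, 2, 1, 3), [((0, 2, 2, 0), (1, 0))]),
   ((2, 0, 1, 3), [((0, 0, 3, 1), (1, 0))]),
   ((2, 1, 0, 3), [((1, 2, 0, 0), (1, 0)), ((0, 1, 0, 3), (4, 0)), ((0, 1, 3, 0), (1, 0))]),
   ((3, 2, 0, 0), [((0, 1, 0, 3), (1, 0))]),
   ((2, 1, 3, 0), [((1, 2, 0, 0), (1, 0))]),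
   ((1, 2, 0, 3), [((2, 1, 0, 0), (1, 0)), ((1, 0, 0, 3), (4, 0)), ((1, 0, 3, 0), (1, 0))]),
   ((2, 3, 0, 0), [((1, 0, 0, 3), (1, 0))]),
   ((1, 2, 3, 0), [((2, 1, 0, 0), (1, 0))]),
   ((2, 2, 0, 2), [((1, 1, 0, 1), (1, 0))]),
   ((2, 2, 2, 0), [((1, 1, 1, 0), (1, 0))]),
   ((0, 1, 3, 3), [((0, 1, 1, 1), (1, 0))]),
   ((1, 0, 3, 3), [((1, 0, 1, 1), (1, 0))]),
   ((0, 0, 4, 3), [((0, 0, 1, 2), (1, 0)), ((0, 2, 0, 1), (1, 0)), ((2, 0, 0, 1), (1, 0))]),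
   ((0, 2, 3, 2), [((0, 2, 0, 1), (1, 0))]),
   ((2, 0, 3, 2), [((0, 0, 1, 2), (1, 0))]),
   ((0, 0, 3, 4), [((0, 0, 2, 1), (1, 0)), ((0, 2, 1, 0), (1, 0)), ((2, 0, 1, 0), (1, 0))]),
   ((0, 2, 2, 3), [((0, 2, 1, 0), (1, 0))]),
   ((2, 0, 2, 3), [((0, 0, 2, 1), (1, 0))]),
   ((3, 2, 0, 1), [((0, 1, 0, 2), (1, 0))]),
   ((3, 2, 1, 0), [((0, 1, 2, 0), (1, 0))]),
   ((2, 3, 0, 1), [((1, 0, 0, 2), (1, 0))]),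
   ((2, 3, 1, 0), [((1, 0, 2, 0), (1, 0))]),
   ((2, 2, 0, 3), [((1, 1, 0, 0), (1, 0)), ((0, 0, 0, 3), (4, 0)), ((0, 0, 3, 0), (1, 0))]),
   ((3, 3, 0, 0), [((0, 0, 0, 3), (1, 0))]),
   ((2, 2, 3, 0), [((1, 1, 0, 0), (1, 0))]),
   ((0, 3, 3, 2), [((0, 1, 0, 1), (1, 0))]),
   ((0, 3, 2, 3), [((0, 1, 1, 0), (1, 0))]),
   ((3, 0, 3, 2), [((1, 0, 0, 1), (1, 0))]),
   ((3, 0, 2, 3), [((1, 0, 1, 0), (1, 0))]),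
   ((0, 0, 4, 4), [((0, 0, 1, 1), (1, 0)), ((0, 2, 0, 0), (1, 0)), ((2, 0, 0, 0), (1, 0))]),
   ((0, 2, 3, 3), [((0, 2, 0, 0), (1, 0))]),
   ((2, 0, 3, 3), [((0, 0, 1, 1), (1, 0))]),
   ((3, 3, 0, 1), [((0, 0, 0, 2), (1, 0))]),
   ((3, 3, 1, 0), [((0, 0, 2, 0), (1, 0))]),
   ((0, 3, 3, 3), [((0, 1, 0, 0), (1, 0))]),
   ((3, 0, 3, 3), [((1, 0, 0, 0), (1, 0))]),
   ((3, 3, 0, 2), [((0, 0, 0, 1), (1, 0))]),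
   ((3, 3, 2, 0), [((0, 0, 1, 0), (1, 0))]),
   ((2, 2, 2, 2), [((0, 0, 0, 0), (1, 0))])]

end NF

end Run7.h935
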