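import Mathlib

/-!
# Exactness of the Koszul complex of four elements

If the ideal `(f 0, f 1, f 2, f 3)` contains a regular sequence `y 0, y 1, y 2, y 3` then
`∑ f i g i = 0` implies that `g` is a combination of the trivial relations.
-/

namespace Run7.h935

variable {R : Type*} [CommRing R]

/-- fourth step -/
lemma koszul4 (f a : Fin 4 → R) (y : R) (hy : y = ∑ i, a i * f i) (I : Ideal R)
    (hreg : ∀ c, y * c ∈ I → c ∈ I) (c : R) (hc : ∀ l, f l * c ∈ I) : c ∈ I := by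
  apply hreg
  rw [hy, Finset.sum_mul]
  refine Ideal.sum_mem _ fun i _ => ?_
  rw [mul_assoc]
  exact I.mul_mem_left _ (hc i)

/-- third step -/
lemma koszul3 (f a : Fin 4 → R) (y : R) (hy : y = ∑ i, a i * f i) (I : Ideal R)
    (hreg : ∀ c, y * c ∈ I → c ∈ I)
    (h4 : ∀ c, (∀ l, f l * c ∈ I ⊔ Ideal.span {y}) → c ∈ I ⊔ Ideal.span {y})
    (b : Fin 4 → R) (hb : ∀ k l, f k * b l - f l * b k ∈ I) :
    ∃ c, ∀ l, b l - f l * c ∈ I := by
  have h1 : ∀ k, f k * (∑ l, a l * b l) - y * b k ∈ I := by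
    intro k
    have e : f k * (∑ l, a l * b l) - y * b k = ∑ l, a l * (f k * b l - f l * b k) := by
      rw [hy, Finset.mul_sum, Finset.sum_mul, ← Finset.sum_sub_distrib]
      refine Finset.sum_congr rfl fun l _ => ?_
      ring
    rw [e]
    exact Ideal.sum_mem _ fun l _ => I.mul_mem_left _ (hb k l)
  have h2 : (∑ l, a l * b l) ∈ I ⊔ Ideal.span {y} := by
    apply h4
    intro k
    have : f k * (∑ l, a l * b l) = (f k * (∑ l, a l * b l) - y * b k) + b k * y := by ring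
    rw [this]
    exact Ideal.add_mem _ (Ideal.mem_sup_left (h1 k))
      (Ideal.mem_sup_right (Ideal.mul_mem_left _ _ (Ideal.mem_span_singleton_self y)))
  obtain ⟨u, hu, v, hv, huv⟩ := Submodule.mem_sup.1 h2
  obtain ⟨c, rfl⟩ := Ideal.mem_span_singleton'.1 hv
  refine ⟨c, fun l => hreg _ ?_⟩
  have e : y * (b l - f l * c) = f l * u - (f l * (∑ k, a k * b k) - y * b l) := by
    rw [← huv]; ring
  rw [e]
  exact I.sub_mem (I.mul_mem_left _ hu) (h1 l)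

/-- second step, in components: `A` is an antisymmetric matrix, `B` is the totally antisymmetric
tensor with `B_{012} = p 3`, `B_{013} = p 2`, `B_{023} = p 1`, `B_{123} = p 0`. -/
lemma koszul2 (f a : Fin 4 → R) (y : R) (hy : y = ∑ i, a i * f i) (I : Ideal R)
    (hreg : ∀ c, y * c ∈ I → c ∈ I)
    (h3 : ∀ b : Fin 4 → R, (∀ k l, f k * b l - f l * b k ∈ I ⊔ Ideal.span {y}) →
      ∃ c, ∀ l, b l - f l * c ∈ I ⊔ Ideal.span {y})
    (A : Fin 4 → Fin 4 → R) (hA : ∀ i j, A i j = - A j i) (hA0 : ∀ i, A i i = 0)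
    (hcyc : ∀ i, ∑ j, f j * A i j ∈ I) :
    ∃ p : Fin 4 → R, A 0 1 - (f 2 * p 3 + f 3 * p 2) ∈ I ∧ A 0 2 - (f 3 * p 1 - f 1 * p 3) ∈ I ∧
      A 0 3 - (- f 1 * p 2 - f 2 * p 1) ∈ I ∧ A 1 2 - (f 0 * p 3 + f 3 * p 0) ∈ I ∧
      A 1 3 - (f 0 * p 2 - f 2 * p 0) ∈ I ∧ A 2 3 - (f 0 * p 1 + f 1 * p 0) ∈ I := by
  set J := I ⊔ Ideal.span {y} with hJ
  have hIJ : I ≤ J := le_sup_left
  have hyJ : y ∈ J := Ideal.mem_sup_right (Ideal.mem_span_singleton_self y)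
  have c0 := hcyc 0
  have c1 := hcyc 1
  have c2 := hcyc 2
  have c3 := hcyc 3
  simp only [Fin.sum_univ_four, hA0] at c0 c1 c2 c3
  rw [hA 1 0] at c1
  rw [hA 2 0, hA 2 1] at c2
  rw [hA 3 0, hA 3 1, hA 3 2] at c3
  have hy' : y = a 0 * f 0 + a 1 * f 1 + a 2 * f 2 + a 3 * f 3 := by
    rw [hy, Fin.sum_univ_four]
  -- the wedge a ∧ A
  set q3 := a 0 * A 1 2 - a 1 * A 0 2 + a 2 * A 0 1 with hq3
  set q2 := a 0 * A 1 3 - a 1 * A 0 3 + a 3 * A 0 1 with hq2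
  set q1 := a 0 * A 2 3 - a 2 * A 0 3 + a 3 * A 0 2 with hq1
  set q0 := a 1 * A 2 3 - a 2 * A 1 3 + a 3 * A 1 2 with hq0
  -- ∂ (a ∧ A) = y A mod I
  have d01 : f 2 * q3 + f 3 * q2 - y * A 0 1 ∈ I := by
    have e : f 2 * q3 + f 3 * q2 - y * A 0 1
      = a 0 * (f 0 * -A 0 1 + f 1 * 0 + f 2 * A 1 2 + f 3 * A 1 3)
        - a 1 * (f 0 * 0 + f 1 * A 0 1 + f 2 * A 0 2 + f 3 * A 0 3) := by
      rw [hy', hq3, hq2]; ring
    rw [e]
    exact I.sub_mem (I.mul_mem_left _ c1) (I.mul_mem_left _ c0)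
  have d02 : f 3 * q1 - f 1 * q3 - y * A 0 2 ∈ I := by
    have e : f 3 * q1 - f 1 * q3 - y * A 0 2
      = a 0 * (f 0 * -A 0 2 + f 1 * -A 1 2 + f 2 * 0 + f 3 * A 2 3)
        - a 2 * (f 0 * 0 + f 1 * A 0 1 + f 2 * A 0 2 + f 3 * A 0 3) := by
      rw [hy', hq3, hq1]; ring
    rw [e]
    exact I.sub_mem (I.mul_mem_left _ c2) (I.mul_mem_left _ c0)
  have d03 : - f 1 * q2 - f 2 * q1 - y * A 0 3 ∈ I := by
    have e : - f 1 * q2 - f 2 * q1 - y * A 0 3
      = a 0 * (f 0 * -A 0 3 + f 1 * -A 1 3 + f 2 * -A 2 3 + f 3 * 0)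
        - a 3 * (f 0 * 0 + f 1 * A 0 1 + f 2 * A 0 2 + f 3 * A 0 3) := by
      rw [hy', hq2, hq1]; ring
    rw [e]
    exact I.sub_mem (I.mul_mem_left _ c3) (I.mul_mem_left _ c0)
  have d12 : f 0 * q3 + f 3 * q0 - y * A 1 2 ∈ I := by
    have e : f 0 * q3 + f 3 * q0 - y * A 1 2
      = a 1 * (f 0 * -A 0 2 + f 1 * -A 1 2 + f 2 * 0 + f 3 * A 2 3)
        - a 2 * (f 0 * -A 0 1 + f 1 * 0 + f 2 * A 1 2 + f 3 * A 1 3) := by
      rw [hy', hq3, hq0]; ring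
    rw [e]
    exact I.sub_mem (I.mul_mem_left _ c2) (I.mul_mem_left _ c1)
  have d13 : f 0 * q2 - f 2 * q0 - y * A 1 3 ∈ I := by
    have e : f 0 * q2 - f 2 * q0 - y * A 1 3
      = a 1 * (f 0 * -A 0 3 + f 1 * -A 1 3 + f 2 * -A 2 3 + f 3 * 0)
        - a 3 * (f 0 * -A 0 1 + f 1 * 0 + f 2 * A 1 2 + f 3 * A 1 3) := by
      rw [hy', hq2, hq0]; ring
    rw [e]
    exact I.sub_mem (I.mul_mem_left _ c3) (I.mul_mem_left _ c1)
  have d23 : f 0 * q1 + f 1 * q0 - y * A 2 3 ∈ I := by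
    have e : f 0 * q1 + f 1 * q0 - y * A 2 3
      = a 2 * (f 0 * -A 0 3 + f 1 * -A 1 3 + f 2 * -A 2 3 + f 3 * 0)
        - a 3 * (f 0 * -A 0 2 + f 1 * -A 1 2 + f 2 * 0 + f 3 * A 2 3) := by
      rw [hy', hq1, hq0]; ring
    rw [e]
    exact I.sub_mem (I.mul_mem_left _ c3) (I.mul_mem_left _ c2)
  have toJ : ∀ u v : R, u - y * v ∈ I → u ∈ J := by
    intro u v h
    have : u = (u - y * v) + v * y := by ring
    rw [this]
    exact J.add_mem (hIJ h) (J.mul_mem_left _ hyJ)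
  -- a ∧ A is a cycle mod J, hence a boundary mod J
  obtain ⟨c, hc⟩ := h3 ![-q0, q1, -q2, q3] (by
    have j01 := toJ _ _ d01
    have j02 := toJ _ _ d02
    have j03 := toJ _ _ d03
    have j12 := toJ _ _ d12
    have j13 := toJ _ _ d13
    have j23 := toJ _ _ d23
    have n01 := J.neg_mem j01
    have n02 := J.neg_mem j02
    have n03 := J.neg_mem j03
    have n12 := J.neg_mem j12
    have n13 := J.neg_mem j13
    have n23 := J.neg_mem j23
    intro k l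
    fin_cases k <;> fin_cases l <;> simp only [Fin.zero_eta, Fin.mk_one, Fin.reduceFinMk,
      Matrix.cons_val_zero, Matrix.cons_val_one, Matrix.cons_val, sub_self, J.zero_mem]
    · convert j23 using 1; ring_nf
    · convert n13 using 1; ring_nf
    · convert j12 using 1; ring_nf
    · convert n23 using 1; ring_nf
    · convert j03 using 1; ring_nf
    · convert n02 using 1; ring_nf
    · convert j13 using 1; ring_nf
    · convert n03 using 1; ring_nf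
    · convert j01 using 1; ring_nf
    · convert n12 using 1; ring_nf
    · convert j02 using 1
    · convert n01 using 1; ring_nf)
  have hc0 := hc 0
  have hc1 := hc 1
  have hc2 := hc 2
  have hc3 := hc 3
  simp only [Matrix.cons_val_zero, Matrix.cons_val_one, Matrix.cons_val] at hc0 hc1 hc2 hc3
  obtain ⟨u0, hu0, v0, hv0, e0⟩ := Submodule.mem_sup.1 hc0
  obtain ⟨p0, rfl⟩ := Ideal.mem_span_singleton'.1 hv0
  obtain ⟨u1, hu1, v1, hv1, e1⟩ := Submodule.mem_sup.1 hc1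
  obtain ⟨p1, rfl⟩ := Ideal.mem_span_singleton'.1 hv1
  obtain ⟨u2, hu2, v2, hv2, e2⟩ := Submodule.mem_sup.1 hc2
  obtain ⟨p2, rfl⟩ := Ideal.mem_span_singleton'.1 hv2
  obtain ⟨u3, hu3, v3, hv3, e3⟩ := Submodule.mem_sup.1 hc3
  obtain ⟨p3, rfl⟩ := Ideal.mem_span_singleton'.1 hv3
  have E0 : q0 = - f 0 * c - u0 - p0 * y := by linear_combination e0
  have E1 : q1 = f 1 * c + u1 + p1 * y := by linear_combination -e1
  have E2 : q2 = - f 2 * c - u2 - p2 * y := by linear_combination e2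
  have E3 : q3 = f 3 * c + u3 + p3 * y := by linear_combination -e3
  refine ⟨![-p0, p1, -p2, p3], ?_, ?_, ?_, ?_, ?_, ?_⟩ <;> apply hreg <;>
    simp only [Matrix.cons_val_zero, Matrix.cons_val_one, Matrix.cons_val]
  · have e : y * (A 0 1 - (f 2 * p3 + f 3 * -p2))
        = f 2 * u3 - f 3 * u2 - (f 2 * q3 + f 3 * q2 - y * A 0 1) := by
      rw [E3, E2]; ring
    rw [e]
    exact I.sub_mem (I.sub_mem (I.mul_mem_left _ hu3) (I.mul_mem_left _ hu2)) d01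
  · have e : y * (A 0 2 - (f 3 * p1 - f 1 * p3))
        = f 3 * u1 - f 1 * u3 - (f 3 * q1 - f 1 * q3 - y * A 0 2) := by
      rw [E3, E1]; ring
    rw [e]
    exact I.sub_mem (I.sub_mem (I.mul_mem_left _ hu1) (I.mul_mem_left _ hu3)) d02
  · have e : y * (A 0 3 - (- f 1 * -p2 - f 2 * p1))
        = f 1 * u2 - f 2 * u1 - (- f 1 * q2 - f 2 * q1 - y * A 0 3) := by
      rw [E2, E1]; ring
    rw [e]
    exact I.sub_mem (I.sub_mem (I.mul_mem_left _ hu2) (I.mul_mem_left _ hu1)) d03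
  · have e : y * (A 1 2 - (f 0 * p3 + f 3 * -p0))
        = f 0 * u3 - f 3 * u0 - (f 0 * q3 + f 3 * q0 - y * A 1 2) := by
      rw [E3, E0]; ring
    rw [e]
    exact I.sub_mem (I.sub_mem (I.mul_mem_left _ hu3) (I.mul_mem_left _ hu0)) d12
  · have e : y * (A 1 3 - (f 0 * -p2 - f 2 * -p0))
        = f 2 * u0 - f 0 * u2 - (f 0 * q2 - f 2 * q0 - y * A 1 3) := by
      rw [E2, E0]; ring
    rw [e]
    exact I.sub_mem (I.sub_mem (I.mul_mem_left _ hu0) (I.mul_mem_left _ hu2)) d13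
  · have e : y * (A 2 3 - (f 0 * p1 + f 1 * -p0))
        = f 0 * u1 - f 1 * u0 - (f 0 * q1 + f 1 * q0 - y * A 2 3) := by
      rw [E1, E0]; ring
    rw [e]
    exact I.sub_mem (I.sub_mem (I.mul_mem_left _ hu1) (I.mul_mem_left _ hu0)) d23

/-- first step -/
lemma koszul1 (f a : Fin 4 → R) (y : R) (hy : y = ∑ i, a i * f i)
    (hreg : ∀ c, y * c = 0 → c = 0)
    (h2 : ∀ A : Fin 4 → Fin 4 → R, (∀ i j, A i j = - A j i) → (∀ i, A i i = 0) →
      (∀ i, ∑ j, f j * A i j ∈ Ideal.span {y}) →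
      ∃ p : Fin 4 → R, A 0 1 - (f 2 * p 3 + f 3 * p 2) ∈ Ideal.span {y} ∧
        A 0 2 - (f 3 * p 1 - f 1 * p 3) ∈ Ideal.span {y} ∧
        A 0 3 - (- f 1 * p 2 - f 2 * p 1) ∈ Ideal.span {y} ∧
        A 1 2 - (f 0 * p 3 + f 3 * p 0) ∈ Ideal.span {y} ∧
        A 1 3 - (f 0 * p 2 - f 2 * p 0) ∈ Ideal.span {y} ∧
        A 2 3 - (f 0 * p 1 + f 1 * p 0) ∈ Ideal.span {y})
    (g : Fin 4 → R) (hg : ∑ i, f i * g i = 0) :
    ∃ A : Fin 4 → Fin 4 → R, (∀ i j, A i j = - A j i) ∧ ∀ i, g i = ∑ j, f j * A i j := by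
  have hy' : y = a 0 * f 0 + a 1 * f 1 + a 2 * f 2 + a 3 * f 3 := by
    rw [hy, Fin.sum_univ_four]
  have hg' : f 0 * g 0 + f 1 * g 1 + f 2 * g 2 + f 3 * g 3 = 0 := by
    rw [← hg, Fin.sum_univ_four]
  obtain ⟨p, h01, h02, h03, h12, h13, h23⟩ := h2 (fun i j => a i * g j - a j * g i)
    (fun i j => by ring) (fun i => by ring) (fun i => by
      have e : ∑ j, f j * (a i * g j - a j * g i) = - g i * y := by
        have : ∑ j, f j * (a i * g j - a j * g i)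
            = a i * ∑ j, f j * g j - g i * ∑ j, a j * f j := by
          rw [Finset.mul_sum, Finset.mul_sum, ← Finset.sum_sub_distrib]
          refine Finset.sum_congr rfl fun j _ => ?_
          ring
        rw [this, hg, ← hy]; ring
      rw [e]
      exact Ideal.mul_mem_left _ _ (Ideal.mem_span_singleton_self y))
  obtain ⟨E01, e01⟩ := Ideal.mem_span_singleton'.1 h01
  obtain ⟨E02, e02⟩ := Ideal.mem_span_singleton'.1 h02
  obtain ⟨E03, e03⟩ := Ideal.mem_span_singleton'.1 h03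
  obtain ⟨E12, e12⟩ := Ideal.mem_span_singleton'.1 h12
  obtain ⟨E13, e13⟩ := Ideal.mem_span_singleton'.1 h13
  obtain ⟨E23, e23⟩ := Ideal.mem_span_singleton'.1 h23
  refine ⟨![![0, -E01, -E02, -E03], ![E01, 0, -E12, -E13], ![E02, E12, 0, -E23],
    ![E03, E13, E23, 0]], ?_, ?_⟩
  · intro i j
    fin_cases i <;> fin_cases j <;> simp
  · have key : ∀ i, y * (g i - ∑ j, f j * (![![0, -E01, -E02, -E03], ![E01, 0, -E12, -E13],
        ![E02, E12, 0, -E23], ![E03, E13, E23, 0]] : Fin 4 → Fin 4 → R) i j) = 0 := by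
      intro i
      rw [Fin.sum_univ_four]
      fin_cases i <;> simp only [Fin.zero_eta, Fin.mk_one, Fin.reduceFinMk,
        Matrix.cons_val_zero, Matrix.cons_val_one, Matrix.cons_val]
      · linear_combination f 1 * e01 + f 2 * e02 + f 3 * e03 + a 0 * hg' + g 0 * hy'
      · linear_combination -f 0 * e01 + f 2 * e12 + f 3 * e13 + a 1 * hg' + g 1 * hy'
      · linear_combination -f 0 * e02 - f 1 * e12 + f 3 * e23 + a 2 * hg' + g 2 * hy'
      · linear_combination -f 0 * e03 - f 1 * e13 - f 2 * e23 + a 3 * hg' + g 3 * hy'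
    intro i
    exact sub_eq_zero.1 (hreg _ (key i))

/-- **Exactness of the Koszul complex** of four elements whose ideal contains a regular
sequence of length four. -/
theorem koszul (f : Fin 4 → R) (a : Fin 4 → Fin 4 → R) (y : Fin 4 → R)
    (hy : ∀ k, y k = ∑ i, a k i * f i)
    (hr0 : ∀ c, y 0 * c = 0 → c = 0)
    (hr1 : ∀ c, y 1 * c ∈ Ideal.span {y 0} → c ∈ Ideal.span {y 0})
    (hr2 : ∀ c, y 2 * c ∈ Ideal.span {y 0} ⊔ Ideal.span {y 1} →
      c ∈ Ideal.span {y 0} ⊔ Ideal.span {y 1})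
    (hr3 : ∀ c, y 3 * c ∈ Ideal.span {y 0} ⊔ Ideal.span {y 1} ⊔ Ideal.span {y 2} →
      c ∈ Ideal.span {y 0} ⊔ Ideal.span {y 1} ⊔ Ideal.span {y 2})
    (g : Fin 4 → R) (hg : ∑ i, f i * g i = 0) :
    ∃ A : Fin 4 → Fin 4 → R, (∀ i j, A i j = - A j i) ∧ ∀ i, g i = ∑ j, f j * A i j := by
  refine koszul1 f (a 0) (y 0) (hy 0) hr0 ?_ g hg
  intro A hA hA0 hcyc
  refine koszul2 f (a 1) (y 1) (hy 1) _ hr1 ?_ A hA hA0 hcyc
  intro b hb
  refine koszul3 f (a 2) (y 2) (hy 2) _ hr2 ?_ b hb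
  intro c hc
  exact koszul4 f (a 3) (y 3) (hy 3) _ hr3 c hc

end Run7.h935
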