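import Pool.Agent.Run7.h935.Koszul
import Pool.Agent.Run7.h935.Defs

/-!
# The Koszul complex of the partial derivatives of `f` in four variables
-/

namespace Run7.h935

open MvPowerSeries

/-- The ideal of power series all of whose monomials are divisible by some `x_i^D`, `i ∈ S`. -/
noncomputable def powIdeal {m : ℕ} (S : Finset (Fin (m + 2))) (D : ℕ) : Ideal (PS m) where
  carrier := {c | ∀ n : Fin (m + 2) →₀ ℕ, (∀ i ∈ S, n i < D) → coeff n c = 0}
  add_mem' := by
    intro a b ha hb n hn
    rw [map_add, ha n hn, hb n hn, add_zero]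
  zero_mem' := by intro n _; simp
  smul_mem' := by
    classical
    intro c x hx n hn
    rw [smul_eq_mul, coeff_mul]
    refine Finset.sum_eq_zero fun p hp => ?_
    rw [Finset.HasAntidiagonal.mem_antidiagonal] at hp
    rw [hx p.2 ?_, mul_zero]
    intro i hi
    have := hn i hi
    rw [← hp, Finsupp.add_apply] at this
    omega

lemma mem_powIdeal {m : ℕ} (S : Finset (Fin (m + 2))) (D : ℕ) (c : PS m) :
    c ∈ powIdeal S D ↔ ∀ n : Fin (m + 2) →₀ ℕ, (∀ i ∈ S, n i < D) → coeff n c = 0 := Iff.rfl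

lemma powIdeal_empty {m : ℕ} (D : ℕ) : powIdeal (∅ : Finset (Fin (m + 2))) D = ⊥ := by
  rw [eq_bot_iff]
  intro c hc
  rw [Ideal.mem_bot]
  ext n
  exact hc n (by simp)

lemma coeff_X_pow_mul' {m : ℕ} (i : Fin (m + 2)) (D : ℕ) (c : PS m) (n : Fin (m + 2) →₀ ℕ) :
    coeff n ((X i : PS m) ^ D * c) = if D ≤ n i then coeff (n - Finsupp.single i D) c else 0 := by
  classical
  rw [X_pow_eq, coeff_monomial_mul]
  simp only [Finsupp.single_le_iff, one_mul]

lemma powIdeal_insert {m : ℕ} (S : Finset (Fin (m + 2))) (i : Fin (m + 2)) (D : ℕ) :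
    powIdeal (insert i S) D = powIdeal S D ⊔ Ideal.span {(X i : PS m) ^ D} := by
  apply le_antisymm
  · intro c hc
    set c'' : PS m := fun n => coeff (n + Finsupp.single i D) c with hc''
    have hcoef : ∀ n, coeff n c'' = coeff (n + Finsupp.single i D) c := fun n => rfl
    have h1 : c = (c - X i ^ D * c'') + c'' * X i ^ D := by ring
    rw [h1]
    refine Ideal.add_mem _ (Ideal.mem_sup_left ?_)
      (Ideal.mem_sup_right (Ideal.mul_mem_left _ _ (Ideal.mem_span_singleton_self _)))
    intro n hn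
    rw [map_sub, coeff_X_pow_mul']
    split_ifs with hD
    · rw [hcoef, tsub_add_cancel_of_le, sub_self]
      rw [Finsupp.single_le_iff]; exact hD
    · rw [sub_zero]
      apply hc n
      intro j hj
      rw [Finset.mem_insert] at hj
      rcases hj with rfl | hj
      · omega
      · exact hn j hj
  · rw [sup_le_iff]
    constructor
    · intro c hc n hn
      exact hc n fun j hj => hn j (Finset.mem_insert_of_mem hj)
    · rw [Ideal.span_singleton_le_iff_mem]
      intro n hn
      have h1 := coeff_X_pow_mul' i D (1 : PS m) n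
      rw [mul_one] at h1
      rw [h1, if_neg]
      have := hn i (Finset.mem_insert_self _ _)
      omega

lemma powIdeal_regular {m : ℕ} (S : Finset (Fin (m + 2))) (i : Fin (m + 2)) (hi : i ∉ S) (D : ℕ)
    (c : PS m) (hc : (X i : PS m) ^ D * c ∈ powIdeal S D) : c ∈ powIdeal S D := by
  intro n hn
  have h1 := hc (n + Finsupp.single i D) (by
    intro j hj
    have hne : j ≠ i := fun h => hi (h ▸ hj)
    rw [Finsupp.add_apply, Finsupp.single_eq_of_ne hne, add_zero]
    exact hn j hj)
  rw [coeff_X_pow_mul', if_pos (by simp), add_tsub_cancel_right] at h1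
  exact h1

/-- If all `x_i^D` lie in the Jacobian ideal, then the Koszul complex is exact at the relevant
spot (four variables). -/
theorem koszulPS (f : PS 2) (D : ℕ)
    (hD : ∀ i, (X i : PS 2) ^ D ∈ Ideal.span (Set.range fun j => dd j f))
    (g : VF 2) (hg : dfw f g = 0) :
    ∃ A : Fin 4 → Fin 4 → PS 2, (∀ i j, A i j = - A j i) ∧ ∀ i, g i = ∑ j, dd j f * A i j := by
  have h1 : ∀ i, ∃ a : Fin 4 → PS 2, (X i : PS 2) ^ D = ∑ j, a j * dd j f := by
    intro i
    obtain ⟨c, hc⟩ := (Submodule.mem_span_range_iff_exists_fun (PS 2)).1 (hD i)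
    exact ⟨c, by simpa [smul_eq_mul] using hc.symm⟩
  choose a ha using h1
  have e0 : Ideal.span {(X 0 : PS 2) ^ D} = powIdeal {0} D := by
    have := powIdeal_insert (∅ : Finset (Fin 4)) 0 D
    rw [powIdeal_empty, bot_sup_eq] at this
    rw [← this]; rfl
  have e1 : powIdeal {0} D ⊔ Ideal.span {(X 1 : PS 2) ^ D} = powIdeal {1, 0} D :=
    (powIdeal_insert _ _ _).symm
  have e2 : powIdeal {1, 0} D ⊔ Ideal.span {(X 2 : PS 2) ^ D} = powIdeal {2, 1, 0} D :=
    (powIdeal_insert _ _ _).symm
  refine koszul (fun j => dd j f) a (fun i => (X i : PS 2) ^ D) ha ?_ ?_ ?_ ?_ g ?_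
  · intro c hc
    have := powIdeal_regular (∅ : Finset (Fin 4)) 0 (by simp) D c (by
      rw [powIdeal_empty, Ideal.mem_bot]; exact hc)
    rwa [powIdeal_empty, Ideal.mem_bot] at this
  · intro c hc
    simp only [e0] at hc ⊢
    exact powIdeal_regular _ _ (by decide) D c hc
  · intro c hc
    simp only [e0, e1] at hc ⊢
    exact powIdeal_regular _ _ (by decide) D c hc
  · intro c hc
    simp only [e0, e1, e2] at hc ⊢
    exact powIdeal_regular _ _ (by decide) D c hc
  · rw [dfw_apply] at hg
    exact hg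

/-- trivial relations give the zero class in the Brieskorn lattice -/
theorem dvg_mem_brieskornRel_of_antisymm {m : ℕ} (f : PS m)
    (A : Fin (m + 2) → Fin (m + 2) → PS m) (hA : ∀ i j, A i j = - A j i) (g : VF m)
    (hg : ∀ i, g i = ∑ j, dd j f * A i j) : dvg g ∈ brieskornRel f := by
  have h1 : dvg g = dfw f (fun j => ∑ i, dd i (A i j)) := by
    rw [dvg_apply, dfw_apply]
    have h2 : ∀ i, dd i (g i) = ∑ j, (dd j f * dd i (A i j) + A i j * dd i (dd j f)) := by
      intro i
      rw [hg i, map_sum]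
      refine Finset.sum_congr rfl fun j _ => ?_
      rw [dd_mul]
    simp only [h2, Finset.sum_add_distrib]
    have h3 : ∑ i, ∑ j, A i j * dd i (dd j f) = 0 := by
      have h4 : ∑ i, ∑ j, A i j * dd i (dd j f) = - ∑ i, ∑ j, A i j * dd i (dd j f) := by
        conv_lhs => rw [Finset.sum_comm]
        rw [← Finset.sum_neg_distrib]
        refine Finset.sum_congr rfl fun i _ => ?_
        rw [← Finset.sum_neg_distrib]
        refine Finset.sum_congr rfl fun j _ => ?_
        rw [hA j i, dd_comm]; ring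
      have h5 : (2 : ℂ) • ∑ i, ∑ j, A i j * dd i (dd j f) = 0 := by
        rw [two_smul]; nth_rewrite 2 [h4]; simp
      simpa using h5
    rw [h3, add_zero, Finset.sum_comm]
    refine Finset.sum_congr rfl fun j _ => ?_
    rw [Finset.mul_sum]
  rw [h1, mem_brieskornRel_iff]
  refine ⟨_, ?_, rfl⟩
  rw [← mem_exactVF_iff]
  refine ⟨fun i j => A j i, fun i j => hA j i, fun i => rfl⟩

theorem dvg_mem_of_dfw_eq_zero (f : PS 2) (D : ℕ)
    (hD : ∀ i, (X i : PS 2) ^ D ∈ Ideal.span (Set.range fun j => dd j f))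
    (g : VF 2) (hg : dfw f g = 0) : dvg g ∈ brieskornRel f := by
  obtain ⟨A, hA, hA'⟩ := koszulPS f D hD g hg
  exact dvg_mem_brieskornRel_of_antisymm f A hA g hA'

end Run7.h935
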