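import Pool.Agent.Run7.h935.KoszulPS

/-!
# The Newton filtration of `x³y + xy³ + z⁴w + zw⁴ + xyzw`
-/

namespace Run7.h935

open MvPowerSeries

namespace NF

/-- exponents -/
abbrev E4 : Type := Fin 4 →₀ ℕ

/-- The four linear forms (times `60`) of the Newton polyhedron. -/
def cw : Fin 4 → Fin 4 → ℤ :=
  ![![24, 12, 12, 12], ![12, 24, 12, 12], ![15, 15, 20, 10], ![15, 15, 10, 20]]

lemma cw_ge (j i : Fin 4) : 10 ≤ cw j i := by
  fin_cases j <;> fin_cases i <;> decide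

lemma cw_le (j i : Fin 4) : cw j i ≤ 24 := by
  fin_cases j <;> fin_cases i <;> decide

/-- the value of the `j`-th form at the exponent `n` -/
def ell (j : Fin 4) (n : E4) : ℤ := ∑ i, cw j i * (n i : ℤ)

lemma ell_add (j : Fin 4) (n m : E4) : ell j (n + m) = ell j n + ell j m := by
  simp only [ell, Finsupp.add_apply, Nat.cast_add, mul_add, Finset.sum_add_distrib]

lemma ell_nonneg (j : Fin 4) (n : E4) : 0 ≤ ell j n := by
  apply Finset.sum_nonneg
  intro i _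
  have := cw_ge j i
  positivity

lemma ell_single (j i : Fin 4) (k : ℕ) : ell j (Finsupp.single i k) = cw j i * k := by
  unfold ell
  rw [Finset.sum_eq_single i]
  · simp
  · intro b _ hb
    rw [Finsupp.single_eq_of_ne hb]; simp
  · simp

/-- The ideal of power series all of whose exponents `n` satisfy `b j ≤ ell j n` for all `j`. -/
noncomputable def Q (b : Fin 4 → ℤ) : Ideal (PS 2) where
  carrier := {ω | ∀ n : E4, coeff n ω ≠ 0 → ∀ j, b j ≤ ell j n}
  add_mem' := by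
    intro x y hx hy n hn j
    by_cases h : coeff n x = 0
    · refine hy n ?_ j
      intro h'
      apply hn
      rw [map_add, h, h', add_zero]
    · exact hx n h j
  zero_mem' := by
    intro n hn
    exact absurd (by simp) hn
  smul_mem' := by
    classical
    intro c x hx n hn j
    rw [smul_eq_mul, coeff_mul] at hn
    obtain ⟨p, hp, hne⟩ := Finset.exists_ne_zero_of_sum_ne_zero hn
    rw [Finset.HasAntidiagonal.mem_antidiagonal] at hp
    have h1 := hx p.2 (right_ne_zero_of_mul hne) j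
    have h2 := ell_nonneg j p.1
    rw [← hp, ell_add]
    omega

lemma mem_Q {b : Fin 4 → ℤ} {ω : PS 2} :
    ω ∈ Q b ↔ ∀ n : E4, coeff n ω ≠ 0 → ∀ j, b j ≤ ell j n := Iff.rfl

lemma Q_anti {b b' : Fin 4 → ℤ} (h : ∀ j, b j ≤ b' j) : Q b' ≤ Q b :=
  fun _ hω n hn j => (h j).trans (hω n hn j)

lemma mul_mem_Q {b b' : Fin 4 → ℤ} {η ω : PS 2} (hη : η ∈ Q b) (hω : ω ∈ Q b') :
    η * ω ∈ Q (fun j => b j + b' j) := by
  classical
  intro n hn j
  rw [coeff_mul] at hn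
  obtain ⟨p, hp, hne⟩ := Finset.exists_ne_zero_of_sum_ne_zero hn
  rw [Finset.HasAntidiagonal.mem_antidiagonal] at hp
  have h1 := hη p.1 (left_ne_zero_of_mul hne) j
  have h2 := hω p.2 (right_ne_zero_of_mul hne) j
  rw [← hp, ell_add]
  show b j + b' j ≤ _
  omega

lemma smul_mem_Q {b : Fin 4 → ℤ} {ω : PS 2} (c : ℂ) (hω : ω ∈ Q b) : c • ω ∈ Q b := by
  intro n hn j
  refine hω n ?_ j
  intro h
  apply hn
  rw [coeff_smul, h, mul_zero]

lemma monomial_mem_Q {b : Fin 4 → ℤ} (n : E4) (c : ℂ) (h : ∀ j, b j ≤ ell j n) :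
    (monomial n c : PS 2) ∈ Q b := by
  classical
  intro m hm j
  rw [coeff_monomial] at hm
  have : m = n := by
    by_contra hne
    exact hm (if_neg hne)
  rw [this]; exact h j

lemma X_mem_Q (i : Fin 4) : (X i : PS 2) ∈ Q (fun j => cw j i) := by
  rw [X_def]
  apply monomial_mem_Q
  intro j
  rw [ell_single]; simp

lemma dd_mem_Q {b : Fin 4 → ℤ} {ω : PS 2} (i : Fin 4) (hω : ω ∈ Q b) :
    dd i ω ∈ Q (fun j => b j - cw j i) := by
  intro n hn j
  rw [coeff_dd] at hn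
  have h1 := hω _ (left_ne_zero_of_mul hn) j
  rw [ell_add, ell_single] at h1
  show b j - cw j i ≤ _
  push_cast at h1
  omega

/-- Vector fields of order at least `b`. -/
noncomputable def VQ (b : Fin 4 → ℤ) : Submodule (PS 2) (VF 2) where
  carrier := {g | ∀ i, g i ∈ Q (fun j => b j + cw j i)}
  add_mem' := by
    intro x y hx hy i
    exact Ideal.add_mem _ (hx i) (hy i)
  zero_mem' := by
    intro i
    exact Ideal.zero_mem _
  smul_mem' := by
    intro c x hx i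
    exact Ideal.mul_mem_left _ _ (hx i)

lemma mem_VQ {b : Fin 4 → ℤ} {g : VF 2} :
    g ∈ VQ b ↔ ∀ i, g i ∈ Q (fun j => b j + cw j i) := Iff.rfl

lemma VQ_anti {b b' : Fin 4 → ℤ} (h : ∀ j, b j ≤ b' j) : VQ b' ≤ VQ b :=
  fun _ hg i => Q_anti (fun j => by have := h j; omega) (hg i)

lemma mul_mem_VQ {b b' : Fin 4 → ℤ} {η : PS 2} {g : VF 2} (hη : η ∈ Q b) (hg : g ∈ VQ b') :
    η • g ∈ VQ (fun j => b j + b' j) := by
  intro i
  exact Q_anti (fun j => le_of_eq (by ring)) (mul_mem_Q hη (hg i))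

lemma dvg_mem_Q {b : Fin 4 → ℤ} {g : VF 2} (hg : g ∈ VQ b) : dvg g ∈ Q b := by
  rw [dvg_apply]
  refine Ideal.sum_mem _ fun i _ => ?_
  exact Q_anti (fun j => le_of_eq (by ring)) (dd_mem_Q i (hg i))

/-- The function `x³y + xy³ + z⁴w + zw⁴ + xyzw` as a power series. -/
noncomputable def fS : PS 2 :=
  X 0 ^ 3 * X 1 + X 0 * X 1 ^ 3 + X 2 ^ 4 * X 3 + X 2 * X 3 ^ 4 + X 0 * X 1 * X 2 * X 3

lemma dd_one' (i : Fin 4) : dd i (1 : PS 2) = 0 := by
  rw [dd_apply]; exact Derivation.map_one_eq_zero _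

lemma dd_zero_fS : dd 0 fS = 3 * X 0 ^ 2 * X 1 + X 1 ^ 3 + X 1 * X 2 * X 3 := by
  simp only [fS, map_add, dd_mul, pow_succ, pow_zero, dd_X, dd_one']
  simp
  ring

lemma dd_one_fS : dd 1 fS = X 0 ^ 3 + 3 * X 0 * X 1 ^ 2 + X 0 * X 2 * X 3 := by
  simp only [fS, map_add, dd_mul, pow_succ, pow_zero, dd_X, dd_one']
  simp
  ring

lemma dd_two_fS : dd 2 fS = 4 * X 2 ^ 3 * X 3 + X 3 ^ 4 + X 0 * X 1 * X 3 := by
  simp only [fS, map_add, dd_mul, pow_succ, pow_zero, dd_X, dd_one']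
  simp
  ring

lemma dd_three_fS : dd 3 fS = X 2 ^ 4 + 4 * X 2 * X 3 ^ 3 + X 0 * X 1 * X 2 := by
  simp only [fS, map_add, dd_mul, pow_succ, pow_zero, dd_X, dd_one']
  simp
  ring

/-- exponent with given entries -/
noncomputable def q4 (a b c d : ℕ) : E4 := Finsupp.equivFunOnFinite.symm ![a, b, c, d]

@[simp] lemma q4_zero (a b c d : ℕ) : q4 a b c d 0 = a := rfl
@[simp] lemma q4_one (a b c d : ℕ) : q4 a b c d 1 = b := rfl
@[simp] lemma q4_two (a b c d : ℕ) : q4 a b c d 2 = c := rfl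
@[simp] lemma q4_three (a b c d : ℕ) : q4 a b c d 3 = d := rfl

lemma eq_q4 (n : E4) : n = q4 (n 0) (n 1) (n 2) (n 3) := by
  ext i
  fin_cases i <;> rfl

lemma q4_add (a b c d a' b' c' d' : ℕ) :
    q4 a b c d + q4 a' b' c' d' = q4 (a + a') (b + b') (c + c') (d + d') := by
  ext i
  fin_cases i <;> rfl

lemma ell_q4_zero (a b c d : ℕ) :
    ell 0 (q4 a b c d) = 24 * a + 12 * b + 12 * c + 12 * d := by
  unfold ell
  rw [Fin.sum_univ_four]
  rfl

lemma ell_q4_one (a b c d : ℕ) :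
    ell 1 (q4 a b c d) = 12 * a + 24 * b + 12 * c + 12 * d := by
  unfold ell
  rw [Fin.sum_univ_four]
  rfl

lemma ell_q4_two (a b c d : ℕ) :
    ell 2 (q4 a b c d) = 15 * a + 15 * b + 20 * c + 10 * d := by
  unfold ell
  rw [Fin.sum_univ_four]
  rfl

lemma ell_q4_three (a b c d : ℕ) :
    ell 3 (q4 a b c d) = 15 * a + 15 * b + 10 * c + 20 * d := by
  unfold ell
  rw [Fin.sum_univ_four]
  rfl

/-- monomials -/
noncomputable def mon (a b c d : ℕ) : PS 2 := monomial (q4 a b c d) 1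

lemma mon_eq (a b c d : ℕ) : mon a b c d = X 0 ^ a * X 1 ^ b * X 2 ^ c * X 3 ^ d := by
  unfold mon
  rw [X_pow_eq, X_pow_eq, X_pow_eq, X_pow_eq, monomial_mul_monomial, monomial_mul_monomial,
    monomial_mul_monomial]
  simp only [mul_one]
  have h : q4 a b c d = Finsupp.single 0 a + Finsupp.single 1 b + Finsupp.single 2 c
      + Finsupp.single 3 d := by
    ext i
    fin_cases i <;> simp [q4]
  rw [h]

lemma mon_mul (a b c d a' b' c' d' : ℕ) :
    mon a b c d * mon a' b' c' d' = mon (a + a') (b + b') (c + c') (d + d') := by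
  unfold mon
  rw [monomial_mul_monomial, mul_one, q4_add]

/-- the order of a monomial -/
def hN (a b c d : ℕ) : ℕ :=
  min (min (24 * a + 12 * b + 12 * c + 12 * d) (12 * a + 24 * b + 12 * c + 12 * d))
    (min (15 * a + 15 * b + 20 * c + 10 * d) (15 * a + 15 * b + 10 * c + 20 * d))

lemma le_hN_iff (a b c d : ℕ) (t : ℤ) :
    (∀ j, t ≤ ell j (q4 a b c d)) ↔ t ≤ (hN a b c d : ℤ) := by
  unfold hN
  constructor
  · intro h
    have h0 := h 0
    have h1 := h 1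
    have h2 := h 2
    have h3 := h 3
    rw [ell_q4_zero] at h0
    rw [ell_q4_one] at h1
    rw [ell_q4_two] at h2
    rw [ell_q4_three] at h3
    omega
  · intro h j
    fin_cases j
    · show t ≤ ell 0 (q4 a b c d)
      rw [ell_q4_zero]; omega
    · show t ≤ ell 1 (q4 a b c d)
      rw [ell_q4_one]; omega
    · show t ≤ ell 2 (q4 a b c d)
      rw [ell_q4_two]; omega
    · show t ≤ ell 3 (q4 a b c d)
      rw [ell_q4_three]; omega

lemma mon_mem_Q (a b c d : ℕ) (t : ℤ) (h : t ≤ hN a b c d) : mon a b c d ∈ Q (fun _ => t) :=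
  monomial_mem_Q _ _ ((le_hN_iff a b c d t).2 h)

lemma fS_eq_mon : fS = mon 3 1 0 0 + mon 1 3 0 0 + mon 0 0 4 1 + mon 0 0 1 4 + mon 1 1 1 1 := by
  simp only [mon_eq, fS]
  ring

lemma fS_mem_Q : fS ∈ Q (fun _ => 60) := by
  rw [fS_eq_mon]
  have h : ∀ a b c d : ℕ, 60 ≤ hN a b c d → mon a b c d ∈ Q (fun _ => 60) :=
    fun a b c d h => mon_mem_Q a b c d 60 (by exact_mod_cast h)
  refine Ideal.add_mem _ (Ideal.add_mem _ (Ideal.add_mem _ (Ideal.add_mem _ ?_ ?_) ?_) ?_) ?_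
  all_goals exact h _ _ _ _ (by decide)

lemma dfw_mem_Q {b : Fin 4 → ℤ} {g : VF 2} (hg : g ∈ VQ b) :
    dfw fS g ∈ Q (fun j => b j + 60) := by
  rw [dfw_apply]
  refine Ideal.sum_mem _ fun i _ => ?_
  exact Q_anti (fun j => le_of_eq (by ring)) (mul_mem_Q (dd_mem_Q i fS_mem_Q) (hg i))

/-- `dfw fS (VQ b)` as an ideal. -/
noncomputable def DI (b : Fin 4 → ℤ) : Ideal (PS 2) where
  carrier := {ω | ∃ g ∈ VQ b, dfw fS g = ω}
  add_mem' := by
    rintro x y ⟨g, hg, rfl⟩ ⟨g', hg', rfl⟩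
    exact ⟨g + g', Submodule.add_mem _ hg hg', by rw [map_add]⟩
  zero_mem' := ⟨0, Submodule.zero_mem _, by simp⟩
  smul_mem' := by
    rintro c x ⟨g, hg, rfl⟩
    refine ⟨c • g, Submodule.smul_mem _ _ hg, ?_⟩
    exact dfw_smul_mul fS c g

lemma mem_DI {b : Fin 4 → ℤ} {ω : PS 2} : ω ∈ DI b ↔ ∃ g ∈ VQ b, dfw fS g = ω := Iff.rfl

lemma DI_anti {b b' : Fin 4 → ℤ} (h : ∀ j, b j ≤ b' j) : DI b' ≤ DI b := by
  rintro _ ⟨g, hg, rfl⟩
  exact ⟨g, VQ_anti h hg, rfl⟩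

lemma DI_le_Q (b : Fin 4 → ℤ) : DI b ≤ Q (fun j => b j + 60) := by
  rintro _ ⟨g, hg, rfl⟩
  exact dfw_mem_Q hg

lemma mul_mem_DI {b b' : Fin 4 → ℤ} {η ω : PS 2} (hη : η ∈ Q b) (hω : ω ∈ DI b') :
    η * ω ∈ DI (fun j => b j + b' j) := by
  obtain ⟨g, hg, rfl⟩ := hω
  exact ⟨η • g, mul_mem_VQ hη hg, dfw_smul_mul fS η g⟩

end NF

end Run7.h935
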