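import Pool.Agent.Run7.h935.NF

/-!
# Weighted primitives and the V-filtration
-/

namespace Run7.h935

open MvPowerSeries

namespace NF

lemma cw_sum (j : Fin 4) : ∑ i, cw j i = 60 := by
  fin_cases j <;> decide

lemma ell_add_pos (j : Fin 4) (n : E4) : ((ell j n + 60 : ℤ) : ℂ) ≠ 0 := by
  have := ell_nonneg j n
  rw [Int.cast_ne_zero]
  omega

/-- division of the coefficient of `x^n` by `L_j (n + 1)` -/
noncomputable def rsc (j : Fin 4) (ω : PS 2) : PS 2 :=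
  fun n => ((ell j n + 60 : ℤ) : ℂ)⁻¹ * coeff n ω

lemma coeff_rsc (j : Fin 4) (ω : PS 2) (n : E4) :
    coeff n (rsc j ω) = ((ell j n + 60 : ℤ) : ℂ)⁻¹ * coeff n ω := rfl

lemma rsc_mem_Q {b : Fin 4 → ℤ} {ω : PS 2} (j : Fin 4) (hω : ω ∈ Q b) : rsc j ω ∈ Q b := by
  intro n hn
  rw [coeff_rsc] at hn
  exact hω n (right_ne_zero_of_mul hn)

/-- weighted primitive -/
noncomputable def pj (j : Fin 4) (ω : PS 2) : VF 2 :=
  fun i => ((cw j i : ℤ) : ℂ) • (X i * rsc j ω)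

lemma pj_mem_VQ {b : Fin 4 → ℤ} {ω : PS 2} (j : Fin 4) (hω : ω ∈ Q b) : pj j ω ∈ VQ b := by
  intro i
  apply smul_mem_Q
  exact Q_anti (fun k => le_of_eq (by ring)) (mul_mem_Q (X_mem_Q i) (rsc_mem_Q j hω))

lemma dvg_pj (j : Fin 4) (ω : PS 2) : dvg (pj j ω) = ω := by
  ext n
  rw [dvg_apply, map_sum]
  have h1 : ∀ i, coeff n (dd i (pj j ω i))
      = ((cw j i * (n i : ℤ) + cw j i : ℤ) : ℂ) * coeff n (rsc j ω) := by
    intro i
    unfold pj
    rw [map_smul, coeff_smul, dd_mul, dd_X, if_pos rfl, mul_one, map_add, coeff_X_mul_dd]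
    push_cast; ring
  have h2 : (∑ i, coeff n (dd i (pj j ω i))) = ∑ i, ((cw j i * (n i : ℤ) + cw j i : ℤ) : ℂ)
      * coeff n (rsc j ω) := Finset.sum_congr rfl fun i _ => h1 i
  refine Eq.trans h2 ?_
  rw [← Finset.sum_mul, ← Int.cast_sum, Finset.sum_add_distrib, cw_sum, coeff_rsc]
  change ((ell j n + 60 : ℤ) : ℂ) * _ = _
  rw [← mul_assoc, mul_inv_cancel₀ (ell_add_pos j n), one_mul]

/-- the vertex monomials -/
noncomputable def vmon : Fin 4 → PS 2 := ![mon 3 1 0 0, mon 1 3 0 0, mon 0 0 4 1, mon 0 0 1 4]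

/-- the coefficients -/
def eps : Fin 4 → ℂ := ![24, 24, 30, 30]

lemma vmon_mem_Q (j : Fin 4) : vmon j ∈ Q (fun i => 60 + if i = j then 1 else 0) := by
  fin_cases j
  · show mon 3 1 0 0 ∈ _
    apply monomial_mem_Q
    intro i
    fin_cases i
    · exact (ell_q4_zero 3 1 0 0).symm ▸ (by norm_num)
    · exact (ell_q4_one 3 1 0 0).symm ▸ (by norm_num)
    · exact (ell_q4_two 3 1 0 0).symm ▸ (by norm_num)
    · exact (ell_q4_three 3 1 0 0).symm ▸ (by norm_num)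
  · show mon 1 3 0 0 ∈ _
    apply monomial_mem_Q
    intro i
    fin_cases i
    · exact (ell_q4_zero 1 3 0 0).symm ▸ (by norm_num)
    · exact (ell_q4_one 1 3 0 0).symm ▸ (by norm_num)
    · exact (ell_q4_two 1 3 0 0).symm ▸ (by norm_num)
    · exact (ell_q4_three 1 3 0 0).symm ▸ (by norm_num)
  · show mon 0 0 4 1 ∈ _
    apply monomial_mem_Q
    intro i
    fin_cases i
    · exact (ell_q4_zero 0 0 4 1).symm ▸ (by norm_num)
    · exact (ell_q4_one 0 0 4 1).symm ▸ (by norm_num)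
    · exact (ell_q4_two 0 0 4 1).symm ▸ (by norm_num)
    · exact (ell_q4_three 0 0 4 1).symm ▸ (by norm_num)
  · show mon 0 0 1 4 ∈ _
    apply monomial_mem_Q
    intro i
    fin_cases i
    · exact (ell_q4_zero 0 0 1 4).symm ▸ (by norm_num)
    · exact (ell_q4_one 0 0 1 4).symm ▸ (by norm_num)
    · exact (ell_q4_two 0 0 1 4).symm ▸ (by norm_num)
    · exact (ell_q4_three 0 0 1 4).symm ▸ (by norm_num)

lemma dfw_pj (j : Fin 4) (ω : PS 2) :
    dfw fS (pj j ω) = 60 * fS * rsc j ω + eps j • (vmon j * rsc j ω) := by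
  have h0 : dfw fS (pj j ω) = ∑ i : Fin 4, dd i fS * (((cw j i : ℤ) : ℂ) • (X i * rsc j ω)) := by
    rw [dfw_apply]; rfl
  rw [h0, Fin.sum_univ_four, dd_zero_fS, dd_one_fS, dd_two_fS, dd_three_fS]
  simp only [MvPowerSeries.smul_eq_C_mul]
  fin_cases j
  · have e : (eps (⟨0, by norm_num⟩ : Fin 4)) = 24 := rfl
    have v : vmon (⟨0, by norm_num⟩ : Fin 4) = mon 3 1 0 0 := rfl
    have c0 : cw (⟨0, by norm_num⟩ : Fin 4) 0 = 24 := rfl
    have c1 : cw (⟨0, by norm_num⟩ : Fin 4) 1 = 12 := rfl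
    have c2 : cw (⟨0, by norm_num⟩ : Fin 4) 2 = 12 := rfl
    have c3 : cw (⟨0, by norm_num⟩ : Fin 4) 3 = 12 := rfl
    rw [e, v, c0, c1, c2, c3, mon_eq, fS]
    simp only [Int.cast_ofNat, map_ofNat]
    ring
  · have e : (eps (⟨1, by norm_num⟩ : Fin 4)) = 24 := rfl
    have v : vmon (⟨1, by norm_num⟩ : Fin 4) = mon 1 3 0 0 := rfl
    have c0 : cw (⟨1, by norm_num⟩ : Fin 4) 0 = 12 := rfl
    have c1 : cw (⟨1, by norm_num⟩ : Fin 4) 1 = 24 := rfl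
    have c2 : cw (⟨1, by norm_num⟩ : Fin 4) 2 = 12 := rfl
    have c3 : cw (⟨1, by norm_num⟩ : Fin 4) 3 = 12 := rfl
    rw [e, v, c0, c1, c2, c3, mon_eq, fS]
    simp only [Int.cast_ofNat, map_ofNat]
    ring
  · have e : (eps (⟨2, by norm_num⟩ : Fin 4)) = 30 := rfl
    have v : vmon (⟨2, by norm_num⟩ : Fin 4) = mon 0 0 4 1 := rfl
    have c0 : cw (⟨2, by norm_num⟩ : Fin 4) 0 = 15 := rfl
    have c1 : cw (⟨2, by norm_num⟩ : Fin 4) 1 = 15 := rfl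
    have c2 : cw (⟨2, by norm_num⟩ : Fin 4) 2 = 20 := rfl
    have c3 : cw (⟨2, by norm_num⟩ : Fin 4) 3 = 10 := rfl
    rw [e, v, c0, c1, c2, c3, mon_eq, fS]
    simp only [Int.cast_ofNat, map_ofNat]
    ring
  · have e : (eps (⟨3, by norm_num⟩ : Fin 4)) = 30 := rfl
    have v : vmon (⟨3, by norm_num⟩ : Fin 4) = mon 0 0 1 4 := rfl
    have c0 : cw (⟨3, by norm_num⟩ : Fin 4) 0 = 15 := rfl
    have c1 : cw (⟨3, by norm_num⟩ : Fin 4) 1 = 15 := rfl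
    have c2 : cw (⟨3, by norm_num⟩ : Fin 4) 2 = 10 := rfl
    have c3 : cw (⟨3, by norm_num⟩ : Fin 4) 3 = 20 := rfl
    rw [e, v, c0, c1, c2, c3, mon_eq, fS]
    simp only [Int.cast_ofNat, map_ofNat]
    ring

/-- one step of the nilpotency -/
lemma nil_step (j : Fin 4) (b : Fin 4 → ℤ) (ω : PS 2) (hω : ω ∈ Q b) (α : ℚ)
    (hα : 60 * α = b j + 60) :
    fS * ω - (α : ℂ) • dfw fS (pj j ω) ∈ Q (fun i => b i + 60 + if i = j then 1 else 0) := by
  have hα' : (60 : ℂ) * (α : ℂ) = ((b j + 60 : ℤ) : ℂ) := by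
    have : ((60 * α : ℚ) : ℂ) = ((b j + 60 : ℚ) : ℂ) := by rw [hα]
    push_cast at this ⊢
    exact this
  have h1 : fS * ω - (α : ℂ) • dfw fS (pj j ω)
      = fS * (ω - ((b j + 60 : ℤ) : ℂ) • rsc j ω)
        - ((α : ℂ) * eps j) • (vmon j * rsc j ω) := by
    rw [dfw_pj, ← hα']
    simp only [MvPowerSeries.smul_eq_C_mul, map_mul, map_ofNat]
    ring
  rw [h1]
  have h2 : ω - ((b j + 60 : ℤ) : ℂ) • rsc j ω ∈ Q (fun i => b i + if i = j then 1 else 0) := by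
    intro n hn i
    have hn' : coeff n ω ≠ 0 ∧ ell j n ≠ b j := by
      constructor
      · intro h
        apply hn
        rw [map_sub, coeff_smul, coeff_rsc, h]; simp
      · intro h
        apply hn
        rw [map_sub, coeff_smul, coeff_rsc, ← h, ← mul_assoc, mul_inv_cancel₀ (ell_add_pos j n)]
        simp
    have h3 := hω n hn'.1 i
    show b i + (if i = j then 1 else 0) ≤ ell i n
    split_ifs with hij
    · subst hij
      have := hn'.2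
      omega
    · omega
  refine Ideal.sub_mem _ ?_ ?_
  · exact Q_anti (fun i => le_of_eq (by ring)) (mul_mem_Q fS_mem_Q h2)
  · apply smul_mem_Q
    exact Q_anti (fun i => le_of_eq (by ring)) (mul_mem_Q (vmon_mem_Q j) (rsc_mem_Q j hω))

/-- The V-filtration. -/
noncomputable def Vf (α : ℚ) : Submodule ℂ (Brieskorn fS) :=
  ((Q (fun _ => ⌈60 * α⌉ - 60)).restrictScalars ℂ).map (brieskornRel fS).mkQ

lemma mem_Vf {α : ℚ} {x : Brieskorn fS} :
    x ∈ Vf α ↔ ∃ ω ∈ Q (fun _ => ⌈60 * α⌉ - 60), (brieskornRel fS).mkQ ω = x := by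
  unfold Vf
  rw [Submodule.mem_map]
  rfl

lemma Vf_anti (α β : ℚ) (h : α ≤ β) : Vf β ≤ Vf α := by
  intro x hx
  rw [mem_Vf] at hx ⊢
  obtain ⟨ω, hω, rfl⟩ := hx
  refine ⟨ω, Q_anti (fun _ => ?_) hω, rfl⟩
  have : ⌈60 * α⌉ ≤ ⌈60 * β⌉ := Int.ceil_le_ceil (by linarith)
  omega

lemma Vf_discrete (α : ℚ) : Vf α = Vf ((⌈((60 : ℕ) : ℚ) * α⌉ : ℚ) / (60 : ℕ)) := by
  unfold Vf
  have h : ⌈60 * ((⌈((60 : ℕ) : ℚ) * α⌉ : ℚ) / (60 : ℕ))⌉ = ⌈60 * α⌉ := by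
    have h1 : 60 * ((⌈((60 : ℕ) : ℚ) * α⌉ : ℚ) / (60 : ℕ)) = ((⌈60 * α⌉ : ℤ) : ℚ) := by
      push_cast; ring
    rw [h1, Int.ceil_intCast]
  rw [h]

lemma Vf_exhaustive : Vf 0 = ⊤ := by
  rw [eq_top_iff]
  intro x _
  obtain ⟨ω, rfl⟩ := (brieskornRel fS).mkQ_surjective x
  rw [mem_Vf]
  refine ⟨ω, ?_, rfl⟩
  intro n _ j
  have := ell_nonneg j n
  simp only [mul_zero, Int.ceil_zero]
  omega

lemma ceil_add_one (α : ℚ) : ⌈60 * (α + 1)⌉ = ⌈60 * α⌉ + 60 := by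
  have : 60 * (α + 1) = 60 * α + ((60 : ℤ) : ℚ) := by push_cast; ring
  rw [this, Int.ceil_add_intCast]

lemma s_mem_Vf (α : ℚ) (x : Brieskorn fS) (hx : x ∈ Vf α) : sOp fS x ∈ Vf (α + 1) := by
  rw [mem_Vf] at hx ⊢
  obtain ⟨ω, hω, rfl⟩ := hx
  refine ⟨dfw fS (pj 0 ω), ?_, ?_⟩
  · refine Q_anti (fun _ => ?_) (dfw_mem_Q (pj_mem_VQ 0 hω))
    rw [ceil_add_one]; omega
  · have := sOp_mk_dvg fS (pj 0 ω)
    rw [dvg_pj] at this
    exact this.symm

lemma t_mem_Vf (α : ℚ) (x : Brieskorn fS) (hx : x ∈ Vf α) : tOp fS x ∈ Vf (α + 1) := by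
  rw [mem_Vf] at hx ⊢
  obtain ⟨ω, hω, rfl⟩ := hx
  refine ⟨fS * ω, ?_, rfl⟩
  refine Q_anti (fun _ => ?_) (mul_mem_Q fS_mem_Q hω)
  rw [ceil_add_one]; omega

lemma shift_mem_Vf (α β : ℚ) (k : ℕ) (x : Brieskorn fS) (hx : x ∈ Vf β) :
    shiftProd (tOp fS) (sOp fS) α k x ∈ Vf (β + k) := by
  induction k with
  | zero => simpa [shiftProd] using hx
  | succ k ih =>
    have h1 : shiftProd (tOp fS) (sOp fS) α (k + 1) x = tOp fS (shiftProd (tOp fS) (sOp fS) α k x)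
        - ((α + k : ℚ) : ℂ) • sOp fS (shiftProd (tOp fS) (sOp fS) α k x) := rfl
    rw [h1]
    have h2 : β + ((k + 1 : ℕ) : ℚ) = β + k + 1 := by push_cast; ring
    rw [h2]
    exact Submodule.sub_mem _ (t_mem_Vf _ _ ih) (Submodule.smul_mem _ _ (s_mem_Vf _ _ ih))

lemma Vf_le_VGt (α β : ℚ) (h : α < β) : Vf β ≤ VGt Vf α := le_iSup₂_of_le β h le_rfl

lemma nil_step' (j : Fin 4) (b : Fin 4 → ℤ) (x : Brieskorn fS)
    (hx : ∃ ω ∈ Q b, (brieskornRel fS).mkQ ω = x) (α : ℚ) (hα : 60 * α = b j + 60) :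
    ∃ ω ∈ Q (fun i => b i + 60 + if i = j then 1 else 0),
      (brieskornRel fS).mkQ ω = tOp fS x - (α : ℂ) • sOp fS x := by
  obtain ⟨ω, hω, rfl⟩ := hx
  refine ⟨_, nil_step j b ω hω α hα, ?_⟩
  rw [map_sub, map_smul, ← tOp_mk, ← sOp_mk_dvg, dvg_pj]

lemma Vf_nilpotent (α : ℚ) (x : Brieskorn fS) (hx : x ∈ Vf α) :
    shiftProd (tOp fS) (sOp fS) α 4 x ∈ VGt Vf (α + (4 : ℕ)) := by
  by_cases hα : (⌈60 * α⌉ : ℚ) = 60 * α
  · -- integral case
    rw [mem_Vf] at hx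
    set a : ℤ := ⌈60 * α⌉ - 60 with ha
    have haα : (60 : ℚ) * α = a + 60 := by rw [← hα, ha]; push_cast; ring
    obtain ⟨ω1, h1, e1⟩ := nil_step' 0 _ x hx (α + (0 : ℕ)) (by push_cast; linarith)
    obtain ⟨ω2, h2, e2⟩ := nil_step' 1 _ _ ⟨ω1, h1, e1⟩ (α + (1 : ℕ)) (by
      simp only [show (1 : Fin 4) ≠ 0 by decide, if_false]; push_cast; linarith)
    obtain ⟨ω3, h3, e3⟩ := nil_step' 2 _ _ ⟨ω2, h2, e2⟩ (α + (2 : ℕ)) (by
      simp only [show (2 : Fin 4) ≠ 0 by decide, show (2 : Fin 4) ≠ 1 by decide, if_false]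
      push_cast; linarith)
    obtain ⟨ω4, h4, e4⟩ := nil_step' 3 _ _ ⟨ω3, h3, e3⟩ (α + (3 : ℕ)) (by
      simp only [show (3 : Fin 4) ≠ 0 by decide, show (3 : Fin 4) ≠ 1 by decide,
        show (3 : Fin 4) ≠ 2 by decide, if_false]
      push_cast; linarith)
    have h5 : ω4 ∈ Q (fun _ => a + 241) := by
      refine Q_anti (fun j => ?_) h4
      fin_cases j <;> simp <;> omega
    have h6 : shiftProd (tOp fS) (sOp fS) α 4 x ∈ Vf (α + 4 + 1 / 60) := by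
      rw [mem_Vf]
      refine ⟨ω4, ?_, e4⟩
      have h7 : 60 * (α + 4 + 1 / 60) = ((a + 60 + 241 : ℤ) : ℚ) := by
        push_cast; linarith
      rw [h7, Int.ceil_intCast]
      refine Q_anti (fun _ => ?_) h5
      omega
    refine Vf_le_VGt _ _ ?_ h6
    push_cast; linarith
  · have h1 : 60 * α < ⌈60 * α⌉ := lt_of_le_of_ne (Int.le_ceil _) (Ne.symm hα)
    have h2 : x ∈ Vf ((⌈60 * α⌉ : ℚ) / 60) := by
      have := Vf_discrete α
      rw [this] at hx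
      push_cast at hx
      exact hx
    have h3 := shift_mem_Vf α _ 4 x h2
    refine Vf_le_VGt _ _ ?_ h3
    push_cast
    linarith

/-- The V-filtration axioms, given the two facts on the Jacobian ideal. -/
theorem isVFiltration_of
    (hT : ∀ (a : ℤ) (ω : PS 2), ω ∈ Q (fun _ => a + 60) → (∃ g, dfw fS g = ω) →
      ω ∈ DI (fun _ => a))
    (hBig : ∀ a : ℤ, 120 < a → Q (fun _ => a) ≤ DI (fun _ => a - 60)) :
    IsVFiltration (tOp fS) (sOp fS) Vf := by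
  have hD : ∀ i : Fin 4, (X i : PS 2) ^ 13 ∈ Ideal.span (Set.range fun j => dd j fS) := by
    intro i
    have h1 : (X i : PS 2) ^ 13 ∈ Q (fun _ => 130) := by
      rw [X_pow_eq]
      apply monomial_mem_Q
      intro j
      rw [ell_single]
      have := cw_ge j i
      push_cast; omega
    obtain ⟨g, -, hg⟩ := hBig 130 (by norm_num) h1
    rw [← hg, dfw_apply]
    refine Ideal.sum_mem _ fun j _ => ?_
    exact Ideal.mul_mem_right _ _ (Ideal.subset_span ⟨j, rfl⟩)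
  refine ⟨Vf_anti, ⟨60, by norm_num, Vf_discrete⟩, ⟨0, Vf_exhaustive⟩, ?_, t_mem_Vf, ⟨4, ?_⟩,
    fun α => ⟨4, Vf_nilpotent α⟩⟩
  · intro α x
    constructor
    · intro hx
      obtain ⟨ω, rfl⟩ := (brieskornRel fS).mkQ_surjective x
      have h1 : sOp fS ((brieskornRel fS).mkQ ω) = (brieskornRel fS).mkQ (dfw fS (pj 0 ω)) := by
        have := sOp_mk_dvg fS (pj 0 ω)
        rwa [dvg_pj] at this
      rw [h1, mem_Vf] at hx
      obtain ⟨η, hη, h2⟩ := hx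
      rw [← sub_eq_zero, ← map_sub, Submodule.mkQ_apply, Submodule.Quotient.mk_eq_zero,
        mem_brieskornRel_iff] at h2
      obtain ⟨g', hg', h3⟩ := h2
      have h4 : dfw fS (g' + pj 0 ω) = η := by
        rw [map_add, h3]; ring
      have h5 : η ∈ DI (fun _ => ⌈60 * α⌉ - 60) := by
        refine hT _ η ?_ ⟨_, h4⟩
        refine Q_anti (fun _ => ?_) hη
        rw [ceil_add_one]; omega
      obtain ⟨k, hk, h6⟩ := h5
      have h7 : dfw fS (g' + pj 0 ω - k) = 0 := by rw [map_sub, h4, h6, sub_self]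
      have h8 := dvg_mem_of_dfw_eq_zero fS 13 hD _ h7
      rw [map_sub, map_add, hg', dvg_pj, zero_add] at h8
      rw [mem_Vf]
      refine ⟨dvg k, dvg_mem_Q hk, ?_⟩
      rw [← sub_eq_zero, ← map_sub, Submodule.mkQ_apply, Submodule.Quotient.mk_eq_zero]
      have h9 : dvg k - ω = -(ω - dvg k) := by ring
      rw [h9]
      exact Submodule.neg_mem _ h8
    · exact s_mem_Vf α x
  · intro x hx
    rw [mem_Vf] at hx
    obtain ⟨ω, hω, rfl⟩ := hx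
    have h1 : ω ∈ Q (fun _ => 180) := by
      refine Q_anti (fun _ => ?_) hω
      have : ⌈(60 : ℚ) * 4⌉ = 240 := by
        have : (60 : ℚ) * 4 = ((240 : ℤ) : ℚ) := by norm_num
        rw [this, Int.ceil_intCast]
      omega
    obtain ⟨g, -, hg⟩ := hBig 180 (by norm_num) h1
    exact ⟨(brieskornRel fS).mkQ (dvg g), by rw [sOp_mk_dvg, hg]⟩

end NF

end Run7.h935
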