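import Pool.Agent.Run7.h935.Cert

/-!
# Spanning: the Jacobian ideal and the Newton filtration
-/

namespace Run7.h935

open MvPowerSeries

namespace NF

lemma monomial_eq_monT (n : E4) : (monomial n 1 : PS 2) = monT (n 0, n 1, n 2, n 3) := by
  unfold monT mon
  rw [← eq_q4 n]

lemma le_hK_iff (q : T4) (t : ℤ) :
    (∀ j, t ≤ ell j (q4 q.1 q.2.1 q.2.2.1 q.2.2.2)) ↔ t ≤ (hK q : ℤ) := by
  obtain ⟨a, b, c, d⟩ := q
  rw [le_hN_iff, hK_eq]

lemma le_hK_iff' (n : E4) (t : ℤ) :
    (∀ j, t ≤ ell j n) ↔ t ≤ (hK (n 0, n 1, n 2, n 3) : ℤ) := by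
  have := le_hK_iff (n 0, n 1, n 2, n 3) t
  rw [← this]
  simp only [← eq_q4 n]

lemma powIdeal_le {I : Ideal (PS 2)} (D : ℕ) (h : ∀ i, (X i : PS 2) ^ D ∈ I)
    (S : Finset (Fin (2 + 2))) : powIdeal S D ≤ I := by
  induction S using Finset.induction_on with
  | empty => rw [powIdeal_empty]; exact bot_le
  | insert i S _ ih =>
    rw [powIdeal_insert, sup_le_iff]
    exact ⟨ih, (Ideal.span_singleton_le_iff_mem _).2 (h i)⟩

/-- the part of `ω` in a box -/
noncomputable def boxPart (D : ℕ) (ω : PS 2) : PS 2 :=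
  ∑ n ∈ Finset.Iic (q4 D D D D), coeff n ω • (monomial n 1 : PS 2)

lemma mem_box (D : ℕ) (n : E4) : n ∈ Finset.Iic (q4 D D D D) ↔ ∀ i, n i ≤ D := by
  rw [Finset.mem_Iic, Finsupp.le_def]
  constructor
  · intro h i
    have := h i
    fin_cases i <;> exact this
  · intro h i
    have := h i
    fin_cases i <;> exact this

lemma sub_boxPart (D : ℕ) (ω : PS 2) : ω - boxPart D ω ∈ powIdeal Finset.univ (D + 1) := by
  classical
  intro m hm
  have hm' : m ∈ Finset.Iic (q4 D D D D) := by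
    rw [mem_box]
    intro i
    have := hm i (Finset.mem_univ i)
    omega
  rw [map_sub, boxPart, map_sum, Finset.sum_eq_single m]
  · rw [coeff_smul, coeff_monomial_same, mul_one, sub_self]
  · intro n _ hne
    rw [coeff_smul, coeff_monomial_ne hne.symm, mul_zero]
  · intro h; exact absurd hm' h

lemma hK_ge (a b c d : ℕ) : 10 * (a + b + c + d) ≤ hK (a, b, c, d) := by
  rw [hK_eq]; unfold hN; omega

lemma X_pow_eq_monT (i : Fin 4) (D : ℕ) :
    ∃ q : T4, (X i : PS 2) ^ D = monT q ∧ 10 * D ≤ hK q := by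
  rw [X_pow_eq, monomial_eq_monT]
  refine ⟨_, rfl, ?_⟩
  refine le_trans ?_ (hK_ge _ _ _ _)
  fin_cases i <;> simp

/-- An ideal which contains all monomials of order `≥ a` contains `Q a`. -/
theorem Q_le_of_monomials (I : Ideal (PS 2)) (a : ℤ) (h : ∀ q : T4, a ≤ hK q → monT q ∈ I) :
    Q (fun _ => a) ≤ I := by
  intro ω hω
  have h1 : ω = boxPart a.toNat ω + (ω - boxPart a.toNat ω) := by ring
  rw [h1]
  refine Ideal.add_mem _ ?_ ?_
  · refine Ideal.sum_mem _ fun n _ => ?_
    by_cases hn : coeff n ω = 0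
    · rw [hn, zero_smul]; exact Ideal.zero_mem _
    · rw [MvPowerSeries.smul_eq_C_mul]
      refine Ideal.mul_mem_left _ _ ?_
      rw [monomial_eq_monT]
      exact h _ ((le_hK_iff' n a).1 (hω n hn))
  · refine powIdeal_le (a.toNat + 1) (fun i => ?_) _ (sub_boxPart _ _)
    obtain ⟨q, hq, hq'⟩ := X_pow_eq_monT i (a.toNat + 1)
    rw [hq]
    apply h
    omega

/-- The ideals `Q a` are finitely generated. -/
theorem Q_fg (a : ℤ) : (Q (fun _ => a)).FG := by
  classical
  set D := a.toNat with hD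
  set T : Finset (PS 2) := ((Finset.Iic (q4 D D D D)).filter fun n => ∀ j, a ≤ ell j n).image
    fun n => (monomial n 1 : PS 2) with hT
  refine ⟨T, le_antisymm ?_ ?_⟩
  · rw [Submodule.span_le]
    intro x hx
    rw [hT, Finset.coe_image] at hx
    obtain ⟨n, hn, rfl⟩ := hx
    rw [Finset.mem_coe, Finset.mem_filter] at hn
    exact monomial_mem_Q n 1 hn.2
  · apply Q_le_of_monomials
    intro q hq
    set n := q4 q.1 q.2.1 q.2.2.1 q.2.2.2 with hn
    have hq' := (le_hK_iff q a).2 hq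
    by_cases hbox : n ∈ Finset.Iic (q4 D D D D)
    · apply Submodule.subset_span
      rw [hT, Finset.coe_image]
      exact ⟨n, by rw [Finset.mem_coe, Finset.mem_filter]; exact ⟨hbox, hq'⟩, rfl⟩
    · rw [mem_box] at hbox
      push Not at hbox
      obtain ⟨i, hi⟩ := hbox
      have h1 : monT q = (monomial (n - Finsupp.single i D) 1 : PS 2)
          * monomial (Finsupp.single i D) 1 := by
        rw [monomial_mul_monomial, mul_one, tsub_add_cancel_of_le]
        · rfl
        · rw [Finsupp.single_le_iff]; omega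
      rw [h1]
      refine Submodule.smul_mem _ _ ?_
      apply Submodule.subset_span
      rw [hT, Finset.coe_image]
      refine ⟨Finsupp.single i D, ?_, rfl⟩
      rw [Finset.mem_coe, Finset.mem_filter, mem_box]
      constructor
      · intro k
        by_cases hk : k = i
        · subst hk; rw [Finsupp.single_eq_same]
        · rw [Finsupp.single_eq_of_ne hk]; omega
      · intro j
        rw [ell_single]
        have h2 := cw_ge j i
        have h3 : (0 : ℤ) ≤ D := by positivity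
        have h4 : a ≤ D := by omega
        nlinarith

lemma X_mem_max (i : Fin 4) : (X i : PS 2) ∈ IsLocalRing.maximalIdeal (PS 2) := by
  rw [IsLocalRing.mem_maximalIdeal, mem_nonunits_iff, MvPowerSeries.isUnit_iff_constantCoeff]
  rw [constantCoeff_X]
  exact not_isUnit_zero

lemma Bl_le : ∀ q ∈ Bl, hK q ≤ 120 := by
  have h : Bl.all (fun q => Nat.ble (hK q) 120) = true := by decide +kernel
  rw [List.all_eq_true] at h
  intro q hq
  exact Nat.le_of_ble_eq_true (h q hq)

lemma high_mem (a : ℤ) (q : T4) (ha : 0 < a) (hq : a + 24 ≤ hK q) :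
    monT q ∈ IsLocalRing.maximalIdeal (PS 2) • Q (fun _ => a) := by
  obtain ⟨x, y, z, w⟩ := q
  by_cases hx : 1 ≤ x
  · have e : monT (x, y, z, w) = (X 0 : PS 2) • monT (x - 1, y, z, w) := by
      obtain ⟨x, rfl⟩ := Nat.exists_eq_add_of_le' hx
      simp only [monT, mon_eq, smul_eq_mul, Nat.add_sub_cancel]
      ring
    rw [e]
    refine Submodule.smul_mem_smul (X_mem_max 0) (monT_mem_Q _ _ ?_)
    have : hK (x, y, z, w) ≤ hK (x - 1, y, z, w) + 24 := by
      rw [hK_eq, hK_eq]; unfold hN; omega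
    omega
  by_cases hy : 1 ≤ y
  · have e : monT (x, y, z, w) = (X 1 : PS 2) • monT (x, y - 1, z, w) := by
      obtain ⟨y, rfl⟩ := Nat.exists_eq_add_of_le' hy
      simp only [monT, mon_eq, smul_eq_mul, Nat.add_sub_cancel]
      ring
    rw [e]
    refine Submodule.smul_mem_smul (X_mem_max 1) (monT_mem_Q _ _ ?_)
    have : hK (x, y, z, w) ≤ hK (x, y - 1, z, w) + 24 := by
      rw [hK_eq, hK_eq]; unfold hN; omega
    omega
  by_cases hz : 1 ≤ z
  · have e : monT (x, y, z, w) = (X 2 : PS 2) • monT (x, y, z - 1, w) := by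
      obtain ⟨z, rfl⟩ := Nat.exists_eq_add_of_le' hz
      simp only [monT, mon_eq, smul_eq_mul, Nat.add_sub_cancel]
      ring
    rw [e]
    refine Submodule.smul_mem_smul (X_mem_max 2) (monT_mem_Q _ _ ?_)
    have : hK (x, y, z, w) ≤ hK (x, y, z - 1, w) + 24 := by
      rw [hK_eq, hK_eq]; unfold hN; omega
    omega
  by_cases hw : 1 ≤ w
  · have e : monT (x, y, z, w) = (X 3 : PS 2) • monT (x, y, z, w - 1) := by
      obtain ⟨w, rfl⟩ := Nat.exists_eq_add_of_le' hw
      simp only [monT, mon_eq, smul_eq_mul, Nat.add_sub_cancel]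
      ring
    rw [e]
    refine Submodule.smul_mem_smul (X_mem_max 3) (monT_mem_Q _ _ ?_)
    have : hK (x, y, z, w) ≤ hK (x, y, z, w - 1) + 24 := by
      rw [hK_eq, hK_eq]; unfold hN; omega
    omega
  exfalso
  have e : (x, y, z, w) = ((0, 0, 0, 0) : T4) := by
    simp only [Prod.mk.injEq]; omega
  rw [e] at hq
  have : hK (0, 0, 0, 0) = 0 := by decide
  omega

/-- The range `120 < a ≤ 180`, by Nakayama's lemma. -/
theorem Q_le_DI_mid (a : ℤ) (ha : 120 < a) (ha' : a ≤ 180) :
    Q (fun _ => a) ≤ DI (fun _ => a - 60) := by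
  refine Submodule.le_of_le_smul_of_le_jacobson_bot (I := IsLocalRing.maximalIdeal (PS 2))
    (Q_fg a) (IsLocalRing.maximalIdeal_le_jacobson _) ?_
  set I : Ideal (PS 2) := DI (fun _ => a - 60) ⊔ IsLocalRing.maximalIdeal (PS 2) • Q (fun _ => a)
    with hI
  apply Q_le_of_monomials I
  have key : ∀ m : ℕ, ∀ q : T4, a + 24 ≤ hK q + m → a ≤ hK q → monT q ∈ I := by
    intro m
    induction m with
    | zero =>
      intro q hq _
      exact Submodule.mem_sup_right (high_mem a q (by omega) (by simpa using hq))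
    | succ m ih =>
      intro q hq hq'
      by_cases h : a + 24 ≤ hK q + m
      · exact ih q h hq'
      · have H : LevelHyp (I.restrictScalars ℂ) (hK q) := by
          refine ⟨fun ω hω => ?_, fun q' hq'' => ?_, fun q' hB hB' => ?_⟩
          · exact Submodule.mem_sup_left (DI_anti (fun _ => by omega) hω)
          · exact ih q' (by omega) (by omega)
          · have := Bl_le q' hB
            omega
        exact level_mem (by omega) H q rfl
  intro q hq
  exact key 24 q (by push_cast; omega) hq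

lemma hN_swap1 (x y z w : ℕ) : hN y x z w = hN x y z w := by unfold hN; omega
lemma hN_swap2 (x y z w : ℕ) : hN x y w z = hN x y z w := by unfold hN; omega

lemma decomp_aux (x y z w : ℕ) (hxy : x ≤ y) (hzw : z ≤ w) (h : 180 < hN x y z w) :
    ∃ x1 y1 z1 w1 x2 y2 z2 w2 : ℕ, x = x1 + x2 ∧ y = y1 + y2 ∧ z = z1 + z2 ∧ w = w1 + w2 ∧
      0 < hN x2 y2 z2 w2 ∧ hN x2 y2 z2 w2 ≤ 60 ∧
      hN x1 y1 z1 w1 + hN x2 y2 z2 w2 = hN x y z w := by
  unfold hN at h
  by_cases hA : 9 * x + 2 * w ≤ 3 * y + 8 * z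
  · by_cases hx : 1 ≤ x
    · by_cases hz : 1 ≤ z
      · refine ⟨x - 1, y - 1, z - 1, w - 1, 1, 1, 1, 1, ?_⟩
        unfold hN; omega
      · refine ⟨x - 1, y - 3, z, w, 1, 3, 0, 0, ?_⟩
        unfold hN; omega
    · by_cases hy : 1 ≤ y
      · by_cases hs : 2 * w + 3 ≤ 3 * y + 8 * z
        · refine ⟨x, y - 1, z, w, 0, 1, 0, 0, ?_⟩
          unfold hN; omega
        · by_cases hy2 : 2 ≤ y
          · refine ⟨x, y - 2, z, w - 3, 0, 2, 0, 3, ?_⟩
            unfold hN; omega
          · refine ⟨x, y, z - 1, w - 4, 0, 0, 1, 4, ?_⟩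
            unfold hN; omega
      · by_cases hs : 2 * w + 6 ≤ 8 * z
        · refine ⟨x, y, z - 1, w - 1, 0, 0, 1, 1, ?_⟩
          unfold hN; omega
        · refine ⟨x, y, z - 1, w - 4, 0, 0, 1, 4, ?_⟩
          unfold hN; omega
  · by_cases hz : 1 ≤ z
    · by_cases hx : 1 ≤ x
      · refine ⟨x - 1, y - 1, z - 1, w - 1, 1, 1, 1, 1, ?_⟩
        unfold hN; omega
      · refine ⟨x, y, z - 1, w - 4, 0, 0, 1, 4, ?_⟩
        unfold hN; omega
    · by_cases hw : 1 ≤ w
      · by_cases hs : 3 * y + 2 ≤ 9 * x + 2 * w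
        · refine ⟨x, y, z, w - 1, 0, 0, 0, 1, ?_⟩
          unfold hN; omega
        · by_cases hx : 1 ≤ x
          · refine ⟨x - 1, y - 3, z, w, 1, 3, 0, 0, ?_⟩
            unfold hN; omega
          · refine ⟨x, y - 2, z, w - 3, 0, 2, 0, 3, ?_⟩
            unfold hN; omega
      · by_cases hs : 3 * y + 6 ≤ 9 * x
        · refine ⟨x - 1, y - 1, z, w, 1, 1, 0, 0, ?_⟩
          unfold hN; omega
        · refine ⟨x - 1, y - 3, z, w, 1, 3, 0, 0, ?_⟩
          unfold hN; omega

theorem decomp (x y z w : ℕ) (h : 180 < hN x y z w) :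
    ∃ x1 y1 z1 w1 x2 y2 z2 w2 : ℕ, x = x1 + x2 ∧ y = y1 + y2 ∧ z = z1 + z2 ∧ w = w1 + w2 ∧
      0 < hN x2 y2 z2 w2 ∧ hN x2 y2 z2 w2 ≤ 60 ∧
      hN x1 y1 z1 w1 + hN x2 y2 z2 w2 = hN x y z w := by
  have key : ∀ x y z w : ℕ, z ≤ w → 180 < hN x y z w →
      ∃ x1 y1 z1 w1 x2 y2 z2 w2 : ℕ, x = x1 + x2 ∧ y = y1 + y2 ∧ z = z1 + z2 ∧ w = w1 + w2 ∧
      0 < hN x2 y2 z2 w2 ∧ hN x2 y2 z2 w2 ≤ 60 ∧
      hN x1 y1 z1 w1 + hN x2 y2 z2 w2 = hN x y z w := by
    intro x y z w hzw h
    rcases le_total x y with hxy | hxy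
    · exact decomp_aux x y z w hxy hzw h
    · rw [← hN_swap1] at h
      obtain ⟨x1, y1, z1, w1, x2, y2, z2, w2, h1, h2, h3, h4, h5, h6, h7⟩ :=
        decomp_aux y x z w hxy hzw h
      refine ⟨y1, x1, z1, w1, y2, x2, z2, w2, h2, h1, h3, h4, ?_, ?_, ?_⟩
      · rw [hN_swap1]; exact h5
      · rw [hN_swap1]; exact h6
      · rw [hN_swap1 x1 y1, hN_swap1 x2 y2, hN_swap1 y x]; exact h7
  rcases le_total z w with hzw | hzw
  · exact key x y z w hzw h
  · rw [← hN_swap2] at h
    obtain ⟨x1, y1, z1, w1, x2, y2, z2, w2, h1, h2, h3, h4, h5, h6, h7⟩ := key x y w z hzw h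
    refine ⟨x1, y1, w1, z1, x2, y2, w2, z2, h1, h2, h4, h3, ?_, ?_, ?_⟩
    · rw [hN_swap2]; exact h5
    · rw [hN_swap2]; exact h6
    · rw [hN_swap2 x1 y1, hN_swap2 x2 y2, hN_swap2 x y w z]; exact h7

/-- Monomials of order `> 120` lie in the Jacobian ideal, strictly. -/
theorem monT_mem_DI (n : ℕ) : ∀ q : T4, hK q = n → 120 < n → monT q ∈ DI (fun _ => (n : ℤ) - 60) := by
  induction n using Nat.strong_induction_on with
  | _ n ih =>
    intro q hq hn
    by_cases h : n ≤ 180
    · exact Q_le_DI_mid n (by exact_mod_cast hn) (by exact_mod_cast h)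
        (monT_mem_Q q _ (by rw [hq]))
    · obtain ⟨x, y, z, w⟩ := q
      rw [hK_eq] at hq
      obtain ⟨x1, y1, z1, w1, x2, y2, z2, w2, h1, h2, h3, h4, h5, h6, h7⟩ :=
        decomp x y z w (by omega)
      have e : monT (x, y, z, w) = monT (x2, y2, z2, w2) * monT (x1, y1, z1, w1) := by
        unfold monT
        rw [mon_mul]
        simp only
        rw [h1, h2, h3, h4]
        congr 1 <;> ring
      rw [e]
      have h8 := ih (hN x1 y1 z1 w1) (by omega) (x1, y1, z1, w1) (hK_eq _ _ _ _) (by omega)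
      have h9 := monT_mem_Q (x2, y2, z2, w2) (hN x2 y2 z2 w2) (by rw [hK_eq])
      refine DI_anti (fun _ => ?_) (mul_mem_DI h9 h8)
      omega

/-- **Strictness above the socle.** -/
theorem Q_le_DI (a : ℤ) (ha : 120 < a) : Q (fun _ => a) ≤ DI (fun _ => a - 60) := by
  apply Q_le_of_monomials
  intro q hq
  refine DI_anti (fun _ => ?_) (monT_mem_DI (hK q) q rfl (by omega))
  omega

/-- The span of the basis monomials of order `≥ a`. -/
noncomputable def SB (a : ℤ) : Submodule ℂ (PS 2) :=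
  Submodule.span ℂ {ω | ∃ q ∈ Bl, a ≤ hK q ∧ monT q = ω}

lemma SB_anti {a b : ℤ} (h : a ≤ b) : SB b ≤ SB a := by
  apply Submodule.span_mono
  rintro _ ⟨q, hq, hq', rfl⟩
  exact ⟨q, hq, h.trans hq', rfl⟩

/-- `dfw (VQ (a - 60))` plus the span of the basis monomials of order `≥ a` -/
noncomputable def RB (a : ℤ) : Submodule ℂ (PS 2) :=
  (DI (fun _ => a - 60)).restrictScalars ℂ ⊔ SB a

lemma RB_anti {a b : ℤ} (h : a ≤ b) : RB b ≤ RB a := by
  apply sup_le_sup
  · exact DI_anti (fun _ => by omega)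
  · exact SB_anti h

theorem monT_mem_RB (m : ℕ) : ∀ q : T4, 121 ≤ hK q + m → monT q ∈ RB (hK q) := by
  induction m with
  | zero =>
    intro q hq
    exact Submodule.mem_sup_left (monT_mem_DI (hK q) q rfl (by omega))
  | succ m ih =>
    intro q hq
    by_cases h : 121 ≤ hK q + m
    · exact ih q h
    · have H : LevelHyp (RB (hK q)) (hK q) := by
        refine ⟨fun ω hω => Submodule.mem_sup_left hω, fun q' hq'' => ?_, fun q' hB hB' => ?_⟩
        · exact RB_anti (by omega) (ih q' (by omega))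
        · exact Submodule.mem_sup_right (Submodule.subset_span ⟨q', hB, by omega, rfl⟩)
      exact level_mem (by omega) H q rfl

/-- **The strict spanning theorem.** -/
theorem Q_le_RB (a : ℤ) (ω : PS 2) (hω : ω ∈ Q (fun _ => a)) : ω ∈ RB a := by
  by_cases ha : 130 < a
  · exact Submodule.mem_sup_left (Q_le_DI a (by omega) hω)
  · have h1 : ω = boxPart 12 ω + (ω - boxPart 12 ω) := by ring
    rw [h1]
    refine Submodule.add_mem _ ?_ ?_
    · refine Submodule.sum_mem _ fun n _ => ?_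
      by_cases hn : coeff n ω = 0
      · rw [hn, zero_smul]; exact Submodule.zero_mem _
      · refine Submodule.smul_mem _ _ ?_
        rw [monomial_eq_monT]
        exact RB_anti ((le_hK_iff' n a).1 (hω n hn)) (monT_mem_RB 121 _ (by omega))
    · refine Submodule.mem_sup_left ?_
      show _ ∈ DI (fun _ => a - 60)
      have h2 : powIdeal Finset.univ (12 + 1) ≤ Q (fun _ => 130) := by
        apply powIdeal_le
        intro i
        obtain ⟨q, hq, hq'⟩ := X_pow_eq_monT i (12 + 1)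
        rw [hq]
        exact monT_mem_Q q _ (by omega)
      exact DI_anti (fun _ => by omega) (Q_le_DI 130 (by norm_num) (h2 (sub_boxPart _ _)))

end NF

end Run7.h935
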