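import Mathlib

/-!
# The spectrum of an isolated hypersurface singularity

Let `f` be a function in `m + 2` variables (so at least two variables), given by its Taylor
series at the origin.  We use forms with formal power series coefficients.

* A form of degree `m + 2` is represented by its coefficient `ω : ℂ⟦x_0, …, x_{m+1}⟧`.
* A form `η` of degree `m + 1` is represented by the tuple `g` with
  `η = ∑ g_i ι_{∂_i} (dx_0 ∧ … ∧ dx_{m+1})`.  Then `dη` is represented by `∑ ∂_i g_i`, and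
  `df ∧ η` is represented by `∑ (∂_i f) g_i`.
* A form of degree `m` is represented by an antisymmetric matrix `ξ`, and its exterior derivative
  is represented by the tuple `(∑_j ∂_j ξ_{ij})_i` (up to sign).

The (formal) Brieskorn lattice is `H''_0 = Ω^{m+2} / df ∧ dΩ^m`, with the operators
`t [ω] = [f ω]` and `s = ∂_t⁻¹`, `s [dη] = [df ∧ η]`.  The spectrum is the multiset in which `α`
has multiplicity `dim Gr_V^α (H''_0 / ∂_t⁻¹ H''_0)`, where `V` is the V-filtration.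
-/

namespace Run7.h935

open scoped Topology

/-- The subspace `df ∧ dΩ^m` of the space `Ω^{m+2}` of top degree forms. -/
def brieskornRel {m : ℕ} (f : MvPowerSeries (Fin (m + 2)) ℂ) :
    Submodule ℂ (MvPowerSeries (Fin (m + 2)) ℂ) :=
  Submodule.span ℂ {ω | ∃ ξ : Fin (m + 2) → Fin (m + 2) → MvPowerSeries (Fin (m + 2)) ℂ,
    (∀ i j, ξ i j = - ξ j i) ∧
      ω = ∑ i, MvPowerSeries.pderiv ℂ i f * ∑ j, MvPowerSeries.pderiv ℂ j (ξ i j)}

section Filtrations

variable {M : Type} [AddCommGroup M] [Module ℂ M]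

/-- The operator `(t - (α + k - 1) s) ⋯ (t - (α + 1) s) (t - α s)`.  In the Gauss-Manin system,
where `s = ∂_t⁻¹`, it equals `∂_t^{-k} (∂_t t - α)^k`. -/
noncomputable def shiftProd (t s : M →ₗ[ℂ] M) (α : ℚ) : ℕ → (M →ₗ[ℂ] M)
  | 0 => LinearMap.id
  | k + 1 => (t - ((α + k : ℚ) : ℂ) • s) ∘ₗ shiftProd t s α k

/-- `V^{>α} = ∑_{β > α} V^β`. -/
noncomputable def VGt (V : ℚ → Submodule ℂ M) (α : ℚ) : Submodule ℂ M :=
  ⨆ β : ℚ, ⨆ _ : α < β, V β

/-- For `M = H''_0` the Brieskorn lattice with the operators `t` and `s = ∂_t⁻¹`, this says that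
`V` is the filtration induced on `H''_0` by the V-filtration of Malgrange and Kashiwara of the
Gauss-Manin system, indexed so that `∂_t t - α` is nilpotent on `Gr_V^α`. -/
structure IsVFiltration (t s : M →ₗ[ℂ] M) (V : ℚ → Submodule ℂ M) : Prop where
  /-- the filtration is decreasing -/
  antitone : ∀ α β : ℚ, α ≤ β → V β ≤ V α
  /-- it is indexed by `(1/N) ℤ` for some `N` -/
  discrete : ∃ N : ℕ, 0 < N ∧ ∀ α : ℚ, V α = V ((⌈(N : ℚ) * α⌉ : ℚ) / N)
  /-- it is exhaustive -/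
  exhaustive : ∃ α : ℚ, V α = ⊤
  /-- `∂_t⁻¹ V^α = V^{α+1}` in the Gauss-Manin system -/
  s_mem_iff : ∀ (α : ℚ) (x : M), s x ∈ V (α + 1) ↔ x ∈ V α
  /-- `t V^α ⊆ V^{α+1}` -/
  t_mem : ∀ (α : ℚ) (x : M), x ∈ V α → t x ∈ V (α + 1)
  /-- `V^α` is contained in `∂_t⁻¹ H''_0` for large `α` -/
  separated : ∃ α : ℚ, V α ≤ LinearMap.range s
  /-- `∂_t t - α` is nilpotent on `Gr_V^α` -/
  nilpotent : ∀ α : ℚ, ∃ k : ℕ, ∀ x ∈ V α, shiftProd t s α k x ∈ VGt V (α + k)

/-- The dimension of `U / (U ∩ W)`. -/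
noncomputable def relDim (U W : Submodule ℂ M) : ℕ :=
  Module.finrank ℂ (↥U ⧸ Submodule.comap U.subtype W)

/-- The dimension of `Gr_V^α (M / s M)`. -/
noncomputable def specMult (s : M →ₗ[ℂ] M) (V : ℚ → Submodule ℂ M) (α : ℚ) : ℕ :=
  relDim (V α ⊔ LinearMap.range s) (VGt V α ⊔ LinearMap.range s)

end Filtrations

/-- `t` is the operator `[ω] ↦ [f ω]` on the formal Brieskorn lattice
`H''_0 = Ω^{m+2} / df ∧ dΩ^m`. -/
def IsTOp {m : ℕ} (f : MvPowerSeries (Fin (m + 2)) ℂ)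
    (t : (MvPowerSeries (Fin (m + 2)) ℂ ⧸ brieskornRel f) →ₗ[ℂ]
      (MvPowerSeries (Fin (m + 2)) ℂ ⧸ brieskornRel f)) : Prop :=
  ∀ ω : MvPowerSeries (Fin (m + 2)) ℂ,
    t ((brieskornRel f).mkQ ω) = (brieskornRel f).mkQ (f * ω)

/-- `s` is the operator `∂_t⁻¹ : [dη] ↦ [df ∧ η]` on the formal Brieskorn lattice
`H''_0 = Ω^{m+2} / df ∧ dΩ^m`. -/
def IsSOp {m : ℕ} (f : MvPowerSeries (Fin (m + 2)) ℂ)
    (s : (MvPowerSeries (Fin (m + 2)) ℂ ⧸ brieskornRel f) →ₗ[ℂ]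
      (MvPowerSeries (Fin (m + 2)) ℂ ⧸ brieskornRel f)) : Prop :=
  ∀ g : Fin (m + 2) → MvPowerSeries (Fin (m + 2)) ℂ,
    s ((brieskornRel f).mkQ (∑ i, MvPowerSeries.pderiv ℂ i (g i)))
      = (brieskornRel f).mkQ (∑ i, MvPowerSeries.pderiv ℂ i f * g i)

/-- `Sp` is the spectrum of `f` (in the normalisation in which it is contained in
`(0, number of variables)`): the multiplicity of `α` is the dimension of
`Gr_V^α (H''_0 / ∂_t⁻¹ H''_0)`, where `V` is the V-filtration. -/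
def IsSpectrum {m : ℕ} (f : MvPowerSeries (Fin (m + 2)) ℂ) (Sp : Multiset ℚ) : Prop :=
  ∃ (t s : (MvPowerSeries (Fin (m + 2)) ℂ ⧸ brieskornRel f) →ₗ[ℂ]
      (MvPowerSeries (Fin (m + 2)) ℂ ⧸ brieskornRel f))
    (V : ℚ → Submodule ℂ (MvPowerSeries (Fin (m + 2)) ℂ ⧸ brieskornRel f)),
    IsTOp f t ∧ IsSOp f s ∧ IsVFiltration t s V ∧ ∀ α : ℚ, Sp.count α = specMult s V α

/-- `α_0 ≤ … ≤ α_n` is the normalized spectrum of `f`: the spectrum, shifted so that it is
symmetric about `0`. -/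
structure IsNormalizedSpectrum {m n : ℕ} (f : MvPowerSeries (Fin (m + 2)) ℂ)
    (α : Fin (n + 1) → ℚ) : Prop where
  monotone : ∀ i j, i ≤ j → α i ≤ α j
  symm : ∀ j, α j + α (Fin.rev j) = 0
  spectrum : ∃ c : ℚ, IsSpectrum f (Finset.univ.val.map fun j => α j + c)

/-- The gradient of the polynomial `f` at the point `z`. -/
noncomputable def grad {m : ℕ} (f : MvPolynomial (Fin (m + 2)) ℂ) (z : Fin (m + 2) → ℂ) :
    Fin (m + 2) → ℂ := fun i => MvPolynomial.eval z (MvPolynomial.pderiv i f)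

/-- The polynomial `f` in `m + 2` variables has an isolated singularity at the origin: `f(0) = 0`,
the origin is a critical point of `f`, and it is isolated in the critical locus of `f`. -/
def IsIsolatedSingularity {m : ℕ} (f : MvPolynomial (Fin (m + 2)) ℂ) : Prop :=
  MvPolynomial.eval 0 f = 0 ∧ grad f 0 = 0 ∧
  ∀ᶠ z in 𝓝 (0 : Fin (m + 2) → ℂ), grad f z = 0 → z = 0

end Run7.h935
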